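import Pool.Agent.V11282.RL.Genus

set_option autoImplicit false

/-!
# The root lattice `2 E_8 + D_4`
-/

namespace Pool.Agent.V11282.RL

open Finset Matrix
open Pool.Agent.Y813.RL (bf PosSymm SameGenus gramEED bd)

noncomputable section

theorem D4_det : (CartanMatrix.D 4).det = 4 := by
  rw [CartanMatrix.D_four]
  simp only [norm_det]

theorem EED_D4T : D4T gramEED := by
  refine ⟨?_, ?_, ?_, ?_⟩
  · unfold gramEED
    exact Matrix.IsSymm.fromBlocks CartanMatrix.E₈_isSymm (by simp)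
      (Matrix.IsSymm.fromBlocks CartanMatrix.E₈_isSymm (by simp) (CartanMatrix.D_isSymm 4))
  · rintro (i | i | i)
    · show Even (CartanMatrix.E₈ i i)
      rw [CartanMatrix.E₈_diag]
      exact even_two
    · show Even (CartanMatrix.E₈ i i)
      rw [CartanMatrix.E₈_diag]
      exact even_two
    · show Even (CartanMatrix.D 4 i i)
      rw [CartanMatrix.D_diag]
      exact even_two
  · unfold gramEED
    rw [Matrix.det_fromBlocks_zero₂₁, Matrix.det_fromBlocks_zero₂₁, CartanMatrix.E₈_det, D4_det]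
    norm_num
  · refine ⟨Sum.elim 0 (Sum.elim 0 ![2, 2, 1, 1]), Sum.elim 0 (Sum.elim 0 ![1, 2, 2, 1]),
      Sum.elim 0 (Sum.elim 0 ![1, 0, 0, 0]), Sum.elim 0 (Sum.elim 0 ![0, 0, 1, 0]), 0, 0, 0,
      ?_, ?_, ?_, ?_, ?_⟩
    · unfold gramEED
      rw [Matrix.fromBlocks_mulVec, CartanMatrix.D_four]
      funext i
      rcases i with i | i | i
      · simp [Function.comp_def, Matrix.mulVec, dotProduct]
      · simp [Function.comp_def, Matrix.fromBlocks_mulVec, Matrix.mulVec, dotProduct]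
      · simp only [Function.comp_def, Sum.elim_inl, Sum.elim_inr, Matrix.fromBlocks_mulVec,
          Pi.smul_apply]
        fin_cases i <;> simp [Matrix.mulVec, dotProduct, Fin.sum_univ_four]
    · unfold gramEED
      rw [Matrix.fromBlocks_mulVec, CartanMatrix.D_four]
      funext i
      rcases i with i | i | i
      · simp [Function.comp_def, Matrix.mulVec, dotProduct]
      · simp [Function.comp_def, Matrix.fromBlocks_mulVec, Matrix.mulVec, dotProduct]
      · simp only [Function.comp_def, Sum.elim_inl, Sum.elim_inr, Matrix.fromBlocks_mulVec,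
          Pi.smul_apply]
        fin_cases i <;> simp [Matrix.mulVec, dotProduct, Fin.sum_univ_four]
    · simp [dotProduct, Fintype.sum_sum_type, Fin.sum_univ_four]
    · simp [dotProduct, Fintype.sum_sum_type, Fin.sum_univ_four]
    · simp [dotProduct, Fintype.sum_sum_type, Fin.sum_univ_four]

theorem E8_pos (x : Fin 8 → ℝ) (hx : x ≠ 0) : 0 < bf CartanMatrix.E₈ x x := by
  have key : 60 * bf CartanMatrix.E₈ x x =
      30 * (2 * x 0 - x 2) ^ 2 + 10 * (3 * x 2 - 2 * x 3) ^ 2 + 30 * (2 * x 1 - x 3) ^ 2 +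
      30 * (2 * x 7 - x 6) ^ 2 + 10 * (3 * x 6 - 2 * x 5) ^ 2 + 5 * (4 * x 5 - 3 * x 4) ^ 2 +
      3 * (5 * x 4 - 4 * x 3) ^ 2 + 2 * x 3 ^ 2 := by
    unfold bf
    simp only [Fin.sum_univ_eight]
    simp [CartanMatrix.E₈]
    ring
  by_contra hcon
  push Not at hcon
  have e1 : 0 ≤ 30 * (2 * x 0 - x 2) ^ 2 := by positivity
  have e2 : 0 ≤ 10 * (3 * x 2 - 2 * x 3) ^ 2 := by positivity
  have e3 : 0 ≤ 30 * (2 * x 1 - x 3) ^ 2 := by positivity
  have e4 : 0 ≤ 30 * (2 * x 7 - x 6) ^ 2 := by positivity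
  have e5 : 0 ≤ 10 * (3 * x 6 - 2 * x 5) ^ 2 := by positivity
  have e6 : 0 ≤ 5 * (4 * x 5 - 3 * x 4) ^ 2 := by positivity
  have e7 : 0 ≤ 3 * (5 * x 4 - 4 * x 3) ^ 2 := by positivity
  have e8 : 0 ≤ 2 * x 3 ^ 2 := by positivity
  have z3 : x 3 = 0 := by
    have : x 3 ^ 2 = 0 := by linarith
    exact pow_eq_zero_iff (two_ne_zero) |>.1 this
  have z4 : x 4 = 0 := by
    have h : (5 * x 4 - 4 * x 3) ^ 2 = 0 := by linarith
    have := pow_eq_zero_iff (two_ne_zero) |>.1 h
    linarith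
  have z5 : x 5 = 0 := by
    have h : (4 * x 5 - 3 * x 4) ^ 2 = 0 := by linarith
    have := pow_eq_zero_iff (two_ne_zero) |>.1 h
    linarith
  have z6 : x 6 = 0 := by
    have h : (3 * x 6 - 2 * x 5) ^ 2 = 0 := by linarith
    have := pow_eq_zero_iff (two_ne_zero) |>.1 h
    linarith
  have z7 : x 7 = 0 := by
    have h : (2 * x 7 - x 6) ^ 2 = 0 := by linarith
    have := pow_eq_zero_iff (two_ne_zero) |>.1 h
    linarith
  have z1 : x 1 = 0 := by
    have h : (2 * x 1 - x 3) ^ 2 = 0 := by linarith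
    have := pow_eq_zero_iff (two_ne_zero) |>.1 h
    linarith
  have z2 : x 2 = 0 := by
    have h : (3 * x 2 - 2 * x 3) ^ 2 = 0 := by linarith
    have := pow_eq_zero_iff (two_ne_zero) |>.1 h
    linarith
  have z0 : x 0 = 0 := by
    have h : (2 * x 0 - x 2) ^ 2 = 0 := by linarith
    have := pow_eq_zero_iff (two_ne_zero) |>.1 h
    linarith
  apply hx
  funext i
  fin_cases i <;> simp [z0, z1, z2, z3, z4, z5, z6, z7]

theorem D4_pos (x : Fin 4 → ℝ) (hx : x ≠ 0) : 0 < bf (CartanMatrix.D 4) x x := by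
  have key : 2 * bf (CartanMatrix.D 4) x x =
      (2 * x 0 - x 1) ^ 2 + (2 * x 2 - x 1) ^ 2 + (2 * x 3 - x 1) ^ 2 + x 1 ^ 2 := by
    rw [CartanMatrix.D_four]
    unfold bf
    simp only [Fin.sum_univ_four]
    simp
    ring
  by_contra hcon
  push Not at hcon
  have e1 : 0 ≤ (2 * x 0 - x 1) ^ 2 := by positivity
  have e2 : 0 ≤ (2 * x 2 - x 1) ^ 2 := by positivity
  have e3 : 0 ≤ (2 * x 3 - x 1) ^ 2 := by positivity
  have e4 : 0 ≤ x 1 ^ 2 := by positivity
  have z1 : x 1 = 0 := by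
    have h : x 1 ^ 2 = 0 := by linarith
    exact pow_eq_zero_iff (two_ne_zero) |>.1 h
  have z0 : x 0 = 0 := by
    have h : (2 * x 0 - x 1) ^ 2 = 0 := by linarith
    have := pow_eq_zero_iff (two_ne_zero) |>.1 h
    linarith
  have z2 : x 2 = 0 := by
    have h : (2 * x 2 - x 1) ^ 2 = 0 := by linarith
    have := pow_eq_zero_iff (two_ne_zero) |>.1 h
    linarith
  have z3 : x 3 = 0 := by
    have h : (2 * x 3 - x 1) ^ 2 = 0 := by linarith
    have := pow_eq_zero_iff (two_ne_zero) |>.1 h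
    linarith
  apply hx
  funext i
  fin_cases i <;> simp [z0, z1, z2, z3]

theorem pos_blocks {ι κ : Type} [Fintype ι] [Fintype κ] {B : Matrix ι ι ℤ} {C : Matrix κ κ ℤ}
    (hB : ∀ x : ι → ℝ, x ≠ 0 → 0 < bf B x x) (hC : ∀ x : κ → ℝ, x ≠ 0 → 0 < bf C x x)
    (x : ι ⊕ κ → ℝ) (hx : x ≠ 0) : 0 < bf (Matrix.fromBlocks B 0 0 C) x x := by
  have h1 : bf (Matrix.fromBlocks B 0 0 C) x x =
      bf B (fun i => x (.inl i)) (fun i => x (.inl i)) +
        bf C (fun i => x (.inr i)) (fun i => x (.inr i)) := by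
    unfold bf
    simp [Fintype.sum_sum_type]
  have nB : ∀ y : ι → ℝ, 0 ≤ bf B y y := by
    intro y
    by_cases hy : y = 0
    · rw [hy]
      unfold bf
      simp
    · exact (hB y hy).le
  have nC : ∀ y : κ → ℝ, 0 ≤ bf C y y := by
    intro y
    by_cases hy : y = 0
    · rw [hy]
      unfold bf
      simp
    · exact (hC y hy).le
  rw [h1]
  by_cases h2 : (fun i => x (.inl i)) = 0
  · have h3 : (fun i => x (.inr i)) ≠ 0 := by
      intro h3
      apply hx
      funext i
      rcases i with i | i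
      · exact congrFun h2 i
      · exact congrFun h3 i
    have := nB (fun i => x (.inl i))
    have := hC _ h3
    linarith
  · have := nC (fun i => x (.inr i))
    have := hB _ h2
    linarith

theorem EED_pos (x : Fin 8 ⊕ (Fin 8 ⊕ Fin 4) → ℝ) (hx : x ≠ 0) : 0 < bf gramEED x x := by
  unfold gramEED
  exact pos_blocks E8_pos (pos_blocks E8_pos D4_pos) x hx

/-- **GENUS.** -/
theorem jobGenus : Pool.Agent.Y813.RL.JobGenus := by
  intro G h he hd hdet
  exact same_genus (d4t_of_disc h he hd hdet) EED_D4T h.pos EED_pos (by simp)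

end

end Pool.Agent.V11282.RL
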