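import Pool.Agent.Y813.RL.Bf
import Pool.Agent.Y683.RL.Fou

set_option autoImplicit false

/-!
# The dual lattice pairing, representatives, finite Fourier transform
-/

namespace Pool.Agent.V11282.RL

open Pool.Agent.Y813.RL Finset

noncomputable section

variable {A : Matrix (Fin 20) (Fin 20) ℤ}

/-- the real matrix -/
def Ar (A : Matrix (Fin 20) (Fin 20) ℤ) : Matrix (Fin 20) (Fin 20) ℝ := A.map (Int.cast : ℤ → ℝ)

/-- cast of an integral vector -/
def vr (μ : Fin 20 → ℤ) : Fin 20 → ℝ := fun i => (μ i : ℝ)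

theorem bd_eq (A : Matrix (Fin 20) (Fin 20) ℤ) (μ ν : Fin 20 → ℤ) :
    bd A μ ν = dotProduct (vr μ) ((Ar A)⁻¹.mulVec (vr ν)) := rfl

theorem vr_add (μ ν : Fin 20 → ℤ) : vr (μ + ν) = vr μ + vr ν := by
  ext i; simp [vr]

theorem vr_neg (μ : Fin 20 → ℤ) : vr (-μ) = -vr μ := by
  ext i; simp [vr]

theorem vr_sub (μ ν : Fin 20 → ℤ) : vr (μ - ν) = vr μ - vr ν := by
  ext i; simp [vr]

theorem vr_mulVec (v : Fin 20 → ℤ) : vr (A.mulVec v) = (Ar A).mulVec (vr v) := by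
  ext i; simp [vr, Ar, Matrix.mulVec, dotProduct]

theorem Ar_symm (h : PosSymm A) : (Ar A).IsSymm := by
  unfold Ar
  exact h.symm.map _

theorem bf_dot (x y : Fin 20 → ℝ) : bf A x y = dotProduct x ((Ar A).mulVec y) := by
  unfold bf dotProduct Matrix.mulVec dotProduct Ar
  refine sum_congr rfl fun i _ => ?_
  rw [mul_sum]
  refine sum_congr rfl fun j _ => ?_
  simp [mul_assoc]

theorem posDef (h : PosSymm A) : (Ar A).PosDef := by
  refine Matrix.PosDef.of_dotProduct_mulVec_pos ?_ fun x hx => ?_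
  · have := Ar_symm h
    rw [Matrix.IsHermitian, Matrix.conjTranspose_eq_transpose_of_trivial]
    exact this
  · have := h.pos x hx
    rw [bf_dot] at this
    simpa using this

theorem Ar_det (A : Matrix (Fin 20) (Fin 20) ℤ) : (Ar A).det = (A.det : ℝ) := by
  unfold Ar
  have := (Int.castRingHom ℝ).map_det A
  simpa using this.symm

theorem det_posR (h : PosSymm A) : 0 < (Ar A).det := (posDef h).det_pos

theorem det_posZ (h : PosSymm A) : 0 < A.det := by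
  have := det_posR h
  rw [Ar_det] at this
  exact_mod_cast this

theorem Ar_unit (h : PosSymm A) : IsUnit (Ar A).det := (det_posR h).ne'.isUnit

theorem inv_mul_vec (h : PosSymm A) (x : Fin 20 → ℝ) : (Ar A)⁻¹.mulVec ((Ar A).mulVec x) = x := by
  rw [Matrix.mulVec_mulVec, Matrix.nonsing_inv_mul _ (Ar_unit h), Matrix.one_mulVec]

theorem mul_inv_vec (h : PosSymm A) (x : Fin 20 → ℝ) : (Ar A).mulVec ((Ar A)⁻¹.mulVec x) = x := by
  rw [Matrix.mulVec_mulVec, Matrix.mul_nonsing_inv _ (Ar_unit h), Matrix.one_mulVec]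

theorem bd_add_left (μ ν ρ : Fin 20 → ℤ) : bd A (μ + ν) ρ = bd A μ ρ + bd A ν ρ := by
  rw [bd_eq, bd_eq, bd_eq, vr_add, add_dotProduct]

theorem bd_add_right (μ ν ρ : Fin 20 → ℤ) : bd A ρ (μ + ν) = bd A ρ μ + bd A ρ ν := by
  rw [bd_eq, bd_eq, bd_eq, vr_add, Matrix.mulVec_add, dotProduct_add]

theorem bd_neg_left (μ ρ : Fin 20 → ℤ) : bd A (-μ) ρ = -bd A μ ρ := by
  rw [bd_eq, bd_eq, vr_neg, neg_dotProduct]

theorem bd_neg_right (μ ρ : Fin 20 → ℤ) : bd A ρ (-μ) = -bd A ρ μ := by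
  rw [bd_eq, bd_eq, vr_neg, Matrix.mulVec_neg, dotProduct_neg]

theorem bd_sub_left (μ ν ρ : Fin 20 → ℤ) : bd A (μ - ν) ρ = bd A μ ρ - bd A ν ρ := by
  rw [sub_eq_add_neg, bd_add_left, bd_neg_left, ← sub_eq_add_neg]

theorem bd_sub_right (μ ν ρ : Fin 20 → ℤ) : bd A ρ (μ - ν) = bd A ρ μ - bd A ρ ν := by
  rw [sub_eq_add_neg, bd_add_right, bd_neg_right, ← sub_eq_add_neg]

theorem inv_symm (h : PosSymm A) : ((Ar A)⁻¹).IsSymm := by
  rw [Matrix.IsSymm, Matrix.transpose_nonsing_inv, Ar_symm h]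

theorem dot_symm {B : Matrix (Fin 20) (Fin 20) ℝ} (hB : B.IsSymm) (x y : Fin 20 → ℝ) :
    dotProduct x (B.mulVec y) = dotProduct y (B.mulVec x) := by
  rw [Matrix.dotProduct_mulVec, ← Matrix.mulVec_transpose, hB, dotProduct_comm]

theorem bd_comm (h : PosSymm A) (μ ν : Fin 20 → ℤ) : bd A μ ν = bd A ν μ := by
  rw [bd_eq, bd_eq, dot_symm (inv_symm h)]

theorem bd_mulVec_right (h : PosSymm A) (μ v : Fin 20 → ℤ) :
    bd A μ (A.mulVec v) = ((dotProduct μ v : ℤ) : ℝ) := by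
  rw [bd_eq, vr_mulVec, inv_mul_vec h]
  simp [dotProduct, vr]

theorem bd_mulVec_left (h : PosSymm A) (μ v : Fin 20 → ℤ) :
    bd A (A.mulVec v) μ = ((dotProduct μ v : ℤ) : ℝ) := by
  rw [bd_comm h, bd_mulVec_right h]

theorem bd_self_nonneg (h : PosSymm A) (μ : Fin 20 → ℤ) : 0 ≤ bd A μ μ := by
  have := h.nonneg ((Ar A)⁻¹.mulVec (vr μ))
  rw [bf_dot, mul_inv_vec h] at this
  rw [bd_eq, dotProduct_comm]
  exact this

/-- nondegeneracy of the discriminant pairing -/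
theorem mem_of_bd_int (h : PosSymm A) (ν : Fin 20 → ℤ)
    (hi : ∀ μ : Fin 20 → ℤ, ∃ k : ℤ, bd A μ ν = k) : ∃ v : Fin 20 → ℤ, ν = A.mulVec v := by
  choose k hk using fun i : Fin 20 => hi (Pi.single i 1)
  refine ⟨k, ?_⟩
  have h1 : (Ar A)⁻¹.mulVec (vr ν) = vr k := by
    ext i
    have h2 := hk i
    rw [bd_eq] at h2
    have h3 : vr (Pi.single i 1) = Pi.single i (1 : ℝ) := by
      ext j
      by_cases hj : j = i
      · subst hj; simp [vr]
      · simp [vr, hj]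
    rw [h3, single_one_dotProduct] at h2
    rw [h2]
    rfl
  have h4 : vr ν = vr (A.mulVec k) := by
    rw [vr_mulVec, ← h1, mul_inv_vec h]
  ext i
  have h5 := congrFun h4 i
  simp only [vr] at h5
  exact_mod_cast h5

theorem vr_inj {μ ν : Fin 20 → ℤ} (h : vr μ = vr ν) : μ = ν := by
  ext i
  have := congrFun h i
  simp only [vr] at this
  exact_mod_cast this

theorem mulVec_inj (h : PosSymm A) {v w : Fin 20 → ℤ} (hvw : A.mulVec v = A.mulVec w) : v = w := by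
  apply vr_inj
  rw [← inv_mul_vec h (vr v), ← inv_mul_vec h (vr w), ← vr_mulVec, ← vr_mulVec, hvw]

/-- the sublattice -/
def subL (A : Matrix (Fin 20) (Fin 20) ℤ) : Submodule ℤ (Fin 20 → ℤ) :=
  LinearMap.range A.mulVecLin

theorem mem_subL (ν : Fin 20 → ℤ) : ν ∈ subL A ↔ ∃ v : Fin 20 → ℤ, ν = A.mulVec v := by
  unfold subL
  rw [LinearMap.mem_range]
  exact ⟨fun ⟨v, hv⟩ => ⟨v, hv.symm⟩, fun ⟨v, hv⟩ => ⟨v, hv.symm⟩⟩

theorem card_quot (h : PosSymm A) : (Nat.card ((Fin 20 → ℤ) ⧸ subL A) : ℤ) = A.det := by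
  have hinj : Function.Injective A.mulVecLin := fun v w hvw => mulVec_inj h hvw
  let e : (Fin 20 → ℤ) ≃ₗ[ℤ] subL A := LinearEquiv.ofInjective A.mulVecLin hinj
  have h1 := Submodule.natAbs_det_equiv (subL A) e.toAddEquiv
  have h2 : (subL A).subtype ∘ₗ AddMonoidHom.toIntLinearMap (e.toAddEquiv : (Fin 20 → ℤ) →+ subL A)
      = A.mulVecLin := by
    ext v : 1
    rfl
  rw [h2] at h1
  have h3 : LinearMap.det A.mulVecLin = A.det := by
    rw [← Matrix.toLin'_apply', LinearMap.det_toLin']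
  rw [h3] at h1
  rw [← h1]
  have := det_posZ h
  omega

theorem finite_quot (h : PosSymm A) : Finite ((Fin 20 → ℤ) ⧸ subL A) := by
  apply Nat.finite_of_card_ne_zero
  have h1 := card_quot h
  have := det_posZ h
  omega

/-- representatives are in bijection with the quotient -/
theorem reps_bij {R : Finset (Fin 20 → ℤ)} (hR : IsReps A R) :
    Function.Bijective (fun ρ : R => (Submodule.Quotient.mk (p := subL A) ρ.1)) := by
  constructor
  · intro ρ ρ' hρ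
    have h1 : (ρ.1 : Fin 20 → ℤ) - ρ'.1 ∈ subL A := (Submodule.Quotient.eq _).1 hρ
    obtain ⟨v, hv⟩ := (mem_subL _).1 h1
    obtain ⟨ρ₀, _, hu⟩ := hR ρ.1
    have e1 := hu ρ.1 ⟨ρ.2, 0, by simp⟩
    have e2 := hu ρ'.1 ⟨ρ'.2, v, by rw [← hv]; abel⟩
    exact Subtype.ext (e1.trans e2.symm)
  · intro q
    obtain ⟨μ, rfl⟩ := Submodule.Quotient.mk_surjective _ q
    obtain ⟨ρ₀, ⟨h1, v, hv⟩, _⟩ := hR μ
    refine ⟨⟨ρ₀, h1⟩, ?_⟩
    simp only
    rw [Submodule.Quotient.eq]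
    exact (mem_subL _).2 ⟨-v, by rw [hv, Matrix.mulVec_neg]; abel⟩

theorem card_reps (h : PosSymm A) {R : Finset (Fin 20 → ℤ)} (hR : IsReps A R) :
    (R.card : ℤ) = A.det := by
  rw [← card_quot h]
  have := Nat.card_congr (Equiv.ofBijective _ (reps_bij hR))
  rw [← this]
  simp

theorem exists_reps (h : PosSymm A) : ∃ R : Finset (Fin 20 → ℤ), IsReps A R := by
  classical
  have := finite_quot h
  have : Fintype ((Fin 20 → ℤ) ⧸ subL A) := Fintype.ofFinite _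
  refine ⟨Finset.univ.image (fun q : (Fin 20 → ℤ) ⧸ subL A => Quotient.out q), fun μ => ?_⟩
  refine ⟨Quotient.out (Submodule.Quotient.mk (p := subL A) μ), ⟨Finset.mem_image_of_mem _
    (Finset.mem_univ _), ?_⟩, ?_⟩
  · have h1 : Submodule.Quotient.mk (p := subL A) μ = Submodule.Quotient.mk (p := subL A)
        (Quotient.out (Submodule.Quotient.mk (p := subL A) μ)) := (Quotient.out_eq' _).symm
    rw [Submodule.Quotient.eq] at h1
    obtain ⟨v, hv⟩ := (mem_subL _).1 h1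
    exact ⟨v, by rw [← hv]; abel⟩
  · rintro ρ ⟨hρ, v, hv⟩
    obtain ⟨q, _, rfl⟩ := Finset.mem_image.1 hρ
    congr 1
    have h1 : Submodule.Quotient.mk (p := subL A) μ = Submodule.Quotient.mk (p := subL A)
        (Quotient.out q) := by
      rw [Submodule.Quotient.eq]
      exact (mem_subL _).2 ⟨v, by rw [hv]; abel⟩
    rw [h1]
    exact (Quotient.out_eq' q).symm

/-- a sum over representatives of an invariant function is invariant under translation -/
theorem sum_shift (h : PosSymm A) {R : Finset (Fin 20 → ℤ)} (hR : IsReps A R)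
    {E : Type*} [AddCommMonoid E] (g : (Fin 20 → ℤ) → E)
    (hg : ∀ μ (v : Fin 20 → ℤ), g (μ + A.mulVec v) = g μ) (κ : Fin 20 → ℤ) :
    ∑ ρ ∈ R, g (ρ + κ) = ∑ ρ ∈ R, g ρ := by
  classical
  choose r hr hu using hR
  refine Finset.sum_bij (fun ρ _ => r (ρ + κ)) (fun ρ _ => (hr _).1) ?_ ?_ ?_
  · intro ρ hρ ρ' hρ' he
    obtain ⟨v, hv⟩ := (hr (ρ + κ)).2
    obtain ⟨v', hv'⟩ := (hr (ρ' + κ)).2
    have h1 : ρ = ρ' + A.mulVec (v - v') := by
      rw [Matrix.mulVec_sub]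
      have : ρ + κ - A.mulVec v = ρ' + κ - A.mulVec v' := by
        rw [hv, hv', he]
        abel
      calc ρ = (ρ + κ - A.mulVec v) + A.mulVec v - κ := by abel
        _ = _ := by rw [this]; abel
    have e1 := hu ρ ρ ⟨hρ, 0, by simp⟩
    have e2 := hu ρ ρ' ⟨hρ', v - v', h1⟩
    exact e1.trans e2.symm
  · intro σ hσ
    obtain ⟨v, hv⟩ := (hr (σ - κ)).2
    refine ⟨r (σ - κ), (hr _).1, ?_⟩
    have e1 := hu (r (σ - κ) + κ) σ ⟨hσ, -v, by
      have : r (σ - κ) = σ - κ - A.mulVec v := by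
        exact eq_sub_of_add_eq hv.symm
      rw [this, Matrix.mulVec_neg]; abel⟩
    exact e1.symm
  · intro ρ hρ
    obtain ⟨v, hv⟩ := (hr (ρ + κ)).2
    have h1 := hg (r (ρ + κ)) v
    rw [← hv] at h1
    exact h1

/-- orthogonality of characters -/
theorem char_sum (h : PosSymm A) {R : Finset (Fin 20 → ℤ)} (hR : IsReps A R) (ν : Fin 20 → ℤ) :
    ((∃ v : Fin 20 → ℤ, ν = A.mulVec v) → ∑ μ ∈ R, ee (-(bd A μ ν : ℂ)) = R.card) ∧
    ((¬ ∃ v : Fin 20 → ℤ, ν = A.mulVec v) → ∑ μ ∈ R, ee (-(bd A μ ν : ℂ)) = 0) := by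
  constructor
  · rintro ⟨v, rfl⟩
    have h1 : ∀ μ ∈ R, ee (-(bd A μ (A.mulVec v) : ℂ)) = 1 := by
      intro μ _
      rw [bd_mulVec_right h]
      have := Y683.RL.ee_int (-(dotProduct μ v))
      push_cast at this ⊢
      exact this
    rw [Finset.sum_congr rfl h1]
    simp
  · intro hne
    have h1 : ∃ κ : Fin 20 → ℤ, ¬ ∃ k : ℤ, bd A κ ν = k := by
      by_contra hcon
      push Not at hcon
      exact hne (mem_of_bd_int h ν hcon)
    obtain ⟨κ, hκ⟩ := h1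
    have h2 := sum_shift h hR (fun μ => ee (-(bd A μ ν : ℂ))) (fun μ v => by
      rw [bd_add_left, bd_mulVec_left h]
      push_cast
      rw [neg_add, Y683.RL.ee_add]
      have := Y683.RL.ee_int (-(dotProduct ν v))
      push_cast at this
      rw [this, mul_one]) κ
    have h3 : ∀ μ : Fin 20 → ℤ, ee (-(bd A (μ + κ) ν : ℂ)) =
        ee (-(bd A κ ν : ℂ)) * ee (-(bd A μ ν : ℂ)) := by
      intro μ
      rw [← Y683.RL.ee_add, bd_add_left]
      congr 1
      push_cast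
      ring
    simp only [h3] at h2
    rw [← Finset.mul_sum] at h2
    have h4 : (ee (-(bd A κ ν : ℂ)) - 1) * ∑ μ ∈ R, ee (-(bd A μ ν : ℂ)) = 0 := by
      linear_combination h2
    rcases mul_eq_zero.1 h4 with h5 | h5
    · exfalso
      apply hκ
      have h6 : ee (-(bd A κ ν : ℂ)) = 1 := by linear_combination h5
      unfold ee at h6
      rw [Complex.exp_eq_one_iff] at h6
      obtain ⟨n, hn⟩ := h6
      refine ⟨-n, ?_⟩
      have hpi : (2 * (Real.pi : ℂ) * Complex.I) ≠ 0 := Complex.two_pi_I_ne_zero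
      have h7 : (-(bd A κ ν : ℂ)) = n := by
        apply mul_left_cancel₀ hpi
        rw [hn]
        ring
      have h8 : ((bd A κ ν : ℝ) : ℂ) = ((-n : ℤ) : ℂ) := by
        push_cast
        linear_combination -h7
      exact_mod_cast h8
    · exact h5

/-- unitarity of the finite Fourier transform -/
theorem unitary (h : PosSymm A) {R : Finset (Fin 20 → ℤ)} (hR : IsReps A R)
    (a : (Fin 20 → ℤ) → ℂ) :
    ∑ μ ∈ R, ‖∑ ρ ∈ R, ee (-(bd A μ ρ : ℂ)) * a ρ‖ ^ 2 = (A.det : ℝ) * ∑ ρ ∈ R, ‖a ρ‖ ^ 2 := by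
  have hconj : ∀ x : ℝ, (starRingEnd ℂ) (ee (-(x : ℂ))) = ee (x : ℂ) := by
    intro x
    unfold ee
    rw [← Complex.exp_conj]
    congr 1
    rw [map_mul, map_mul, map_mul, map_neg, Complex.conj_I, Complex.conj_ofReal, Complex.conj_ofReal,
      map_ofNat]
    ring
  have hcd : (R.card : ℂ) = (((A.det : ℤ) : ℝ) : ℂ) := by
    have := card_reps h hR
    rw [← this]
    simp
  set D : ℝ := ((A.det : ℤ) : ℝ) with hD
  have key : ((∑ μ ∈ R, ‖∑ ρ ∈ R, ee (-(bd A μ ρ : ℂ)) * a ρ‖ ^ 2 : ℝ) : ℂ) =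
      ((D * ∑ ρ ∈ R, ‖a ρ‖ ^ 2 : ℝ) : ℂ) := by
    push_cast
    have h1 : ∀ μ : Fin 20 → ℤ, ((‖∑ ρ ∈ R, ee (-(bd A μ ρ : ℂ)) * a ρ‖ : ℂ)) ^ 2 =
        ∑ ρ ∈ R, ∑ ρ' ∈ R, (a ρ * (starRingEnd ℂ) (a ρ')) * ee (-(bd A μ (ρ - ρ') : ℂ)) := by
      intro μ
      rw [← Complex.mul_conj']
      rw [map_sum, Finset.sum_mul_sum]
      refine Finset.sum_congr rfl fun ρ _ => Finset.sum_congr rfl fun ρ' _ => ?_
      rw [map_mul, hconj, bd_sub_right]
      have : ee (-((bd A μ ρ - bd A μ ρ' : ℝ) : ℂ)) = ee (-(bd A μ ρ : ℂ)) * ee (bd A μ ρ') := by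
        rw [← Y683.RL.ee_add]
        congr 1
        push_cast
        ring
      rw [this]
      ring
    rw [Finset.sum_congr rfl fun μ _ => h1 μ, Finset.sum_comm, Finset.mul_sum]
    refine Finset.sum_congr rfl fun ρ hρ => ?_
    rw [Finset.sum_comm]
    rw [Finset.sum_eq_single ρ]
    · rw [← Finset.mul_sum, (char_sum h hR (ρ - ρ)).1 ⟨0, by simp⟩, Complex.mul_conj']
      rw [hcd]
      ring
    · intro ρ' hρ' hne
      rw [← Finset.mul_sum, (char_sum h hR (ρ - ρ')).2, mul_zero]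
      rintro ⟨v, hv⟩
      apply hne
      obtain ⟨ρ₀, _, hu⟩ := hR ρ
      have e1 := hu ρ ⟨hρ, 0, by simp⟩
      have e2 := hu ρ' ⟨hρ', v, by rw [← hv]; abel⟩
      exact e2.trans e1.symm
    · intro hn
      exact absurd hρ hn
  exact_mod_cast key

theorem jobFinFour : JobFinFour := by
  intro A h
  obtain ⟨R, hR⟩ := exists_reps h
  exact ⟨det_posZ h, R, hR, card_reps h hR, unitary h hR⟩

end

end Pool.Agent.V11282.RL
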