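import Pool.Agent.V11282.RL.VV
import Pool.Agent.Y683.RL.Fou
import Pool.Agent.Y813.RL.Per
import Pool.Agent.V11282.RL.Bd
import Pool.Agent.Y813.RL.Tube5

set_option autoImplicit false

/-!
# The differential equation
-/

namespace Pool.Agent.V11282.RL

open Complex Set Topology Filter Pool.Agent.Y813.RL Pool.Agent.Y683.RL Derivative
open UpperHalfPlane (mk ofComplex ofComplex_apply ofComplex_apply_of_im_pos upperHalfPlaneSet
  isOpen_upperHalfPlaneSet mdifferentiableAt_iff)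
open scoped MatrixGroups UpperHalfPlane Manifold ModularForm

noncomputable section

/-- holomorphic 1-periodic functions on the upper half plane with limit `c` at the cusp -/
structure Cs (c : ℂ) (F : ℍ → ℂ) : Prop where
  md : MDiff F
  per : ∀ z : ℍ, F ((1 : ℝ) +ᵥ z) = F z
  bd : ∃ Y C : ℝ, ∀ z : ℍ, Y ≤ z.im → ‖F z - c‖ ≤ C * Real.exp (-(2 * Real.pi * z.im))

theorem Cs.const (c : ℂ) : Cs c (fun _ => c) :=
  ⟨mdifferentiable_const, fun _ => rfl, 0, 0, fun z _ => by simp⟩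

/-- the constants can be taken nonnegative -/
theorem Cs.bd' {c : ℂ} {F : ℍ → ℂ} (h : Cs c F) : ∃ Y C : ℝ, 0 ≤ Y ∧ 0 ≤ C ∧
    ∀ z : ℍ, Y ≤ z.im → ‖F z - c‖ ≤ C * Real.exp (-(2 * Real.pi * z.im)) := by
  obtain ⟨Y, C, hb⟩ := h.bd
  refine ⟨max Y 0, max C 0, le_max_right _ _, le_max_right _ _, fun z hz => ?_⟩
  refine (hb z ((le_max_left _ _).trans hz)).trans ?_
  exact mul_le_mul_of_nonneg_right (le_max_left _ _) (Real.exp_pos _).le

theorem Cs.add {c d : ℂ} {F G : ℍ → ℂ} (hF : Cs c F) (hG : Cs d G) : Cs (c + d) (F + G) := by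
  obtain ⟨Y1, C1, h1⟩ := hF.bd
  obtain ⟨Y2, C2, h2⟩ := hG.bd
  refine ⟨hF.md.add hG.md, fun z => by simp [hF.per, hG.per], max Y1 Y2, C1 + C2, fun z hz => ?_⟩
  have e : (F + G) z - (c + d) = (F z - c) + (G z - d) := by simp; ring
  rw [e, add_mul]
  exact (norm_add_le _ _).trans (add_le_add (h1 z ((le_max_left _ _).trans hz))
    (h2 z ((le_max_right _ _).trans hz)))

theorem Cs.mul {c d : ℂ} {F G : ℍ → ℂ} (hF : Cs c F) (hG : Cs d G) : Cs (c * d) (F * G) := by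
  obtain ⟨Y1, C1, hY1, hC1, h1⟩ := hF.bd'
  obtain ⟨Y2, C2, hY2, hC2, h2⟩ := hG.bd'
  refine ⟨hF.md.mul hG.md, fun z => by simp [hF.per, hG.per], max Y1 Y2,
    C1 * (C2 + ‖d‖) + ‖c‖ * C2, fun z hz => ?_⟩
  have e : (F * G) z - (c * d) = (F z - c) * ((G z - d) + d) + c * (G z - d) := by simp; ring
  have hz0 := z.im_pos
  have a1 := h1 z ((le_max_left _ _).trans hz)
  have a2 := h2 z ((le_max_right _ _).trans hz)
  set E := Real.exp (-(2 * Real.pi * z.im)) with hE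
  have hE0 : 0 < E := Real.exp_pos _
  have hE1 : E ≤ 1 := by
    rw [hE, Real.exp_le_one_iff]
    have := Real.pi_pos
    nlinarith [mul_pos this hz0]
  have a3 : ‖(G z - d) + d‖ ≤ C2 + ‖d‖ := by
    refine (norm_add_le _ _).trans (add_le_add (a2.trans ?_) le_rfl)
    nlinarith
  rw [e]
  calc ‖(F z - c) * ((G z - d) + d) + c * (G z - d)‖
      ≤ ‖F z - c‖ * ‖(G z - d) + d‖ + ‖c‖ * ‖G z - d‖ := by
        refine (norm_add_le _ _).trans ?_
        rw [norm_mul, norm_mul]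
    _ ≤ (C1 * E) * (C2 + ‖d‖) + ‖c‖ * (C2 * E) := by
        gcongr
    _ = _ := by ring

theorem Cs.smul {c : ℂ} {F : ℍ → ℂ} (hF : Cs c F) (a : ℂ) : Cs (a * c) (fun z => a * F z) :=
  (Cs.const a).mul hF

/-- the derivative of `F ∘ ofComplex` is bounded by the bound on `F - c` on the disc of radius 1/2 -/
theorem Cs.D {c : ℂ} {F : ℍ → ℂ} (hF : Cs c F) : Cs 0 (normalizedDerivOfComplex F) := by
  obtain ⟨Y, C, hY, hC, h⟩ := hF.bd'
  refine ⟨normalizedDerivOfComplex_mdifferentiable hF.md, fun z => ?_, Y + 1,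
    ‖(2 * Real.pi * Complex.I : ℂ)⁻¹‖ * (C * Real.exp Real.pi * 2), fun z hz => ?_⟩
  · unfold normalizedDerivOfComplex
    congr 1
    have e1 : (((1 : ℝ) +ᵥ z : ℍ) : ℂ) = (z : ℂ) + 1 := by simp [add_comm]
    rw [e1, ← deriv_comp_add_const (F ∘ ofComplex) 1 (z : ℂ)]
    apply Filter.EventuallyEq.deriv_eq
    filter_upwards [isOpen_upperHalfPlaneSet.mem_nhds z.im_pos] with w hw
    have hw' : 0 < w.im := hw
    have hw1 : 0 < (w + 1).im := by simpa using hw'
    rw [Function.comp_apply, Function.comp_apply, ofComplex_apply_of_im_pos hw',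
      ofComplex_apply_of_im_pos hw1, ← hF.per ⟨w, hw'⟩]
    congr 1
    ext1
    simp [add_comm]
  · rw [sub_zero]
    unfold normalizedDerivOfComplex
    rw [norm_mul]
    suffices hs : ‖deriv (F ∘ ofComplex) (z : ℂ)‖ ≤
        C * Real.exp Real.pi * 2 * Real.exp (-(2 * Real.pi * z.im)) by
      refine (mul_le_mul_of_nonneg_left hs (norm_nonneg _)).trans (le_of_eq ?_)
      ring
    have him : ∀ w ∈ Metric.closedBall (z : ℂ) (1 / 2), z.im - 1 / 2 ≤ w.im := by
      intro w hw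
      have h1 : |(w - (z : ℂ)).im| ≤ ‖w - (z : ℂ)‖ := Complex.abs_im_le_norm _
      have h2 : ‖w - (z : ℂ)‖ ≤ 1 / 2 := by simpa [dist_eq_norm] using hw
      have h3 : (w - (z : ℂ)).im = w.im - z.im := by simp
      rw [h3] at h1
      have := (abs_le.1 (h1.trans h2)).1
      linarith
    have hd : ∀ w ∈ Metric.closedBall (z : ℂ) (1 / 2), 0 < w.im := fun w hw => by
      have := him w hw
      linarith
    have e2 : deriv (F ∘ ofComplex) (z : ℂ) = deriv (fun w => (F ∘ ofComplex) w - c) (z : ℂ) := by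
      rw [deriv_sub_const_fun]
    rw [e2]
    have h3 := Complex.norm_deriv_le_of_forall_mem_sphere_norm_le (c := (z : ℂ)) (R := 1 / 2)
      (C := C * Real.exp Real.pi * Real.exp (-(2 * Real.pi * z.im)))
      (f := fun w => (F ∘ ofComplex) w - c) (by norm_num) ?_ ?_
    · refine h3.trans (le_of_eq ?_)
      ring
    · refine DifferentiableOn.diffContOnCl ?_
      intro w hw
      have hw0 : 0 < w.im := hd w (Metric.closure_ball_subset_closedBall hw)
      have h4 := mdifferentiableAt_iff.mp (hF.md ⟨w, hw0⟩)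
      exact (h4.sub_const c).differentiableWithinAt
    · intro w hw
      have hw1 := Metric.sphere_subset_closedBall hw
      have hw0 := hd w hw1
      have h5 := h ⟨w, hw0⟩ (by show Y ≤ w.im; linarith [him w hw1])
      show ‖F (ofComplex w) - c‖ ≤ _
      rw [ofComplex_apply_of_im_pos hw0]
      refine h5.trans ?_
      rw [mul_assoc C, ← Real.exp_add]
      refine mul_le_mul_of_nonneg_left (Real.exp_le_exp.2 ?_) hC
      have h6 : z.im - 1 / 2 ≤ w.im := him w hw1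
      show -(2 * Real.pi * w.im) ≤ _
      nlinarith [Real.pi_pos]

/-- the differential operator of order two -/
def Lop (F : ℍ → ℂ) : ℍ → ℂ :=
  serreDerivative ((-8 : ℤ) : ℂ) (serreDerivative ((-10 : ℤ) : ℂ) F) -
    (1 / 18 : ℂ) • ((ModularForm.E₄ : ℍ → ℂ) * F)

theorem E4_slash (γ : SL(2, ℤ)) :
    (ModularForm.E₄ : ℍ → ℂ) ∣[(4 : ℤ)] γ = (ModularForm.E₄ : ℍ → ℂ) :=
  SlashInvariantFormClass.slash_action_eq ModularForm.E₄ _ ⟨γ, rfl⟩

theorem Lop_slash {F : ℍ → ℂ} (hF : MDiff F) (γ : SL(2, ℤ)) :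
    Lop F ∣[(-6 : ℤ)] γ = Lop (F ∣[(-10 : ℤ)] γ) := by
  unfold Lop
  have h1 := serreDerivative_slash_equivariant (k := -8) (γ := γ)
    (serreDerivative_mdifferentiable ((-10 : ℤ) : ℂ) hF)
  have h2 := serreDerivative_slash_equivariant (k := -10) (γ := γ) hF
  have h3 := ModularForm.mul_slash_SL2 4 (-10) γ (ModularForm.E₄ : ℍ → ℂ) F
  norm_num at h1 h2 h3
  rw [E4_slash] at h3
  norm_num
  rw [sub_eq_add_neg, SlashAction.add_slash, SlashAction.neg_slash, ModularForm.SL_smul_slash,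
    h3, h1, h2, sub_eq_add_neg]

theorem Lop_md {F : ℍ → ℂ} (hF : MDiff F) : MDiff (Lop F) :=
  (serreDerivative_mdifferentiable _ (serreDerivative_mdifferentiable _ hF)).sub
    ((mdifferentiable_const (c := (1 / 18 : ℂ))).mul
      ((ModularFormClass.holo ModularForm.E₄).mul hF))

theorem Lop_add {F G : ℍ → ℂ} (hF : MDiff F) (hG : MDiff G) : Lop (F + G) = Lop F + Lop G := by
  unfold Lop
  rw [serreDerivative_add _ _ _ hF hG, serreDerivative_add _ _ _
    (serreDerivative_mdifferentiable _ hF) (serreDerivative_mdifferentiable _ hG), mul_add,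
    smul_add]
  abel

theorem Lop_smul {F : ℍ → ℂ} (c : ℂ) (hF : MDiff F) : Lop (c • F) = c • Lop F := by
  unfold Lop
  rw [serreDerivative_smul _ _ _ hF, serreDerivative_smul _ _ _
    (serreDerivative_mdifferentiable _ hF), mul_smul_comm, smul_sub, smul_comm c (1 / 18 : ℂ)]

theorem Lop_zero : Lop 0 = 0 := by
  have h := Lop_smul (F := fun _ => (0 : ℂ)) 0 mdifferentiable_const
  simpa using h

theorem md_sum {ι : Type*} (s : Finset ι) (F : ι → ℍ → ℂ) (hF : ∀ i, MDiff (F i)) :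
    MDiff (∑ i ∈ s, F i) := by
  classical
  induction s using Finset.induction_on with
  | empty => exact (mdifferentiable_const (c := (0 : ℂ)))
  | insert a s ha ih =>
    rw [Finset.sum_insert ha]
    exact (hF a).add ih

theorem Lop_sum {ι : Type*} (s : Finset ι) (F : ι → ℍ → ℂ) (hF : ∀ i, MDiff (F i)) :
    Lop (∑ i ∈ s, F i) = ∑ i ∈ s, Lop (F i) := by
  classical
  induction s using Finset.induction_on with
  | empty => simpa using Lop_zero
  | insert a s ha ih =>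
    rw [Finset.sum_insert ha, Finset.sum_insert ha, Lop_add (hF a) (md_sum s F hF), ih]

/-- exponential factors -/
def wf (e : ℂ) : ℍ → ℂ := fun z => ee (e * z)

theorem ee_hasDerivAt (e w : ℂ) :
    HasDerivAt (fun w : ℂ => ee (e * w)) (ee (e * w) * (2 * Real.pi * Complex.I * e)) w := by
  unfold ee
  have h1 : HasDerivAt (fun w : ℂ => 2 * Real.pi * Complex.I * (e * w))
      (2 * Real.pi * Complex.I * e) w := by
    have := ((hasDerivAt_id w).const_mul e).const_mul (2 * Real.pi * Complex.I)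
    simpa using this
  exact h1.cexp

theorem wf_md (e : ℂ) : MDiff (wf e) := by
  rw [UpperHalfPlane.mdifferentiable_iff]
  refine DifferentiableOn.congr (f := fun w => ee (e * w)) ?_ ?_
  · exact (ee_diff.comp (differentiable_id.const_mul e)).differentiableOn
  · intro w hw
    show ee (e * (ofComplex w : ℂ)) = _
    rw [ofComplex_apply_of_im_pos hw]

theorem D_wf (e : ℂ) : normalizedDerivOfComplex (wf e) = e • wf e := by
  ext z
  unfold normalizedDerivOfComplex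
  have h1 : deriv (wf e ∘ ofComplex) (z : ℂ) = ee (e * z) * (2 * Real.pi * Complex.I * e) := by
    have h2 : (wf e ∘ ofComplex) =ᶠ[𝓝 (z : ℂ)] fun w => ee (e * w) := by
      filter_upwards [isOpen_upperHalfPlaneSet.mem_nhds z.im_pos] with w hw
      show ee (e * (ofComplex w : ℂ)) = _
      rw [ofComplex_apply_of_im_pos hw]
    rw [h2.deriv_eq]
    exact (ee_hasDerivAt e z).deriv
  rw [h1]
  have hpi : (Real.pi : ℂ) ≠ 0 := by exact_mod_cast Real.pi_ne_zero
  simp only [Pi.smul_apply, smul_eq_mul, wf]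
  field_simp

/-- conjugated Serre derivative -/
def Ts (k e : ℂ) (H : ℍ → ℂ) : ℍ → ℂ := fun z => e * H z + serreDerivative k H z

theorem Ts_md (k e : ℂ) {H : ℍ → ℂ} (hH : MDiff H) : MDiff (Ts k e H) :=
  ((mdifferentiable_const (c := e)).mul hH).add (serreDerivative_mdifferentiable _ hH)

theorem serre_wf (k e : ℂ) {H : ℍ → ℂ} (hH : MDiff H) :
    serreDerivative k (wf e * H) = wf e * Ts k e H := by
  ext z
  rw [serreDerivative_apply, normalizedDerivOfComplex_mul _ _ (wf_md e) hH, D_wf]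
  simp only [Pi.add_apply, Pi.mul_apply, Pi.smul_apply, smul_eq_mul, Ts, serreDerivative_apply]
  ring

/-- conjugated operator -/
def Bra (e : ℂ) (H : ℍ → ℂ) : ℍ → ℂ :=
  Ts ((-8 : ℤ) : ℂ) e (Ts ((-10 : ℤ) : ℂ) e H) - (1 / 18 : ℂ) • ((ModularForm.E₄ : ℍ → ℂ) * H)

theorem Lop_wf (e : ℂ) {H : ℍ → ℂ} (hH : MDiff H) : Lop (wf e * H) = wf e * Bra e H := by
  unfold Lop Bra
  rw [serre_wf _ _ hH, serre_wf _ _ (Ts_md _ _ hH)]
  ext z
  simp only [Pi.sub_apply, Pi.mul_apply, Pi.smul_apply, smul_eq_mul]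
  ring

/-- a function given by a `q`-expansion -/
theorem Cs.of_hasSum {F : ℍ → ℂ} (hF : MDiff F) (c : ℕ → ℂ)
    (h : ∀ z : ℍ, HasSum (fun n => c n * ee z ^ n) (F z)) : Cs (c 0) F := by
  refine ⟨hF, fun z => ?_, 1, ∑' n : ℕ, ‖c (n + 1)‖ * ‖ee Complex.I‖ ^ n, fun z hz => ?_⟩
  · have h1 := h ((1 : ℝ) +ᵥ z)
    have e1 : ee (((1 : ℝ) +ᵥ z : ℍ) : ℂ) = ee z := by
      have : (((1 : ℝ) +ᵥ z : ℍ) : ℂ) = ((1 : ℤ) : ℂ) + z := by simp
      rw [this, Y683.RL.ee_add, Y683.RL.ee_int, one_mul]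
    rw [e1] at h1
    exact h1.unique (h z)
  · have h1 := h z
    have h2 : HasSum (fun n => c (n + 1) * ee z ^ (n + 1)) (F z - c 0) := by
      have := (hasSum_nat_add_iff' 1).2 h1
      simpa using this
    have hi := (h UpperHalfPlane.I).summable
    have hi2 : Summable (fun n : ℕ => ‖c (n + 1)‖ * ‖ee Complex.I‖ ^ n) := by
      have h3 := ((summable_nat_add_iff 1).2 hi).norm
      have hne : ‖ee Complex.I‖ ≠ 0 := by simpa using ee_ne _
      have h4 := h3.mul_right (‖ee Complex.I‖)⁻¹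
      refine h4.congr fun n => ?_
      rw [norm_mul, norm_pow, pow_succ]
      simp only [UpperHalfPlane.coe_I]
      field_simp
    have hz1 : ‖ee z‖ ≤ ‖ee Complex.I‖ := by
      rw [ee_norm, ee_norm, Real.exp_le_exp]
      have : (1 : ℝ) ≤ (z : ℂ).im := hz
      simp only [Complex.I_im]
      nlinarith [Real.pi_pos]
    rw [← h2.tsum_eq]
    have h5 : ∀ n, ‖c (n + 1) * ee z ^ (n + 1)‖ ≤ (‖c (n + 1)‖ * ‖ee Complex.I‖ ^ n) * ‖ee z‖ := by
      intro n
      rw [norm_mul, norm_pow, pow_succ, ← mul_assoc]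
      gcongr
    have h6 := tsum_of_norm_bounded ((hi2.mul_right ‖ee z‖).hasSum) h5
    rw [tsum_mul_right] at h6
    refine h6.trans (le_of_eq ?_)
    rw [ee_norm z]
    rfl

theorem Cs_E2 : Cs 1 EisensteinSeries.E2 := by
  have h := Cs.of_hasSum (F := EisensteinSeries.E2) E2_mdifferentiable
    (fun m => if m = 0 then 1 else -24 * (ArithmeticFunction.sigma 1 m : ℂ)) (fun z => by
      have := EisensteinSeries.hasSum_qExpansion_E2 (z := z)
      simpa [ee] using this)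
  simpa using h

theorem Cs_E4 : Cs 1 (ModularForm.E₄ : ℍ → ℂ) := by
  have hper := SlashInvariantFormClass.periodic_comp_ofComplex (f := ModularForm.E₄)
    (h := 1) one_mem_strictPeriods_SL
  have hh := UpperHalfPlane.hasSum_qExpansion (f := (ModularForm.E₄ : ℍ → ℂ)) one_pos
    hper (ModularFormClass.holo ModularForm.E₄) (ModularFormClass.bdd_at_infty ModularForm.E₄)
  have h := Cs.of_hasSum (F := (ModularForm.E₄ : ℍ → ℂ)) (ModularFormClass.holo ModularForm.E₄)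
    _ (fun z => by
      have := hh z
      simpa [ee, Function.Periodic.qParam] using this)
  rw [EisensteinSeries.E_qExpansion_coeff_zero _ (by decide)] at h
  exact h

theorem Ts_Cs {c e k : ℂ} {H : ℍ → ℂ} (h : Cs c H) : Cs ((e - k / 12) * c) (Ts k e H) := by
  have h1 := (h.smul e).add (h.D.add ((Cs_E2.mul h).smul (-(k * 12⁻¹))))
  have e1 : (e - k / 12) * c = e * c + (0 + -(k * 12⁻¹) * (1 * c)) := by ring
  have e2 : Ts k e H = (fun z => e * H z) + (normalizedDerivOfComplex H +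
      fun z => -(k * 12⁻¹) * (EisensteinSeries.E2 * H) z) := by
    ext z
    simp only [Ts, serreDerivative_apply, Pi.add_apply, Pi.mul_apply]
    ring
  rw [e1, e2]
  exact h1

theorem Bra_Cs {c e : ℂ} {H : ℍ → ℂ} (h : Cs c H) :
    Cs ((e + 1) * (e + 1 / 2) * c) (Bra e H) := by
  have h1 := (Ts_Cs (e := e) (k := ((-8 : ℤ) : ℂ)) (Ts_Cs (e := e) (k := ((-10 : ℤ) : ℂ)) h)).add
    ((Cs_E4.mul h).smul (-(1 / 18)))
  have e1 : (e + 1) * (e + 1 / 2) * c = (e - ((-8 : ℤ) : ℂ) / 12) *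
      ((e - ((-10 : ℤ) : ℂ) / 12) * c) + (-(1 / 18)) * (1 * c) := by push_cast; ring
  have e2 : Bra e H = Ts ((-8 : ℤ) : ℂ) e (Ts ((-10 : ℤ) : ℂ) e H) +
      fun z => (-(1 / 18)) * ((ModularForm.E₄ : ℍ → ℂ) * H) z := by
    ext z
    simp only [Bra, Pi.add_apply, Pi.sub_apply, Pi.smul_apply, smul_eq_mul]
    ring
  rw [e1, e2]
  exact h1

/-- vanishing of the Fourier coefficients from growth, bound on a smaller half plane -/
theorem fco_zero' {f : ℂ → ℂ} (hf : HP 0 f) {Y M a : ℝ}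
    (hM : ∀ t : ℂ, Y ≤ t.im → ‖f t‖ ≤ M * Real.exp (a * t.im)) {n : ℤ}
    (hn : 2 * Real.pi * n + a < 0) : fco 0 f n = 0 := by
  rw [hf.fco_eq n (w := Complex.I) (by simp)]
  refine HP_line_zero (f := fun t => f t * ee (-(n * t))) (hf.mul_ee n) ?_ (by simp)
  intro ε hε
  have ht : Filter.Tendsto (fun T : ℝ => |M| * Real.exp ((2 * Real.pi * n + a) * T)) Filter.atTop
      (𝓝 (|M| * 0)) := by
    refine Filter.Tendsto.const_mul _ ?_
    refine Real.tendsto_exp_atBot.comp ?_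
    exact Filter.Tendsto.const_mul_atTop_of_neg hn Filter.tendsto_id
  rw [mul_zero] at ht
  obtain ⟨T, hT⟩ := Filter.eventually_atTop.1 (ht.eventually (gt_mem_nhds hε))
  refine ⟨max T Y, fun t htm => ?_⟩
  have h1 : T ≤ t.im := (le_max_left _ _).trans htm
  have h2 : Y ≤ t.im := (le_max_right _ _).trans htm
  rw [norm_mul, ee_norm]
  have e1 : (-((n : ℂ) * t)).im = -(n * t.im) := by
    rw [Complex.neg_im, Complex.mul_im]; simp
  rw [e1]
  calc ‖f t‖ * Real.exp (-(2 * Real.pi * -(n * t.im))) ≤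
      |M| * Real.exp (a * t.im) * Real.exp (-(2 * Real.pi * -(n * t.im))) := by
        gcongr
        refine (hM t h2).trans ?_
        gcongr
        exact le_abs_self _
    _ = |M| * Real.exp ((2 * Real.pi * n + a) * t.im) := by
        rw [mul_assoc, ← Real.exp_add]
        congr 2
        ring
    _ ≤ ε := (hT _ h1).le

theorem ee_real_norm (α : ℝ) (t : ℂ) : ‖ee (α * t)‖ = Real.exp (-(2 * Real.pi * α * t.im)) := by
  rw [ee_norm]
  congr 1
  simp
  ring

theorem ee_real_norm' (α : ℝ) (t : ℂ) : ‖ee (-(α * t))‖ = Real.exp (2 * Real.pi * α * t.im) := by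
  rw [ee_norm]
  congr 1
  simp
  ring

/-- untwisting -/
theorem untwist {f : ℂ → ℂ} {α : ℝ} (hf : DifferentiableOn ℂ f {τ | 0 < τ.im})
    (hT : ∀ τ : ℂ, 0 < τ.im → f (τ + 1) = ee (-(α : ℂ)) * f τ) :
    HP 0 (fun t => ee (α * t) * f t) where
  holo := by
    refine DifferentiableOn.mul ?_ hf
    exact (ee_diff.comp (differentiable_id.const_mul (α : ℂ))).differentiableOn
  per t ht := by
    rw [hT t ht, mul_add, mul_one, Y683.RL.ee_add]
    have := ee_neg_mul (α : ℂ)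
    linear_combination (ee (α * t) * f t) * this

/-- a growth bound near the cusp extends -/
theorem growth_ext {f : ℂ → ℂ} {α κ Y C : ℝ} (hf : DifferentiableOn ℂ f {τ | 0 < τ.im})
    (hT : ∀ τ : ℂ, 0 < τ.im → f (τ + 1) = ee (-(α : ℂ)) * f τ)
    (hg : ∀ τ : ℂ, Y ≤ τ.im → ‖f τ‖ ≤ C * Real.exp (-(2 * Real.pi * κ * τ.im))) :
    ∃ C : ℝ, ∀ τ : ℂ, 1 / 2 ≤ τ.im → ‖f τ‖ ≤ C * Real.exp (-(2 * Real.pi * κ * τ.im)) := by
  have hp := untwist hf hT
  have hpi := Real.pi_pos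
  have h1 : ∀ n : ℤ, (n : ℝ) < κ + α → fco 0 (fun t => ee (α * t) * f t) n = 0 := by
    intro n hn
    refine fco_zero' hp (Y := Y) (M := C) (a := -(2 * Real.pi * (κ + α))) (fun t ht => ?_) ?_
    · rw [norm_mul, ee_real_norm]
      calc Real.exp (-(2 * Real.pi * α * t.im)) * ‖f t‖
          ≤ Real.exp (-(2 * Real.pi * α * t.im)) * (C * Real.exp (-(2 * Real.pi * κ * t.im))) := by
            gcongr
            exact hg t ht
        _ = C * (Real.exp (-(2 * Real.pi * α * t.im)) * Real.exp (-(2 * Real.pi * κ * t.im))) := by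
            ring
        _ = _ := by
            rw [← Real.exp_add]
            congr 2
            ring
    · nlinarith
  obtain ⟨C', hC', h2⟩ := per_growth hp h1
  refine ⟨C', fun τ hτ => ?_⟩
  have h3 := h2 τ hτ
  rw [norm_mul, ee_real_norm] at h3
  have h4 : ‖f τ‖ = Real.exp (2 * Real.pi * α * τ.im) *
      (Real.exp (-(2 * Real.pi * α * τ.im)) * ‖f τ‖) := by
    rw [← mul_assoc, ← Real.exp_add]
    simp
  rw [h4]
  calc _ ≤ Real.exp (2 * Real.pi * α * τ.im) *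
        (C' * Real.exp (-(2 * Real.pi * (κ + α) * τ.im))) := by gcongr
    _ = C' * (Real.exp (2 * Real.pi * α * τ.im) *
        Real.exp (-(2 * Real.pi * (κ + α) * τ.im))) := by ring
    _ = _ := by
        rw [← Real.exp_add]
        congr 2
        ring

/-- the leading term -/
theorem lead {f : ℂ → ℂ} {α κ C : ℝ} (hf : DifferentiableOn ℂ f {τ | 0 < τ.im})
    (hT : ∀ τ : ℂ, 0 < τ.im → f (τ + 1) = ee (-(α : ℂ)) * f τ)
    (hg : ∀ τ : ℂ, 1 / 2 ≤ τ.im → ‖f τ‖ ≤ C * Real.exp (2 * Real.pi * κ * τ.im)) :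
    ∃ (n : ℤ) (c : ℂ) (H : ℍ → ℂ), Cs c H ∧ (fun z : ℍ => f z) = wf ((((n : ℝ) - α : ℝ) : ℂ)) * H ∧
      -κ ≤ (n : ℝ) - α ∧ (c = 0 → ∀ τ : ℂ, 0 < τ.im → f τ = 0) := by
  have hp := untwist hf hT
  have hpi := Real.pi_pos
  have hee : ∀ t : ℂ, f t = ee (-(α * t)) * (ee (α * t) * f t) := fun t => by
    rw [← mul_assoc, ee_neg_mul, one_mul]
  set g : ℂ → ℂ := fun t => ee (α * t) * f t with hgdef
  have hlow : ∀ n : ℤ, fco 0 g n ≠ 0 → α - κ ≤ n := by
    intro n hn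
    by_contra hlt
    push Not at hlt
    apply hn
    refine fco_zero' hp (Y := 1 / 2) (M := C) (a := 2 * Real.pi * (κ - α)) (fun t ht => ?_) ?_
    · rw [norm_mul, ee_real_norm]
      calc Real.exp (-(2 * Real.pi * α * t.im)) * ‖f t‖
          ≤ Real.exp (-(2 * Real.pi * α * t.im)) * (C * Real.exp (2 * Real.pi * κ * t.im)) := by
            gcongr
            exact hg t ht
        _ = C * (Real.exp (-(2 * Real.pi * α * t.im)) * Real.exp (2 * Real.pi * κ * t.im)) := by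
            ring
        _ = _ := by
            rw [← Real.exp_add]
            congr 2
            ring
    · nlinarith
  by_cases hz : ∀ n : ℤ, fco 0 g n = 0
  · have hf0 : ∀ τ : ℂ, 0 < τ.im → f τ = 0 := by
      intro τ hτ
      have := (hp.hasSum hτ).2
      simp only [hz, zero_mul] at this
      have h0 : g τ = 0 := this.unique hasSum_zero
      rw [hee τ]
      show _ * g τ = 0
      rw [h0, mul_zero]
    refine ⟨⌈α - κ⌉, 0, fun _ => 0, Cs.const 0, ?_, ?_, fun _ => hf0⟩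
    · ext z
      simp [hf0 z z.im_pos]
    · have := Int.le_ceil (α - κ)
      linarith
  · push Not at hz
    obtain ⟨n₀, hn₀, hmin⟩ := Int.exists_least_of_bdd (P := fun n => fco 0 g n ≠ 0)
      ⟨⌈α - κ⌉, fun n hn => Int.ceil_le.2 (hlow n hn)⟩ hz
    have hh := hp.mul_ee n₀
    have hfc : ∀ n : ℤ, fco 0 (fun t => g t * ee (-(n₀ * t))) n = fco 0 g (n + n₀) := by
      intro n
      unfold fco
      refine intervalIntegral.integral_congr fun x _ => ?_
      simp only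
      rw [mul_assoc, ← Y683.RL.ee_add]
      congr 2
      push_cast
      ring
    set h : ℂ → ℂ := fun t => g t * ee (-(n₀ * t)) with hhdef
    obtain ⟨C', hC', hb⟩ := part_bound hh (g := fun n => if n = 0 then 0 else fco 0 h n)
      (n₁ := 1) (fun n => by
        by_cases hn : n = 0
        · simp [hn]
        · simp [hn]) (fun n hn => by
        by_cases hn0 : n = 0
        · simp [hn0]
        · simp only [hn0, if_false]
          rw [hfc]
          by_contra hne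
          have h1 := hmin _ hne
          have h2 : n < 1 := by exact_mod_cast hn
          omega)
    refine ⟨n₀, fco 0 g n₀, fun z => h z, ⟨?_, ?_, 1 / 2, C', ?_⟩, ?_, ?_, fun hc => absurd hc hn₀⟩
    · rw [UpperHalfPlane.mdifferentiable_iff]
      refine hh.holo.congr fun w hw => ?_
      show h (ofComplex w : ℂ) = h w
      rw [ofComplex_apply_of_im_pos hw]
    · intro z
      have := hh.per z z.im_pos
      rw [← this]
      congr 1
      simp [add_comm]
    · intro z hz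
      have h1 := (hh.hasSum (t := (z : ℂ)) z.im_pos).2
      have h2 := hb z hz (h z - fco 0 g n₀) (by
        have h3 := h1.sub (hasSum_ite_eq (0 : ℤ) (fco 0 g n₀))
        have h6 : (fun n : ℤ => (if n = 0 then 0 else fco 0 h n) * ee (n * (z : ℂ))) =
            fun b : ℤ => fco 0 h b * ee (b * (z : ℂ)) - if b = 0 then fco 0 g n₀ else 0 := by
          funext n
          by_cases hn : n = 0
          · subst hn
            have h4 := hfc 0
            rw [zero_add] at h4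
            simp [h4, Y683.RL.ee_zero]
          · simp [hn]
        rw [h6]
        exact h3)
      simpa using h2
    · ext z
      simp only [Pi.mul_apply, wf, hhdef, hgdef]
      have h5 : ee ((((n₀ : ℝ) - α : ℝ) : ℂ) * z) * ee (α * z) * ee (-(n₀ * z)) = 1 := by
        rw [← Y683.RL.ee_add, ← Y683.RL.ee_add, ← Y683.RL.ee_zero]
        congr 1
        push_cast
        ring
      linear_combination (-f z) * h5
    · have := hlow n₀ hn₀
      linarith

/-- growth of the image of the operator -/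
theorem Lop_growth {f : ℂ → ℂ} {α κ C : ℝ} (hf : DifferentiableOn ℂ f {τ | 0 < τ.im})
    (hT : ∀ τ : ℂ, 0 < τ.im → f (τ + 1) = ee (-(α : ℂ)) * f τ)
    (hg : ∀ τ : ℂ, 1 / 2 ≤ τ.im → ‖f τ‖ ≤ C * Real.exp (2 * Real.pi * κ * τ.im)) :
    ∃ (n : ℤ) (c : ℂ) (G : ℍ → ℂ), -κ ≤ (n : ℝ) - α ∧ (c = 0 → ∀ τ : ℂ, 0 < τ.im → f τ = 0) ∧
      Cs (((((n : ℝ) - α : ℝ) : ℂ) + 1) * ((((n : ℝ) - α : ℝ) : ℂ) + 1 / 2) * c) G ∧
      Lop (fun z : ℍ => f z) = wf ((((n : ℝ) - α : ℝ) : ℂ)) * G := by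
  obtain ⟨n, c, H, hH, hF, hn, hc⟩ := lead hf hT hg
  refine ⟨n, c, Bra (((n : ℝ) - α : ℝ) : ℂ) H, hn, hc, Bra_Cs hH, ?_⟩
  rw [hF, Lop_wf _ hH.md]

theorem wf_norm (e : ℝ) (z : ℍ) : ‖wf (e : ℂ) z‖ = Real.exp (-(2 * Real.pi * e * z.im)) := by
  unfold wf
  rw [ee_real_norm]
  rfl

theorem Cs_growth {c : ℂ} {e κ₀ : ℝ} {G : ℍ → ℂ} (hG : Cs c G)
    (h0 : κ₀ < e + 1) (h1 : c = 0 ∨ κ₀ < e) :
    ∃ κ Y C : ℝ, κ₀ < κ ∧ ∀ z : ℍ, Y ≤ z.im →
      ‖(wf (e : ℂ) * G) z‖ ≤ C * Real.exp (-(2 * Real.pi * κ * z.im)) := by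
  obtain ⟨Y, C, hY, hC, hb⟩ := hG.bd'
  rcases h1 with rfl | h1
  · refine ⟨e + 1, Y, C, h0, fun z hz => ?_⟩
    have h2 := hb z hz
    rw [sub_zero] at h2
    rw [Pi.mul_apply, norm_mul, wf_norm]
    calc _ ≤ Real.exp (-(2 * Real.pi * e * z.im)) * (C * Real.exp (-(2 * Real.pi * z.im))) := by
          gcongr
      _ = C * (Real.exp (-(2 * Real.pi * e * z.im)) * Real.exp (-(2 * Real.pi * z.im))) := by ring
      _ = _ := by
          rw [← Real.exp_add]
          congr 2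
          ring
  · refine ⟨e, Y, C + ‖c‖, h1, fun z hz => ?_⟩
    have h2 := hb z hz
    have h3 : ‖G z‖ ≤ C + ‖c‖ := by
      have e1 : G z = (G z - c) + c := by ring
      rw [e1]
      refine (norm_add_le _ _).trans (add_le_add (h2.trans ?_) le_rfl)
      have : Real.exp (-(2 * Real.pi * z.im)) ≤ 1 := by
        rw [Real.exp_le_one_iff]
        have := Real.pi_pos
        nlinarith [mul_pos this z.im_pos]
      nlinarith
    rw [Pi.mul_apply, norm_mul, wf_norm, mul_comm]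
    gcongr

theorem md_of_holo {f : ℂ → ℂ} (hf : DifferentiableOn ℂ f {τ | 0 < τ.im}) :
    MDiff (fun z : ℍ => f z) := by
  rw [UpperHalfPlane.mdifferentiable_iff]
  refine DifferentiableOn.congr hf ?_
  intro w hw
  show f (ofComplex w : ℂ) = f w
  rw [ofComplex_apply_of_im_pos hw]

/-- slash by `T`, pointwise -/
theorem slash_T (k : ℤ) (F : ℍ → ℂ) (z : ℍ) : (F ∣[k] ModularGroup.T) z = F ((1 : ℝ) +ᵥ z) := by
  rw [ModularForm.SL_slash_apply, UpperHalfPlane.denom, UpperHalfPlane.modular_T_smul,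
    ModularGroup.T]
  simp

/-- slash by `S`, pointwise -/
theorem slash_S (k : ℤ) (F : ℍ → ℂ) (z : ℍ) :
    (F ∣[k] ModularGroup.S) z = F (mk (-(z : ℂ))⁻¹ z.im_inv_neg_coe_pos) * (z : ℂ) ^ (-k) := by
  rw [ModularForm.SL_slash_apply, UpperHalfPlane.modular_S_smul]
  simp [UpperHalfPlane.denom, ModularGroup.S]

/-- the operator applied to a function on `ℂ` -/
def Lc (f : ℂ → ℂ) : ℂ → ℂ := fun τ => Lop (fun z : ℍ => f z) (ofComplex τ)

theorem Lc_coe (f : ℂ → ℂ) (z : ℍ) : Lc f z = Lop (fun z : ℍ => f z) z := by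
  unfold Lc
  rw [ofComplex_apply]

theorem Lc_holo {f : ℂ → ℂ} (hf : DifferentiableOn ℂ f {τ | 0 < τ.im}) :
    DifferentiableOn ℂ (Lc f) {τ | 0 < τ.im} :=
  UpperHalfPlane.mdifferentiable_iff.1 (Lop_md (md_of_holo hf))

theorem Lc_T {f : ℂ → ℂ} {a : ℂ} (hf : DifferentiableOn ℂ f {τ | 0 < τ.im})
    (hT : ∀ τ : ℂ, 0 < τ.im → f (τ + 1) = a * f τ) :
    ∀ τ : ℂ, 0 < τ.im → Lc f (τ + 1) = a * Lc f τ := by
  intro τ hτ
  have h1 := Lop_slash (md_of_holo hf) ModularGroup.T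
  have h2 : (fun z : ℍ => f z) ∣[(-10 : ℤ)] ModularGroup.T = a • (fun z : ℍ => f z) := by
    ext z
    rw [slash_T]
    have := hT z z.im_pos
    simp only [Pi.smul_apply, smul_eq_mul]
    rw [← this]
    congr 1
    simp [add_comm]
  rw [h2, Lop_smul _ (md_of_holo hf)] at h1
  have h3 := congrFun h1 ⟨τ, hτ⟩
  rw [slash_T] at h3
  have e1 : Lc f (τ + 1) = Lop (fun z : ℍ => f z) ((1 : ℝ) +ᵥ (⟨τ, hτ⟩ : ℍ)) := by
    rw [← Lc_coe]
    congr 1
    simp [add_comm]
  have e2 : Lc f τ = Lop (fun z : ℍ => f z) ⟨τ, hτ⟩ := Lc_coe f ⟨τ, hτ⟩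
  rw [e1, h3, e2]
  rfl

theorem Lc_S {ι : Type*} {s : Finset ι} {f : ℂ → ℂ} {g : ι → ℂ → ℂ} {b : ι → ℂ}
    (hf : DifferentiableOn ℂ f {τ | 0 < τ.im}) (hg : ∀ i, DifferentiableOn ℂ (g i) {τ | 0 < τ.im})
    (hS : ∀ τ : ℂ, 0 < τ.im → f τ = τ ^ 10 * ∑ i ∈ s, b i * g i (-1 / τ)) :
    ∀ τ : ℂ, 0 < τ.im → Lc f τ = τ ^ 6 * ∑ i ∈ s, b i * Lc (g i) (-1 / τ) := by
  intro τ hτ
  have hneg : ∀ z : ℍ, (-1 / (z : ℂ)) = (-(z : ℂ))⁻¹ := fun z => by
    rw [neg_div, one_div, inv_neg]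
  have h1 : (fun z : ℍ => f z) = ∑ i ∈ s, b i • ((fun z : ℍ => g i z) ∣[(-10 : ℤ)] ModularGroup.S) := by
    ext z
    rw [Finset.sum_apply]
    simp only [Pi.smul_apply, smul_eq_mul, slash_S]
    rw [hS z z.im_pos, Finset.mul_sum]
    refine Finset.sum_congr rfl fun i _ => ?_
    rw [hneg]
    have e3 : (z : ℂ) ^ (-(-10 : ℤ)) = (z : ℂ) ^ 10 := by
      norm_num
    rw [e3]
    ring
  have hmd : ∀ i, MDiff ((fun z : ℍ => g i z) ∣[(-10 : ℤ)] ModularGroup.S) := fun i =>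
    (md_of_holo (hg i)).slash _ _
  have h2 : Lop (fun z : ℍ => f z) =
      ∑ i ∈ s, b i • (Lop (fun z : ℍ => g i z) ∣[(-6 : ℤ)] ModularGroup.S) := by
    have hmd' : ∀ i, MDiff (b i • ((fun z : ℍ => g i z) ∣[(-10 : ℤ)] ModularGroup.S)) := fun i =>
      (mdifferentiable_const (c := b i)).mul (hmd i)
    rw [h1, Lop_sum _ _ hmd']
    refine Finset.sum_congr rfl fun i _ => ?_
    rw [Lop_smul _ (hmd i), Lop_slash (md_of_holo (hg i))]
  have h3 := congrFun h2 ⟨τ, hτ⟩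
  rw [← Lc_coe, Finset.sum_apply] at h3
  simp only [Pi.smul_apply, smul_eq_mul, slash_S, ← Lc_coe] at h3
  rw [h3, Finset.mul_sum]
  refine Finset.sum_congr rfl fun i _ => ?_
  have e3 : τ ^ (-(-6 : ℤ)) = τ ^ 6 := by
    norm_num
  rw [e3, neg_div, one_div, ← inv_neg]
  ring

/-- the norm identity for the vector of values -/
theorem norm_S {A : Matrix (Fin 20) (Fin 20) ℤ} (h : PosSymm A) {R : Finset (Fin 20 → ℤ)}
    (hR : IsReps A R) (w : ℕ) (F : (Fin 20 → ℤ) → ℂ → ℂ) (τ : ℂ)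
    (hS : ∀ μ, F μ τ = -(τ ^ w) / (Real.sqrt (A.det : ℝ) : ℂ) *
      ∑ ρ ∈ R, ee (-(bd A μ ρ : ℂ)) * F ρ (-1 / τ)) :
    ‖τ‖ ^ (2 * w) * ∑ μ ∈ R, ‖F μ (-1 / τ)‖ ^ 2 = ∑ μ ∈ R, ‖F μ τ‖ ^ 2 := by
  have hd : (0 : ℝ) < (A.det : ℝ) := by exact_mod_cast det_posZ h
  have h1 := unitary h hR (fun ρ => F ρ (-1 / τ))
  have h2 : ∀ μ, ‖F μ τ‖ ^ 2 = ‖τ‖ ^ (2 * w) / (A.det : ℝ) *
      ‖∑ ρ ∈ R, ee (-(bd A μ ρ : ℂ)) * F ρ (-1 / τ)‖ ^ 2 := by
    intro μ
    rw [hS μ, norm_mul, norm_div, norm_neg, norm_pow, Complex.norm_real, Real.norm_eq_abs,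
      abs_of_nonneg (Real.sqrt_nonneg _), mul_pow, div_pow, Real.sq_sqrt hd.le, ← pow_mul,
      mul_comm w 2]
  rw [Finset.sum_congr rfl fun μ _ => h2 μ, ← Finset.mul_sum, h1]
  field_simp

theorem bd_self_int (A : Matrix (Fin 20) (Fin 20) ℤ) (h : PosSymm A) (he : ∀ i, Even (A i i))
    (v : Fin 20 → ℤ) : ∃ k : ℤ, bd A (A.mulVec v) (A.mulVec v) / 2 = k := by
  obtain ⟨N, hN⟩ := even_bf h.symm he v
  refine ⟨N, ?_⟩
  rw [bd_mulVec_right h]
  have h1 : dotProduct (A.mulVec v) v = bf A v v := by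
    rw [dotProduct_comm]
    unfold bf dotProduct Matrix.mulVec dotProduct
    refine Finset.sum_congr rfl fun i _ => ?_
    rw [Finset.mul_sum]
    refine Finset.sum_congr rfl fun j _ => ?_
    simp [mul_assoc]
  rw [h1, hN]
  push_cast
  ring

theorem Cs.zero_of {c : ℂ} {G : ℍ → ℂ} (h : Cs c G) (h0 : ∀ z, G z = 0) : c = 0 := by
  by_contra hne
  obtain ⟨Y, C, hY, hC, hb⟩ := h.bd'
  have hc : 0 < ‖c‖ := norm_pos_iff.2 hne
  have ht : Filter.Tendsto (fun T : ℝ => C * Real.exp (-(2 * Real.pi * T))) Filter.atTop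
      (𝓝 (C * 0)) := by
    refine Filter.Tendsto.const_mul _ (Real.tendsto_exp_atBot.comp ?_)
    refine Filter.tendsto_neg_atTop_atBot.comp ?_
    exact Filter.Tendsto.const_mul_atTop (by positivity) Filter.tendsto_id
  rw [mul_zero] at ht
  obtain ⟨T, hT⟩ := Filter.eventually_atTop.1 (ht.eventually (gt_mem_nhds hc))
  have hp : 0 < max (max T Y) 1 := lt_of_lt_of_le one_pos (le_max_right _ _)
  have h1 := hb ⟨(max (max T Y) 1 : ℝ) * Complex.I, by simpa using hp⟩ (by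
    have : Y ≤ max (max T Y) 1 := (le_max_right _ _).trans (le_max_left _ _)
    show Y ≤ (((max (max T Y) 1 : ℝ) : ℂ) * Complex.I).im
    simpa using this)
  rw [h0, zero_sub, norm_neg] at h1
  have h2 := hT (max (max T Y) 1) ((le_max_left _ _).trans (le_max_left _ _))
  have h3 : (⟨(max (max T Y) 1 : ℝ) * Complex.I, by simpa using hp⟩ : ℍ).im =
      max (max T Y) 1 := by
    show ((((max (max T Y) 1 : ℝ)) : ℂ) * Complex.I).im = _
    simp
  rw [h3] at h1
  linarith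

theorem jobODE : JobODE := by
  intro G R f hG hev hR hV hg0 hg1 hne
  classical
  -- the differential equation
  have hTα : ∀ μ (τ : ℂ), 0 < τ.im → f μ (τ + 1) = ee (-((bd G μ μ / 2 : ℝ) : ℂ)) * f μ τ := by
    intro μ τ hτ
    rw [hV.T μ τ hτ]
    push_cast
    rfl
  have hcls : ∀ μ, ∃ κ Y C : ℝ, -(1 / 2) < κ ∧ ∀ z : ℍ, Y ≤ z.im →
      ‖Lc (f μ) z‖ ≤ C * Real.exp (-(2 * Real.pi * κ * z.im)) := by
    intro μ
    by_cases hμ : ∃ v : Fin 20 → ℤ, μ = G.mulVec v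
    · obtain ⟨C, hC⟩ := hg0 μ
      obtain ⟨n, c, H, hn, _, hCs, hL⟩ := Lop_growth (κ := 1) (C := C) (hV.holo μ) (hTα μ)
        (fun τ hτ => by rw [mul_one]; exact hC τ hτ)
      obtain ⟨v, rfl⟩ := hμ
      obtain ⟨k, hk⟩ := bd_self_int G hG hev v
      have h1 : (n : ℝ) - bd G (G.mulVec v) (G.mulVec v) / 2 = ((n - k : ℤ) : ℝ) := by
        rw [hk]; push_cast; ring
      have h2 : -1 ≤ n - k := by
        rw [h1] at hn
        exact_mod_cast hn
      obtain ⟨κ, Y, C', hκ, hb⟩ := Cs_growth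
        (e := (n : ℝ) - bd G (G.mulVec v) (G.mulVec v) / 2) (κ₀ := -(1 / 2)) hCs (by
          rw [h1]
          have : (-1 : ℝ) ≤ ((n - k : ℤ) : ℝ) := by exact_mod_cast h2
          linarith) (by
          rcases h2.eq_or_lt with h3 | h3
          · left
            rw [h1, ← h3]
            simp
          · right
            rw [h1]
            have : (0 : ℝ) ≤ ((n - k : ℤ) : ℝ) := by
              have : 0 ≤ n - k := by omega
              exact_mod_cast this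
            linarith)
      refine ⟨κ, Y, C', hκ, fun z hz => ?_⟩
      rw [Lc_coe, hL]
      exact hb z hz
    · obtain ⟨C, hC⟩ := hg1 μ hμ
      obtain ⟨n, c, H, hn, _, hCs, hL⟩ := Lop_growth (κ := 1 / 2) (C := C) (hV.holo μ) (hTα μ)
        (fun τ hτ => by
          have := hC τ hτ
          rw [show 2 * Real.pi * (1 / 2) = Real.pi by ring]
          exact this)
      obtain ⟨κ, Y, C', hκ, hb⟩ := Cs_growth
        (e := (n : ℝ) - bd G μ μ / 2) (κ₀ := -(1 / 2)) hCs (by linarith) (by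
          rcases hn.eq_or_lt with h3 | h3
          · left
            rw [← h3]
            push_cast
            ring
          · right
            exact h3)
      refine ⟨κ, Y, C', hκ, fun z hz => ?_⟩
      rw [Lc_coe, hL]
      exact hb z hz
  have hbd : ∀ μ, ∃ κ C : ℝ, -(1 / 2) < κ ∧ ∀ τ : ℂ, 1 / 2 ≤ τ.im →
      ‖Lc (f μ) τ‖ ≤ C * Real.exp (-(2 * Real.pi * κ * τ.im)) := by
    intro μ
    obtain ⟨κ, Y, C, hκ, hb⟩ := hcls μ
    have hY : ∀ τ : ℂ, max Y 1 ≤ τ.im →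
        ‖Lc (f μ) τ‖ ≤ C * Real.exp (-(2 * Real.pi * κ * τ.im)) := by
      intro τ hτ
      have h0 : 0 < τ.im := lt_of_lt_of_le one_pos ((le_max_right _ _).trans hτ)
      exact hb ⟨τ, h0⟩ ((le_max_left _ _).trans hτ)
    obtain ⟨C', h⟩ := growth_ext (Lc_holo (hV.holo μ)) (Lc_T (hV.holo μ) (hTα μ)) hY
    exact ⟨κ, C', hκ, h⟩
  have hLS : ∀ μ (τ : ℂ), 0 < τ.im → Lc (f μ) τ = -(τ ^ 6) / (Real.sqrt (G.det : ℝ) : ℂ) *
      ∑ ρ ∈ R, ee (-(bd G μ ρ : ℂ)) * Lc (f ρ) (-1 / τ) := by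
    intro μ τ hτ
    have h1 := Lc_S (s := R) (g := f) (b := fun ρ => -(Real.sqrt (G.det : ℝ) : ℂ)⁻¹ *
      ee (-(bd G μ ρ : ℂ))) (hV.holo μ) hV.holo (fun τ hτ => by
        rw [hV.S μ τ hτ, Finset.mul_sum, Finset.mul_sum]
        refine Finset.sum_congr rfl fun ρ _ => ?_
        rw [div_eq_mul_inv]
        ring) τ hτ
    rw [h1, Finset.mul_sum, Finset.mul_sum]
    refine Finset.sum_congr rfl fun ρ _ => ?_
    rw [div_eq_mul_inv]
    ring
  choose κ C hκ hb using hbd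
  have hR0 : R.Nonempty := by
    obtain ⟨ρ, hρ, _⟩ := hR 0
    exact ⟨ρ, hρ.1⟩
  have hLzero : ∀ ρ ∈ R, ∀ τ : ℂ, 0 < τ.im → Lc (f ρ) τ = 0 := by
    obtain ⟨ρ₁, hρ₁, hmin⟩ := R.exists_min_image κ hR0
    have h1 := jobVV R 6 (κ ρ₁) (fun τ ρ => Lc (f ρ) τ) (by
        have := hκ ρ₁
        push_cast
        linarith) ?_ ?_ ?_ ?_
    · intro ρ hρ τ hτ
      exact h1 τ hτ ⟨ρ, hρ⟩
    · rw [differentiableOn_pi]
      exact fun ρ => Lc_holo (hV.holo ρ)
    · intro τ hτ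
      refine Finset.sum_congr rfl fun ρ _ => ?_
      rw [Lc_T (hV.holo ρ) (hTα ρ) τ hτ, norm_mul]
      have : ‖ee (-((bd G ρ ρ / 2 : ℝ) : ℂ))‖ = 1 := by
        rw [ee_norm]
        simp
      rw [this, one_mul]
    · intro τ hτ
      have h2 := norm_S hG hR 6 (fun ρ => Lc (f ρ)) τ (fun μ => hLS μ τ hτ)
      rw [← Finset.sum_coe_sort R, ← Finset.sum_coe_sort R] at h2
      exact h2
    · refine ⟨∑ ρ ∈ R, |C ρ|, fun τ hτ ρ => ?_⟩
      refine (hb ρ τ hτ).trans ?_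
      have h3 : C ρ ≤ ∑ ρ ∈ R, |C ρ| :=
        (le_abs_self _).trans (Finset.single_le_sum (f := fun ρ => |C ρ|)
          (fun _ _ => abs_nonneg _) ρ.2)
      have h4 : 0 ≤ ∑ ρ ∈ R, |C ρ| := Finset.sum_nonneg fun _ _ => abs_nonneg _
      have h5 : Real.exp (-(2 * Real.pi * κ ρ * τ.im)) ≤ Real.exp (-(2 * Real.pi * κ ρ₁ * τ.im)) := by
        rw [Real.exp_le_exp]
        have h6 := hmin ρ ρ.2
        have := Real.pi_pos
        have h7 : 0 < 2 * Real.pi * τ.im := by positivity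
        nlinarith
      exact mul_le_mul h3 h5 (Real.exp_pos _).le h4
  -- vanishing for all classes
  have hall : ∀ μ, ∃ ρ ∈ R, ∀ τ : ℂ, 0 < τ.im → f μ τ = f ρ τ := by
    intro μ
    obtain ⟨ρ, ⟨hρ, v, hv⟩, _⟩ := hR μ
    refine ⟨ρ, hρ, fun τ hτ => ?_⟩
    rw [hv, hV.inv ρ v τ hτ]
  have hLall : ∀ μ, ∀ z : ℍ, Lop (fun z : ℍ => f μ z) z = 0 := by
    intro μ z
    obtain ⟨ρ, hρ, h1⟩ := hall μ
    have h2 : (fun z : ℍ => f μ z) = fun z : ℍ => f ρ z := by
      ext z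
      exact h1 z z.im_pos
    rw [h2, ← Lc_coe]
    exact hLzero ρ hρ z z.im_pos
  have hkill : (∀ ρ ∈ R, ∃ C : ℝ, ∀ τ : ℂ, 1 / 2 ≤ τ.im →
      ‖f ρ τ‖ ≤ C * Real.exp (Real.pi * τ.im)) → False := by
    intro hC
    choose! C hC using hC
    have h1 := jobVV R 10 (-(1 / 2)) (fun τ ρ => f ρ τ) (by push_cast; norm_num) ?_ ?_ ?_ ?_
    · obtain ⟨μ, τ, hτ, hμ⟩ := hne
      obtain ⟨ρ, hρ, h2⟩ := hall μ
      rw [h2 τ hτ] at hμ
      exact hμ (h1 τ hτ ⟨ρ, hρ⟩)
    · rw [differentiableOn_pi]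
      exact fun ρ => hV.holo ρ
    · intro τ hτ
      refine Finset.sum_congr rfl fun ρ _ => ?_
      rw [hTα ρ τ hτ, norm_mul]
      have : ‖ee (-((bd G ρ ρ / 2 : ℝ) : ℂ))‖ = 1 := by
        rw [ee_norm]
        simp
      rw [this, one_mul]
    · intro τ hτ
      have h2 := norm_S hG hR 10 f τ (fun μ => hV.S μ τ hτ)
      rw [← Finset.sum_coe_sort R, ← Finset.sum_coe_sort R] at h2
      exact h2
    · refine ⟨∑ ρ ∈ R, |C ρ|, fun τ hτ ρ => ?_⟩
      refine (hC ρ ρ.2 τ hτ).trans ?_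
      have h3 : C ρ ≤ ∑ ρ ∈ R, |C ρ| :=
        (le_abs_self _).trans (Finset.single_le_sum (f := fun ρ => |C ρ|)
          (fun _ _ => abs_nonneg _) ρ.2)
      have h5 : -(2 * Real.pi * -(1 / 2) * τ.im) = Real.pi * τ.im := by ring
      rw [h5]
      exact mul_le_mul_of_nonneg_right h3 (Real.exp_pos _).le
  have hSinv : ∀ τ : ℂ, 0 < τ.im → 0 < (-1 / τ).im ∧ -1 / (-1 / τ) = τ := by
    intro τ hτ
    have hτ0 : τ ≠ 0 := by rintro rfl; simp at hτ
    constructor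
    · have e : -1 / τ = (-τ)⁻¹ := by rw [neg_div, one_div, inv_neg]
      rw [e]
      exact (⟨τ, hτ⟩ : ℍ).im_inv_neg_coe_pos
    · field_simp
  have hd : (0 : ℝ) < (G.det : ℝ) := by exact_mod_cast det_posZ hG
  constructor
  · intro μ hμ
    obtain ⟨C, hC⟩ := hg1 μ hμ
    obtain ⟨n, c, H, hn, hc, hCs, hL⟩ := Lop_growth (κ := 1 / 2) (C := C) (hV.holo μ) (hTα μ)
      (fun τ hτ => by
        have := hC τ hτ
        rw [show 2 * Real.pi * (1 / 2) = Real.pi by ring]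
        exact this)
    have hH0 : ∀ z, H z = 0 := by
      intro z
      have h1 := congrFun hL z
      rw [hLall μ z, Pi.mul_apply] at h1
      rcases mul_eq_zero.1 h1.symm with h2 | h2
      · exact absurd h2 (ee_ne _)
      · exact h2
    have hP := hCs.zero_of hH0
    have hc0 : c ≠ 0 := by
      intro hc'
      have hz := hc hc'
      obtain ⟨ρ₀, ⟨hρ₀, v₀, hv₀⟩, _⟩ := hR 0
      have hrel : ∀ τ : ℂ, 0 < τ.im → ∑ ρ ∈ R, ee (-(bd G μ ρ : ℂ)) * f ρ τ = 0 := by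
        intro τ hτ
        obtain ⟨h1, h2⟩ := hSinv τ hτ
        have h3 := hV.S μ (-1 / τ) h1
        rw [hz _ h1, h2] at h3
        have h4 : (-1 / τ) ≠ 0 := by
          intro h; rw [h] at h1; simp at h1
        rcases mul_eq_zero.1 h3.symm with h5 | h5
        · exfalso
          rw [div_eq_zero_iff, neg_eq_zero] at h5
          rcases h5 with h5 | h5
          · exact h4 (pow_eq_zero_iff (by norm_num) |>.1 h5)
          · have : (Real.sqrt (G.det : ℝ)) = 0 := by exact_mod_cast h5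
            exact (Real.sqrt_pos.2 hd).ne' this
        · exact h5
      apply hkill
      choose! C' hC' using hg1
      intro ρ hρ
      by_cases hρ0 : ρ = ρ₀
      · subst hρ0
        refine ⟨∑ σ ∈ R.erase ρ, C' σ, fun τ hτ => ?_⟩
        have h1 := hrel τ (by linarith)
        rw [← Finset.add_sum_erase R _ hρ] at h1
        have h2 : ‖f ρ τ‖ = ‖∑ σ ∈ R.erase ρ, ee (-(bd G μ σ : ℂ)) * f σ τ‖ := by
          have h3 : ee (-(bd G μ ρ : ℂ)) * f ρ τ =
              -∑ σ ∈ R.erase ρ, ee (-(bd G μ σ : ℂ)) * f σ τ := by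
            linear_combination h1
          have h4 := congrArg norm h3
          rw [norm_mul, norm_neg, ee_norm] at h4
          simpa using h4
        rw [h2, Finset.sum_mul]
        refine (norm_sum_le _ _).trans (Finset.sum_le_sum fun σ hσ => ?_)
        rw [norm_mul, ee_norm]
        have h5 : Real.exp (-(2 * Real.pi * (-(bd G μ σ : ℂ)).im)) = 1 := by simp
        rw [h5, one_mul]
        refine hC' σ ?_ τ hτ
        rintro ⟨v, hv⟩
        have hσ' := Finset.mem_erase.1 hσ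
        apply hσ'.1
        obtain ⟨r, _, hu⟩ := hR σ
        have e1 := hu σ ⟨hσ'.2, 0, by simp⟩
        have e2 := hu ρ ⟨hρ, v + v₀, by
          rw [Matrix.mulVec_add, ← add_assoc, add_comm ρ, add_assoc, ← hv₀, hv, add_zero]⟩
        exact e1.trans e2.symm
      · refine ⟨C' ρ, hC' ρ ?_⟩
        rintro ⟨v, hv⟩
        apply hρ0
        obtain ⟨r, _, hu⟩ := hR ρ
        have e1 := hu ρ ⟨hρ, 0, by simp⟩
        have e2 := hu ρ₀ ⟨hρ₀, v + v₀, by
          rw [Matrix.mulVec_add, ← add_assoc, add_comm ρ₀, add_assoc, ← hv₀, hv, add_zero]⟩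
        exact e1.trans e2.symm
    have hP' : ((((n : ℝ) - bd G μ μ / 2 : ℝ) : ℂ) + 1) *
        ((((n : ℝ) - bd G μ μ / 2 : ℝ) : ℂ) + 1 / 2) = 0 := by
      rcases mul_eq_zero.1 hP with h1 | h1
      · exact h1
      · exact absurd h1 hc0
    have hP2 : (((n : ℝ) - bd G μ μ / 2) + 1) * (((n : ℝ) - bd G μ μ / 2) + 1 / 2) = 0 := by
      apply Complex.ofReal_injective
      push_cast at hP' ⊢
      exact hP'
    rcases mul_eq_zero.1 hP2 with h1 | h1
    · linarith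
    · exact ⟨n, by linarith⟩
  · intro hdet
    have hcard := card_reps hG hR
    rw [hdet] at hcard
    have hcard' : R.card = 1 := by exact_mod_cast hcard
    obtain ⟨ρ₀, hρ₀⟩ := Finset.card_eq_one.1 hcard'
    have hf0 : ∀ μ (τ : ℂ), 0 < τ.im → f μ τ = f ρ₀ τ := by
      intro μ τ hτ
      obtain ⟨ρ, hρ, h1⟩ := hall μ
      rw [hρ₀, Finset.mem_singleton] at hρ
      rw [h1 τ hτ, hρ]
    have hb0 : ∀ ρ, bd G 0 ρ = 0 := by
      intro ρ
      rw [bd_eq]
      have : vr 0 = 0 := by ext i; simp [vr]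
      rw [this, zero_dotProduct]
    have hS0 : ∀ τ : ℂ, 0 < τ.im → f 0 τ = -(τ ^ 10) * f 0 (-1 / τ) := by
      intro τ hτ
      have h1 := hV.S 0 τ hτ
      rw [hρ₀, Finset.sum_singleton, hb0, hdet] at h1
      rw [h1, hf0 0 _ (hSinv τ hτ).1]
      simp [Y683.RL.ee_zero]
    have hT0 : ∀ τ : ℂ, 0 < τ.im → f 0 (τ + 1) = f 0 τ := by
      intro τ hτ
      rw [hV.T 0 τ hτ, hb0]
      simp [Y683.RL.ee_zero]
    have hzero : ∀ τ : ℂ, 0 < τ.im → f 0 τ = 0 := by
      intro τ hτ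
      have hτ0 : τ ≠ 0 := by rintro rfl; simp at hτ
      have hτ1 : 0 < (τ + 1).im := by simpa using hτ
      have hτ10 : τ + 1 ≠ 0 := by
        intro h; rw [h] at hτ1; simp at hτ1
      have e1 := hT0 τ hτ
      have e2 := hS0 (τ + 1) hτ1
      have i2 := (hSinv (τ + 1) hτ1).1
      have e3 := hT0 (-1 / (τ + 1)) i2
      have q : -1 / (τ + 1) + 1 = τ / (τ + 1) := by field_simp; ring
      rw [q] at e3
      have i3 : 0 < (τ / (τ + 1)).im := by
        rw [← q]; simpa using i2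
      have e4 := hS0 (τ / (τ + 1)) i3
      have q2 : -1 / (τ / (τ + 1)) = -1 / τ - 1 := by field_simp; ring
      rw [q2] at e4
      have i4 : 0 < (-1 / τ - 1).im := by
        simpa using (hSinv τ hτ).1
      have e5 := hT0 (-1 / τ - 1) i4
      rw [sub_add_cancel] at e5
      have e6 := hS0 τ hτ
      have e7 : f 0 τ = -f 0 τ := by
        calc f 0 τ = -((τ + 1) ^ 10) * f 0 (-1 / (τ + 1)) := by rw [← e1, e2]
          _ = -((τ + 1) ^ 10) * (-((τ / (τ + 1)) ^ 10) * f 0 (-1 / τ)) := by rw [← e3, e4, e5]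
          _ = τ ^ 10 * f 0 (-1 / τ) := by field_simp
          _ = -f 0 τ := by rw [e6]; ring
      linear_combination (1 / 2 : ℂ) * e7
    obtain ⟨μ, τ, hτ, hμ⟩ := hne
    apply hμ
    rw [hf0 μ τ hτ, ← hf0 0 τ hτ]
    exact hzero τ hτ

end

end Pool.Agent.V11282.RL
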