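import Pool.Agent.V11282.RL.Vd
import Pool.Agent.V11282.RL.ODE
import Pool.Agent.Y683.RL.Kd
import Pool.Agent.Y683.RL.Fj
import Pool.Agent.Y155.RL.DIV
import Pool.Agent.Y155.RL.VD

set_option autoImplicit false

/-!
# The discriminant form of a lattice carrying a reflective form
-/

namespace Pool.Agent.V11282.RL

open Pool.Agent.Y813.RL hiding ee_add ee_int ee_zero
open Complex Set Topology MeasureTheory
open Pool.Agent.Y683.RL (ee_add ee_int ee_norm ee_zero ee_ne ee_neg_mul HP fco)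

noncomputable section

variable {G : Matrix (Fin 20) (Fin 20) ℤ} {k : ℤ} {F : TP → ℂ}
  {φ : ℕ → ℂ × (Fin 20 → ℂ) → ℂ} {C m : ℕ}

theorem Ar_smul (m : ℕ) : Ar ((m : ℤ) • G) = (m : ℝ) • Ar G := by
  ext i j
  show (((m : ℤ) * G i j : ℤ) : ℝ) = (m : ℝ) * (G i j : ℝ)
  push_cast
  ring

theorem bd_smul (h : PosSymm G) {m : ℕ} (hm : 0 < m) (μ ν : Fin 20 → ℤ) :
    bd ((m : ℤ) • G) μ ν = bd G μ ν / m := by
  have hm' : (m : ℝ) ≠ 0 := by exact_mod_cast hm.ne'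
  have h1 : (Ar ((m : ℤ) • G))⁻¹.mulVec (vr ν) = (m : ℝ)⁻¹ • (Ar G)⁻¹.mulVec (vr ν) := by
    have h2 := inv_mul_vec (posSymm_smul h hm) ((m : ℝ)⁻¹ • (Ar G)⁻¹.mulVec (vr ν))
    have h3 : (Ar ((m : ℤ) • G)).mulVec ((m : ℝ)⁻¹ • (Ar G)⁻¹.mulVec (vr ν)) = vr ν := by
      rw [Ar_smul, Matrix.smul_mulVec, Matrix.mulVec_smul, smul_smul, mul_inv_cancel₀ hm',
        one_smul, mul_inv_vec h]
    rw [h3] at h2
    exact h2
  rw [bd_eq, bd_eq, h1, dotProduct_smul, smul_eq_mul]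
  field_simp

theorem unit_phase (x : ℝ) : ‖ee (-((x : ℂ) / 2))‖ = 1 := by
  rw [ee_norm]
  have : (-((x : ℂ) / 2)).im = 0 := by
    have e : (-((x : ℂ) / 2)) = ((-(x / 2) : ℝ) : ℂ) := by push_cast; ring
    rw [e, Complex.ofReal_im]
  rw [this]
  simp

theorem index_one (hBC : JobBC) (hDIV : JobDIV) (hKD : JobKD) (hVD : JobVD) (h : PosSymm G)
    (H : CM G k F φ C m) : m = 1 := by
  by_contra hne
  have hm : 2 ≤ m := by
    have := H.hm
    omega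
  have hm0 : (0 : ℝ) < m := by exact_mod_cast H.hm
  obtain ⟨c, hc, hcq⟩ := H.exists_jacobi hBC hDIV h
  have hA := posSymm_smul h H.hm
  have hcoef : ∀ (μ : Fin 20 → ℤ) (κ : ℤ), (κ : ℝ) - bd ((m : ℤ) • G) μ μ / 2 < -(3 / 4) →
      fco 0 (fc c μ) κ = 0 := by
    intro μ κ hκ
    rw [bd_smul h H.hm] at hκ
    set l : Fin 20 → ℝ := (m : ℝ)⁻¹ • lam G μ with hl
    obtain ⟨Q, hQ⟩ := zf_vd hVD hKD h H hm (bf G l l + 1)
    have hO : IsOpen ({x : Fin 20 → ℝ | κ + dt μ x + m * (3 / (4 * (m : ℝ)) + bf G x x / 2) < 0} ∩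
        {x | bf G x x < bf G l l + 1}) := by
      have h1 := dt_continuous μ
      have h2 := bf_cont_self (G := G)
      refine IsOpen.inter (isOpen_lt ?_ continuous_const) (isOpen_lt h2 continuous_const)
      fun_prop
    obtain ⟨X, N, hN, hX, hg⟩ := gen Q hO ⟨-l, by
      have e1 : dt μ (-l) = -(bd G μ μ / m) := by
        have e2 : dt μ (lam G μ) = bd G μ μ := rfl
        have e3 : dt μ (-l) = -((m : ℝ)⁻¹ * dt μ (lam G μ)) := by
          rw [← dt_smul, ← hl]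
          simp [dt]
        rw [e3, e2]
        field_simp
      have e4 : bf G l l = bd G μ μ / m ^ 2 := by
        rw [hl, bf_smul_left, bf_smul_right, bf_lam_lam h]
        field_simp
      constructor
      · show κ + dt μ (-l) + m * (3 / (4 * (m : ℝ)) + bf G (-l) (-l) / 2) < 0
        rw [bf_neg_left, bf_neg_right, neg_neg, e1, e4]
        have e5 : (κ : ℝ) + -(bd G μ μ / m) + m * (3 / (4 * (m : ℝ)) + bd G μ μ / m ^ 2 / 2) =
            (κ - bd G μ μ / m / 2) + 3 / 4 := by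
          field_simp
          ring
        rw [e5]
        linarith
      · show bf G (-l) (-l) < _
        rw [bf_neg_left, bf_neg_right, neg_neg]
        linarith⟩
    obtain ⟨hgen, hZ⟩ := hQ X N hN (le_of_lt hX.2) hg
    exact coef_of_zf hBC hKD h H hc hcq hN hgen (by positivity) hZ μ κ hX.1
  obtain ⟨R, hR⟩ := exists_reps hA
  have hV := vf_VV10 hA hc hR
  have hgr : ∀ μ, ∃ C : ℝ, ∀ τ : ℂ, 1 / 2 ≤ τ.im →
      ‖vf ((m : ℤ) • G) c μ τ‖ ≤ C * Real.exp (-(2 * Real.pi * (-(3 / 4)) * τ.im)) := fun μ =>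
    vf_growth hc μ (hcoef μ)
  choose Cb hCb using hgr
  have hzero := jobVV R 10 (-(3 / 4)) (fun τ ρ => vf ((m : ℤ) • G) c ρ τ)
    (by push_cast; norm_num) ?_ ?_ ?_ ?_
  · obtain ⟨p, hp, hpne⟩ := H.hne2
    have h1 : c p.1 p.2 ≠ 0 := by
      intro h0
      apply hpne
      have := hcq p.1 p.2 hp
      rw [h0, mul_zero] at this
      exact this
    obtain ⟨μ, hμ⟩ := exists_vf_ne (A := (m : ℤ) • G) hc hp h1
    obtain ⟨ρ, ⟨hρ, v, hv⟩, _⟩ := hR μ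
    apply hμ
    rw [hv, hV.inv ρ v _ hp]
    exact hzero p.1 hp ⟨ρ, hρ⟩
  · rw [differentiableOn_pi]
    exact fun ρ => hV.holo ρ
  · intro τ hτ
    refine Finset.sum_congr rfl fun ρ _ => ?_
    rw [hV.T ρ τ hτ, norm_mul, unit_phase, one_mul]
  · intro τ hτ
    have h2 := norm_S hA hR 10 (vf ((m : ℤ) • G) c) τ (fun μ => hV.S μ τ hτ)
    rw [← Finset.sum_coe_sort R, ← Finset.sum_coe_sort R] at h2
    exact h2
  · refine ⟨∑ ρ ∈ R, |Cb ρ|, fun τ hτ ρ => ?_⟩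
    refine (hCb ρ τ hτ).trans ?_
    have h3 : Cb ρ ≤ ∑ ρ ∈ R, |Cb ρ| :=
      (le_abs_self _).trans (Finset.single_le_sum (f := fun ρ => |Cb ρ|)
        (fun _ _ => abs_nonneg _) ρ.2)
    exact mul_le_mul_of_nonneg_right h3 (Real.exp_pos _).le

/-- **The discriminant form.** -/
theorem disc_of_tube (h : PosSymm G) (hev : ∀ i, Even (G i i)) (hF : TubeForm G k F) :
    (∀ μ, (¬ ∃ v : Fin 20 → ℤ, μ = G.mulVec v) → ∃ k : ℤ, bd G μ μ = 2 * k + 1) ∧ G.det ≠ 1 := by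
  have hBC : JobBC := Y155.RL.bc
  have hKD : JobKD := Y683.RL.jobKD
  have hDIV : JobDIV := Y155.RL.div
  have hVD : JobVD := Y155.RL.vd
  have hFJ : JobFJ := Y683.RL.jobFJ
  obtain ⟨φ, hφ⟩ := exists_FJD hFJ hKD h hF
  obtain ⟨C, m, hm, hC, hne, hmid, hne2⟩ := exists_second h hF hφ
  have H : CM G k F φ C m := ⟨hF, hφ, hm, hC, hne, hmid, hne2⟩
  have hm1 := index_one hBC hDIV hKD hVD h H
  subst hm1
  obtain ⟨c, hc, hcq⟩ := H.exists_jacobi hBC hDIV h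
  have hG1 : ((1 : ℕ) : ℤ) • G = G := by simp
  rw [hG1] at hc
  obtain ⟨R, hR⟩ := exists_reps h
  have hV := vf_VV10 h hc hR
  refine jobODE G R (vf G c) h hev hR hV (fun μ => ?_) (fun μ hμ => ?_) ?_
  · obtain ⟨Cb, hCb⟩ := vf_growth hc μ (e₀ := -1) (fun κ hκ => coef_one hBC hKD h H hc hcq μ κ hκ)
    refine ⟨Cb, fun τ hτ => (hCb τ hτ).trans (le_of_eq ?_)⟩
    congr 2
    ring
  · obtain ⟨Cb, hCb⟩ := vf_growth hc μ (e₀ := -(1 / 2))
      (fun κ hκ => coef_half hBC hKD h hev H hc hcq μ hμ κ hκ)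
    refine ⟨Cb, fun τ hτ => (hCb τ hτ).trans (le_of_eq ?_)⟩
    congr 2
    ring
  · obtain ⟨p, hp, hpne⟩ := H.hne2
    have h1 : c p.1 p.2 ≠ 0 := by
      intro h0
      apply hpne
      have := hcq p.1 p.2 hp
      rw [h0, mul_zero] at this
      exact this
    obtain ⟨μ, hμ⟩ := exists_vf_ne (A := G) hc hp h1
    exact ⟨μ, p.1, hp, hμ⟩

end

end Pool.Agent.V11282.RL
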