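import Pool.Agent.V11282.RL.Slice

set_option autoImplicit false

/-!
# Vanishing of Fourier coefficients from growth on slices
-/

namespace Pool.Agent.V11282.RL

open Pool.Agent.Y813.RL hiding ee_add ee_int ee_zero
open Complex Set Topology MeasureTheory
open Pool.Agent.Y683.RL (ee_add ee_int ee_norm ee_zero ee_ne ee_neg_mul HP fco)

noncomputable section

variable {A : Matrix (Fin 20) (Fin 20) ℤ} {c : ℂ → (Fin 20 → ℂ) → ℂ}

theorem fc_HP (hc : JacobiZero A c) (μ : Fin 20 → ℤ) : HP 0 (fc c μ) where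
  holo := fc_holo hc μ
  per t ht := fc_per hc μ ht

theorem c_perN (hc : JacobiZero A c) (N : ℕ) {τ : ℂ} (z : Fin 20 → ℂ) (hτ : 0 < τ.im) :
    c (τ + N) z = c τ z := by
  induction N with
  | zero => simp
  | succ n ih =>
    have h1 : 0 < (τ + n).im := by simpa using hτ
    have := hc.perτ (τ + n) z h1
    rw [← ih, ← this]
    congr 1
    push_cast
    ring

/-- the function on the slice -/
def gy (c : ℂ → (Fin 20 → ℂ) → ℂ) (X : Fin 20 → ℤ) (N : ℕ) (e : ℤ) (y : Fin 20 → ℝ) (t : ℂ) : ℂ :=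
  c (pt X N y t).1 (pt X N y t).2 * ee (-(e * t))

theorem gy_HP (hc : JacobiZero A c) {N : ℕ} (hN : 0 < N) (X : Fin 20 → ℤ) (e : ℤ)
    (y : Fin 20 → ℝ) : HP 0 (gy c X N e y) := by
  have h1 : HP 0 (fun t => c (pt X N y t).1 (pt X N y t).2) := by
    constructor
    · refine DifferentiableOn.comp (g := fun p : ℂ × (Fin 20 → ℂ) => c p.1 p.2) hc.holo
        (pt_diff X y).differentiableOn fun t ht => ?_
      exact pt_UP X y hN ht
    · intro t ht
      rw [pt_shift]
      have hp : 0 < (pt X N y t).1.im := pt_UP X y hN ht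
      have h2 := c_perN hc N (fun i => (pt X N y t).2 i + (X i : ℂ)) hp
      have h3 := hc.perz (pt X N y t).1 (pt X N y t).2 X hp
      rw [← h3, ← h2]
      simp
  exact h1.mul_ee e

/-- averaging -/
theorem avg {Φ : ℂ → ℂ} (hΦ : HP 0 Φ) {N : ℕ} (hN : 0 < N) :
    ∫ u in (0 : ℝ)..1, Φ ((N : ℂ) * ((u : ℂ) + Complex.I)) =
      ∫ u in (0 : ℝ)..1, Φ ((u : ℂ) + (N : ℂ) * Complex.I) := by
  have hN' : (N : ℝ) ≠ 0 := by exact_mod_cast hN.ne'
  have hNp : (0 : ℝ) < N := by exact_mod_cast hN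
  have him : 0 < ((N : ℂ) * Complex.I).im := by simpa using hNp
  set g : ℝ → ℂ := fun v => Φ ((v : ℂ) + (N : ℂ) * Complex.I) with hg
  have hgc : Continuous g := hΦ.cont_line him
  have hgp : Function.Periodic g 1 := by
    intro v
    simp only [hg]
    rw [← hΦ.per ((v : ℂ) + (N : ℂ) * Complex.I) (by simpa using hNp)]
    congr 1
    push_cast
    ring
  have h1 : ∀ u : ℝ, Φ ((N : ℂ) * ((u : ℂ) + Complex.I)) = g ((N : ℝ) * u) := by
    intro u
    simp only [hg]
    congr 1
    push_cast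
    ring
  simp only [h1]
  rw [intervalIntegral.integral_comp_mul_left g hN', mul_zero, mul_one]
  have h2 := hgp.intervalIntegral_add_zsmul_eq (N : ℤ) 0 (fun a b => hgc.intervalIntegrable a b)
  simp only [zero_add, zsmul_eq_mul, mul_one, Int.cast_natCast] at h2
  rw [h2]
  rw [← mul_smul_comm]
  simp only [Complex.real_smul]
  push_cast
  have hNC : (N : ℂ) ≠ 0 := by exact_mod_cast hN.ne'
  field_simp

theorem fc_coeff_zero (hc : JacobiZero A c) {N : ℕ} (hN : 0 < N) (X : Fin 20 → ℤ) {E : ℝ}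
    (hgr : ∀ y : Fin 20 → ℝ, ∃ K T : ℝ, 1 ≤ T ∧ ∀ t : ℂ, T ≤ t.im →
      ‖c (pt X N y t).1 (pt X N y t).2‖ ≤ K * t.im * Real.exp (2 * Real.pi * (N * E) * t.im))
    (μ : Fin 20 → ℤ) (κ : ℤ) (hneg : κ + dt μ (xr X N) + E < 0) :
    fco 0 (fc c μ) κ = 0 := by
  have hN' : (0 : ℝ) < N := by exact_mod_cast hN
  have hpi := Real.pi_pos
  set e : ℤ := N * κ + dotProduct μ X with he
  have hdX : (N : ℝ) * dt μ (xr X N) = ((dotProduct μ X : ℤ) : ℝ) := by
    simp only [dt, xr, dotProduct]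
    push_cast
    rw [Finset.mul_sum]
    refine Finset.sum_congr rfl fun i _ => ?_
    field_simp
  have he' : (e : ℝ) + N * E = N * (κ + dt μ (xr X N) + E) := by
    rw [he, mul_add, mul_add, hdX]
    push_cast
    ring
  set a : ℝ := -(2 * Real.pi * ((e : ℝ) + N * E)) with ha
  have ha0 : 0 < a := by
    rw [ha, he']
    have : 0 < (N : ℝ) * -(κ + dt μ (xr X N) + E) := mul_pos hN' (by linarith)
    nlinarith
  -- means vanish
  have hmean : ∀ y : Fin 20 → ℝ, ∫ u in (0 : ℝ)..1, gy c X N e y ((u : ℂ) + Complex.I) = 0 := by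
    intro y
    refine HP_line_zero (gy_HP hc hN X e y) ?_ (by simp)
    intro ε hε
    obtain ⟨K, T, hT, hK⟩ := hgr y
    have ht : Filter.Tendsto (fun T : ℝ => (|K| * (2 / a)) * Real.exp (-(a / 2) * T)) Filter.atTop
        (𝓝 ((|K| * (2 / a)) * 0)) := by
      refine Filter.Tendsto.const_mul _ ?_
      refine Real.tendsto_exp_atBot.comp ?_
      exact Filter.Tendsto.const_mul_atTop_of_neg (by linarith) Filter.tendsto_id
    rw [mul_zero] at ht
    obtain ⟨T', hT'⟩ := Filter.eventually_atTop.1 (ht.eventually (gt_mem_nhds hε))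
    refine ⟨max T T', fun t htm => ?_⟩
    have h1 : T ≤ t.im := (le_max_left _ _).trans htm
    have h2 : T' ≤ t.im := (le_max_right _ _).trans htm
    have h3 : 0 < t.im := by linarith
    unfold gy
    rw [norm_mul, ee_norm]
    have e1 : (-((e : ℂ) * t)).im = -(e * t.im) := by
      rw [Complex.neg_im, Complex.mul_im]; simp
    rw [e1]
    have h4 : t.im ≤ (2 / a) * Real.exp ((a / 2) * t.im) := by
      have := Real.add_one_le_exp ((a / 2) * t.im)
      rw [div_mul_eq_mul_div, le_div_iff₀ ha0]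
      linarith
    calc ‖c (pt X N y t).1 (pt X N y t).2‖ * Real.exp (-(2 * Real.pi * -(e * t.im)))
        ≤ (|K| * t.im * Real.exp (2 * Real.pi * (N * E) * t.im)) *
          Real.exp (-(2 * Real.pi * -(e * t.im))) := by
          gcongr
          refine (hK t h1).trans ?_
          gcongr
          exact le_abs_self K
      _ = |K| * t.im * Real.exp (-a * t.im) := by
          rw [mul_assoc, ← Real.exp_add]
          congr 2
          rw [ha]; ring
      _ ≤ |K| * ((2 / a) * Real.exp ((a / 2) * t.im)) * Real.exp (-a * t.im) := by gcongr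
      _ = (|K| * (2 / a)) * Real.exp (-(a / 2) * t.im) := by
          rw [mul_assoc |K|, mul_assoc (2 / a), ← Real.exp_add, ← mul_assoc]
          congr 2
          ring
      _ ≤ ε := (hT' _ h2).le
  -- the coefficient as a double integral
  rw [(fc_HP hc μ).fco_eq κ (w := (N : ℂ) * Complex.I) (by simpa using hN')]
  rw [← avg ((fc_HP hc μ).mul_ee κ) hN]
  have hshift : ∀ u : ℝ, fc c μ ((N : ℂ) * ((u : ℂ) + Complex.I)) *
      ee (-(κ * ((N : ℂ) * ((u : ℂ) + Complex.I)))) =
      ∫ y in Icc (0 : Fin 20 → ℝ) 1, gy c X N e y ((u : ℂ) + Complex.I) *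
        ee (-(dt μ (fun i => (y i : ℂ)))) := by
    intro u
    set t : ℂ := (u : ℂ) + Complex.I with ht
    have htim : 0 < t.im := by simp [ht]
    have hNt : 0 < ((N : ℂ) * t).im := by
      have : ((N : ℂ) * t).im = N * t.im := by simp [Complex.mul_im]
      rw [this]; positivity
    rw [fc_eq, (jz_ep hc hNt).tc_shift μ (fun i => t * (X i : ℂ)), ← integral_mul_const]
    refine setIntegral_congr_fun measurableSet_Icc fun y _ => ?_
    show c ((N : ℂ) * t) (fun i => t * (X i : ℂ) + (y i : ℂ)) *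
      ee (-(dt μ (fun i => t * (X i : ℂ) + (y i : ℂ)))) * ee (-(κ * ((N : ℂ) * t))) =
      (c ((N : ℂ) * t) (fun i => t * (X i : ℂ) + (y i : ℂ)) * ee (-(e * t))) *
        ee (-(dt μ (fun i => (y i : ℂ))))
    rw [mul_assoc, mul_assoc, ← ee_add, ← ee_add]
    congr 2
    rw [dt_add_right]
    have e4 : dt μ (fun i => t * (X i : ℂ)) = t * ((dotProduct μ X : ℤ) : ℂ) := by
      have := dt_smul (R := ℂ) μ t (fun i => (X i : ℂ))
      rw [dt_intCast] at this
      exact this
    rw [e4, he]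
    push_cast
    ring
  have h5 : ∀ u : ℝ, (fun t => fc c μ t * ee (-(κ * t))) ((N : ℂ) * ((u : ℂ) + Complex.I)) =
      ∫ y in Icc (0 : Fin 20 → ℝ) 1, gy c X N e y ((u : ℂ) + Complex.I) *
        ee (-(dt μ (fun i => (y i : ℂ)))) := hshift
  rw [intervalIntegral.integral_congr fun u _ => h5 u]
  rw [intervalIntegral.integral_of_le zero_le_one, ← integral_Icc_eq_integral_Ioc]
  rw [MeasureTheory.integral_integral_swap]
  · have h6 : ∀ y : Fin 20 → ℝ, ∫ u in Icc (0 : ℝ) 1, gy c X N e y ((u : ℂ) + Complex.I) *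
        ee (-(dt μ (fun i => (y i : ℂ)))) = 0 := by
      intro y
      rw [integral_mul_const, integral_Icc_eq_integral_Ioc,
        ← intervalIntegral.integral_of_le zero_le_one, hmean y, zero_mul]
    simp only [h6]
    simp
  · rw [Measure.prod_restrict]
    have hK : IsCompact (Icc (0 : ℝ) 1 ×ˢ Icc (0 : Fin 20 → ℝ) 1) :=
      isCompact_Icc.prod isCompact_Icc
    refine ContinuousOn.integrableOn_compact hK ?_
    refine ContinuousOn.mul ?_ ?_
    · refine ContinuousOn.mul ?_ ?_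
      · refine ContinuousOn.comp (g := fun p : ℂ × (Fin 20 → ℂ) => c p.1 p.2)
          (f := fun q : ℝ × (Fin 20 → ℝ) => pt X N q.2 ((q.1 : ℂ) + Complex.I))
          hc.holo.continuousOn ?_ ?_
        · unfold pt
          fun_prop
        · rintro ⟨u, y⟩ _
          exact pt_UP X y hN (by simp)
      · refine Continuous.continuousOn ?_
        refine Y683.RL.ee_cont.comp ?_
        fun_prop
    · refine Continuous.continuousOn ?_
      refine Y683.RL.ee_cont.comp (Continuous.neg ?_)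
      exact (dt_diffC μ).continuous.comp (by fun_prop)

/-- growth of the theta components from vanishing coefficients -/
theorem vf_growth (hc : JacobiZero A c) (μ : Fin 20 → ℤ) {e₀ : ℝ}
    (hz : ∀ κ : ℤ, (κ : ℝ) - bd A μ μ / 2 < e₀ → fco 0 (fc c μ) κ = 0) :
    ∃ C : ℝ, ∀ τ : ℂ, 1 / 2 ≤ τ.im → ‖vf A c μ τ‖ ≤ C * Real.exp (-(2 * Real.pi * e₀ * τ.im)) := by
  obtain ⟨C, hC, hb⟩ := per_growth (fc_HP hc μ) (n₁ := e₀ + bd A μ μ / 2) (fun n hn =>
    hz n (by linarith))
  refine ⟨C, fun τ hτ => ?_⟩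
  unfold vf
  rw [norm_mul, ee_norm]
  have e1 : (-(τ * (bd A μ μ : ℂ) / 2)).im = -(bd A μ μ / 2 * τ.im) := by
    have : (-(τ * (bd A μ μ : ℂ) / 2)) = ((-(bd A μ μ / 2) : ℝ) : ℂ) * τ := by push_cast; ring
    rw [this, Complex.im_ofReal_mul]
    ring
  rw [e1]
  calc Real.exp (-(2 * Real.pi * -(bd A μ μ / 2 * τ.im))) * ‖fc c μ τ‖
      ≤ Real.exp (-(2 * Real.pi * -(bd A μ μ / 2 * τ.im))) *
        (C * Real.exp (-(2 * Real.pi * (e₀ + bd A μ μ / 2) * τ.im))) := by
        gcongr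
        exact hb τ hτ
    _ = C * (Real.exp (-(2 * Real.pi * -(bd A μ μ / 2 * τ.im))) *
        Real.exp (-(2 * Real.pi * (e₀ + bd A μ μ / 2) * τ.im))) := by ring
    _ = _ := by
        rw [← Real.exp_add]
        congr 2
        ring

end

end Pool.Agent.V11282.RL
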