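import Pool.Agent.V11282.RL.Theta
import Pool.Agent.Y813.RL.Wall

set_option autoImplicit false

/-!
# Gaussian integrals
-/

namespace Pool.Agent.V11282.RL

open Pool.Agent.Y813.RL hiding ee_add ee_int ee_zero
open MeasureTheory Set Matrix
open scoped MatrixOrder
open Pool.Agent.Y683.RL (ee_add ee_int ee_norm ee_zero ee_ne ee_neg_mul)

noncomputable section

variable {A : Matrix (Fin 20) (Fin 20) ℤ}

theorem exists_sqrt (h : PosSymm A) : ∃ B : Matrix (Fin 20) (Fin 20) ℝ, Ar A = Bᵀ * B := by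
  obtain ⟨B, hB⟩ := CStarAlgebra.nonneg_iff_eq_star_mul_self.mp (posDef h).posSemidef.nonneg
  refine ⟨B, ?_⟩
  rw [hB, Matrix.star_eq_conjTranspose, Matrix.conjTranspose_eq_transpose_of_trivial]

theorem sq_det {B : Matrix (Fin 20) (Fin 20) ℝ} (h : PosSymm A) (hB : Ar A = Bᵀ * B) :
    B.det ≠ 0 ∧ |B.det| = Real.sqrt (A.det : ℝ) := by
  have h1 : B.det ^ 2 = (A.det : ℝ) := by
    rw [← Ar_det, hB, Matrix.det_mul, Matrix.det_transpose]
    ring
  have h2 : (0 : ℝ) < (A.det : ℝ) := by exact_mod_cast det_posZ h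
  constructor
  · intro h0
    rw [h0] at h1
    simp at h1
    linarith
  · rw [← h1, Real.sqrt_sq_eq_abs]

theorem bf_sqrt {B : Matrix (Fin 20) (Fin 20) ℝ} (hB : Ar A = Bᵀ * B) (y : Fin 20 → ℝ) :
    bf A y y = ∑ i, (B.mulVec y i) ^ 2 := by
  rw [bf_dot, hB, ← Matrix.mulVec_mulVec, Matrix.dotProduct_mulVec, Matrix.vecMul_transpose]
  simp [dotProduct, sq]

theorem linear_part {B : Matrix (Fin 20) (Fin 20) ℝ} (h : PosSymm A) (hB : Ar A = Bᵀ * B)
    (μ : Fin 20 → ℤ) (y : Fin 20 → ℝ) :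
    dotProduct (B.mulVec (lam A μ)) (B.mulVec y) = dt μ y := by
  rw [← bf_lam h, bf_dot, hB, ← Matrix.mulVec_mulVec, Matrix.dotProduct_mulVec (lam A μ),
    Matrix.vecMul_transpose]

/-- the Gaussian -/
def gs (A : Matrix (Fin 20) (Fin 20) ℤ) (σ : ℂ) (μ : Fin 20 → ℤ) (y : Fin 20 → ℝ) : ℂ :=
  ee (σ / 2 * (bf A y y : ℝ)) * ee (-((dt μ y : ℝ) : ℂ))

theorem gs_eq {B : Matrix (Fin 20) (Fin 20) ℝ} (h : PosSymm A) (hB : Ar A = Bᵀ * B) (σ : ℂ)
    (μ : Fin 20 → ℤ) (y : Fin 20 → ℝ) : gs A σ μ y =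
      (fun v : Fin 20 → ℝ => Complex.exp (-(-(Real.pi * Complex.I * σ)) * ∑ i, (v i : ℂ) ^ 2 +
        ∑ i, (-(2 * Real.pi * Complex.I) * ((B.mulVec (lam A μ) i : ℝ) : ℂ)) * v i))
        (Matrix.toLin' B y) := by
  unfold gs
  rw [← ee_add]
  unfold ee
  simp only [Matrix.toLin'_apply]
  congr 1
  rw [bf_sqrt hB, ← linear_part h hB]
  unfold dotProduct
  push_cast
  rw [mul_add, Finset.mul_sum, Finset.mul_sum, Finset.mul_sum, mul_neg, Finset.mul_sum,
    ← Finset.sum_neg_distrib]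
  congr 1
  · refine Finset.sum_congr rfl fun i _ => ?_
    ring
  · refine Finset.sum_congr rfl fun i _ => ?_
    ring

theorem gs_int (h : PosSymm A) {σ : ℂ} (hσ : 0 < σ.im) (μ : Fin 20 → ℤ) :
    Integrable (gs A σ μ) ∧ ∫ y, gs A σ μ y =
      -((-1 / σ) ^ 10) / (Real.sqrt (A.det : ℝ) : ℂ) * ee ((-1 / σ) * (bd A μ μ : ℂ) / 2) := by
  obtain ⟨B, hB⟩ := exists_sqrt h
  obtain ⟨hB0, hBd⟩ := sq_det h hB
  set b : ℂ := -(Real.pi * Complex.I * σ) with hb
  set cc : Fin 20 → ℂ := fun i => -(2 * Real.pi * Complex.I) * ((B.mulVec (lam A μ) i : ℝ) : ℂ)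
    with hcc
  set f : (Fin 20 → ℝ) → ℂ := fun v => Complex.exp (-b * ∑ i, (v i : ℂ) ^ 2 +
        ∑ i, cc i * v i) with hf
  have hσ0 : σ ≠ 0 := by rintro rfl; simp at hσ
  have hbre : 0 < b.re := by
    have : b.re = Real.pi * σ.im := by simp [hb]
    rw [this]
    exact mul_pos Real.pi_pos hσ
  have hgf : gs A σ μ = fun y => f (Matrix.toLin' B y) := by
    funext y
    exact gs_eq h hB σ μ y
  have hmap := Real.map_matrix_volume_pi_eq_smul_volume_pi (M := B) hB0
  have hcl : Continuous (Matrix.toLin' B) := LinearMap.continuous_of_finiteDimensional _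
  have hfc : Continuous f := by
    simp only [hf]
    fun_prop
  have hint := GaussianFourier.integrable_cexp_neg_mul_sum_add hbre cc
  have hval := GaussianFourier.integral_cexp_neg_mul_sum_add hbre cc
  have hfm : AEStronglyMeasurable f (Measure.map (Matrix.toLin' B) volume) :=
    hfc.aestronglyMeasurable
  constructor
  · rw [hgf]
    have h1 : Integrable f (Measure.map (Matrix.toLin' B) volume) := by
      rw [hmap]
      exact Integrable.smul_measure hint ENNReal.ofReal_ne_top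
    exact (integrable_map_measure hfm hcl.aemeasurable).1 h1
  · rw [hgf, ← integral_map hcl.aemeasurable hfm, hmap, integral_smul_measure]
    rw [show (∫ y, f y) = ∫ v : Fin 20 → ℝ, Complex.exp (-b * ∑ i, (v i : ℂ) ^ 2 +
        ∑ i, cc i * v i) from rfl, hval]
    rw [ENNReal.toReal_ofReal (abs_nonneg _), abs_inv, hBd]
    have hpi : (Real.pi : ℂ) ≠ 0 := by exact_mod_cast Real.pi_ne_zero
    have hpow : ((Real.pi : ℂ) / b) ^ ((Fintype.card (Fin 20) : ℂ) / 2) = -((-1 / σ) ^ 10) := by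
      have e1 : ((Fintype.card (Fin 20) : ℂ) / 2) = ((10 : ℕ) : ℂ) := by
        simp; norm_num
      rw [e1, Complex.cpow_natCast]
      have e2 : (Real.pi : ℂ) / b = Complex.I * (1 / σ) := by
        rw [hb]
        field_simp
        rw [Complex.I_sq]
      rw [e2, mul_pow, show (-1 / σ) = -(1 / σ) by ring, neg_pow]
      have e3 : Complex.I ^ 10 = -1 := by
        rw [show (10 : ℕ) = 2 * 5 by norm_num, pow_mul, Complex.I_sq]
        norm_num
      rw [e3]
      ring
    have hexp : Complex.exp ((∑ i, cc i ^ 2) / (4 * b)) = ee ((-1 / σ) * (bd A μ μ : ℂ) / 2) := by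
      unfold ee
      congr 1
      have e4 : ∑ i, cc i ^ 2 = -(4 * Real.pi ^ 2) * (bd A μ μ : ℂ) := by
        have e5 := linear_part h hB μ (lam A μ)
        have e6 : dt μ (lam A μ) = bd A μ μ := rfl
        rw [e6] at e5
        rw [← e5]
        unfold dotProduct
        push_cast
        rw [Finset.mul_sum]
        refine Finset.sum_congr rfl fun i _ => ?_
        simp only [hcc]
        rw [mul_pow, neg_sq, mul_pow, Complex.I_sq]
        ring
      rw [e4, hb]
      field_simp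
      rw [Complex.I_sq]
      ring
    rw [hpow, hexp, Complex.real_smul]
    push_cast
    ring

end

end Pool.Agent.V11282.RL
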