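import Pool.Agent.V11282.RL.Bd

set_option autoImplicit false

/-!
# The discriminant group
-/

namespace Pool.Agent.V11282.RL

open Pool.Agent.Y813.RL Finset

noncomputable section

/-- even symmetric matrices of determinant four with the discriminant form of `D_4` -/
structure D4T {ι : Type} [Fintype ι] [DecidableEq ι] (B : Matrix ι ι ℤ) : Prop where
  symm : B.IsSymm
  even : ∀ i, Even (B i i)
  det : B.det = 4
  vecs : ∃ v₁ v₂ μ₁ μ₂ : ι → ℤ, ∃ a b c : ℤ, B.mulVec v₁ = 2 • μ₁ ∧ B.mulVec v₂ = 2 • μ₂ ∧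
    μ₁ ⬝ᵥ v₁ = 2 * (2 * a + 1) ∧ μ₁ ⬝ᵥ v₂ = 2 * b + 1 ∧ μ₂ ⬝ᵥ v₂ = 2 * (2 * c + 1)

variable {G : Matrix (Fin 20) (Fin 20) ℤ}

theorem bd_int_left (h : PosSymm G) {μ : Fin 20 → ℤ} (hμ : μ ∈ subL G) (ν : Fin 20 → ℤ) :
    ∃ k : ℤ, bd G μ ν = k := by
  obtain ⟨v, rfl⟩ := (mem_subL _).1 hμ
  exact ⟨_, bd_mulVec_left h ν v⟩

theorem two_mem (h : PosSymm G)
    (hd : ∀ μ, (¬ ∃ v : Fin 20 → ℤ, μ = G.mulVec v) → ∃ k : ℤ, bd G μ μ = 2 * k + 1)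
    (μ : Fin 20 → ℤ) : μ + μ ∈ subL G := by
  by_cases hμ : μ ∈ subL G
  · exact add_mem hμ hμ
  · by_contra h2
    rw [mem_subL] at hμ h2
    obtain ⟨k, hk⟩ := hd μ hμ
    obtain ⟨l, hl⟩ := hd _ h2
    have h3 : bd G (μ + μ) (μ + μ) = 4 * bd G μ μ := by
      rw [bd_add_left, bd_add_right]
      ring
    rw [h3, hk] at hl
    have h4 : 4 * (2 * k + 1) = 2 * l + 1 := by exact_mod_cast hl
    omega

theorem pair_odd (h : PosSymm G)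
    (hd : ∀ μ, (¬ ∃ v : Fin 20 → ℤ, μ = G.mulVec v) → ∃ k : ℤ, bd G μ μ = 2 * k + 1)
    {μ ν : Fin 20 → ℤ} (hμ : μ ∉ subL G) (hν : ν ∉ subL G) (hμν : μ + ν ∉ subL G) :
    ∃ k : ℤ, 2 * bd G μ ν = 2 * k + 1 := by
  rw [mem_subL] at hμ hν hμν
  obtain ⟨a, ha⟩ := hd μ hμ
  obtain ⟨b, hb⟩ := hd ν hν
  obtain ⟨c, hc⟩ := hd _ hμν
  refine ⟨c - a - b - 1, ?_⟩
  have h1 : bd G (μ + ν) (μ + ν) = bd G μ μ + 2 * bd G μ ν + bd G ν ν := by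
    rw [bd_add_left, bd_add_right, bd_add_right, bd_comm h ν μ]
    ring
  rw [h1] at hc
  push_cast
  linarith

theorem d4t_of_disc (h : PosSymm G) (he : ∀ i, Even (G i i))
    (hd : ∀ μ, (¬ ∃ v : Fin 20 → ℤ, μ = G.mulVec v) → ∃ k : ℤ, bd G μ μ = 2 * k + 1)
    (hdet : G.det ≠ 1) : D4T G := by
  classical
  have h2 := two_mem h hd
  have hneg : ∀ {μ ν : Fin 20 → ℤ}, μ - ν ∉ subL G → μ + ν ∉ subL G := by
    intro μ ν h1 h3
    apply h1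
    have : μ - ν = (μ + ν) - (ν + ν) := by abel
    rw [this]
    exact sub_mem h3 (h2 ν)
  have hneg' : ∀ {μ ν : Fin 20 → ℤ}, μ + ν ∉ subL G → μ - ν ∉ subL G := by
    intro μ ν h1 h3
    apply h1
    have : μ + ν = (μ - ν) + (ν + ν) := by abel
    rw [this]
    exact add_mem h3 (h2 ν)
  -- a nonzero class
  obtain ⟨μ₁, hμ₁⟩ : ∃ μ₁, μ₁ ∉ subL G := by
    by_contra hcon
    push Not at hcon
    apply hdet
    have hR : IsReps G {0} := by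
      intro μ
      obtain ⟨v, hv⟩ := (mem_subL _).1 (hcon μ)
      refine ⟨0, ⟨by simp, v, by rw [hv, zero_add]⟩, fun ρ hρ => by simpa using hρ.1⟩
    rw [← card_reps h hR]
    simp
  obtain ⟨μ₂, hμ₂⟩ : ∃ μ₂, ¬ ∃ k : ℤ, bd G μ₂ μ₁ = k := by
    by_contra hcon
    push Not at hcon
    exact hμ₁ ((mem_subL _).2 (mem_of_bd_int h μ₁ hcon))
  have hn2 : μ₂ ∉ subL G := fun hm => hμ₂ (bd_int_left h hm μ₁)
  have hn12 : μ₁ + μ₂ ∉ subL G := by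
    intro hm
    apply hμ₂
    obtain ⟨k, hk⟩ := bd_int_left h hm μ₁
    obtain ⟨l, hl⟩ := hd μ₁ (by rwa [mem_subL] at hμ₁)
    refine ⟨k - (2 * l + 1), ?_⟩
    rw [bd_add_left] at hk
    push_cast
    linarith
  obtain ⟨b, hb⟩ := pair_odd h hd hμ₁ hn2 hn12
  -- completeness
  have hall : ∀ ν : Fin 20 → ℤ, ν ∉ subL G → ν - μ₁ ∉ subL G → ν - μ₂ ∉ subL G →
      ν - (μ₁ + μ₂) ∈ subL G := by
    intro ν h3 h4 h5
    by_contra h6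
    obtain ⟨a, ha⟩ := pair_odd h hd h3 hμ₁ (hneg h4)
    obtain ⟨c, hc⟩ := pair_odd h hd h5 hμ₁ (hneg (by
      have : ν - μ₂ - μ₁ = ν - (μ₁ + μ₂) := by abel
      rw [this]
      exact h6))
    rw [bd_sub_left] at hc
    rw [bd_comm h μ₁ μ₂] at hb
    have : ((2 * a + 1 : ℤ) : ℝ) - ((2 * b + 1 : ℤ) : ℝ) = ((2 * c + 1 : ℤ) : ℝ) := by
      push_cast
      linarith
    have : (2 * a + 1) - (2 * b + 1) = 2 * c + 1 := by exact_mod_cast this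
    omega
  -- representatives
  have hz : (0 : Fin 20 → ℤ) ∈ subL G := zero_mem _
  have hsub : ∀ {μ ν : Fin 20 → ℤ}, μ - ν ∉ subL G → ν - μ ∉ subL G := by
    intro μ ν h3 h4
    apply h3
    have : μ - ν = -(ν - μ) := by abel
    rw [this]
    exact neg_mem h4
  have hR : IsReps G {0, μ₁, μ₂, μ₁ + μ₂} := by
    have hmem : ∀ ρ : Fin 20 → ℤ, ρ ∈ ({0, μ₁, μ₂, μ₁ + μ₂} : Finset (Fin 20 → ℤ)) ↔
        ρ = 0 ∨ ρ = μ₁ ∨ ρ = μ₂ ∨ ρ = μ₁ + μ₂ := by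
      intro ρ
      simp only [mem_insert, mem_singleton]
    have hdist : ∀ ρ ρ' : Fin 20 → ℤ, (ρ = 0 ∨ ρ = μ₁ ∨ ρ = μ₂ ∨ ρ = μ₁ + μ₂) →
        (ρ' = 0 ∨ ρ' = μ₁ ∨ ρ' = μ₂ ∨ ρ' = μ₁ + μ₂) → ρ - ρ' ∈ subL G → ρ = ρ' := by
      have d01 : μ₁ - 0 ∉ subL G := by rwa [sub_zero]
      have d02 : μ₂ - 0 ∉ subL G := by rwa [sub_zero]
      have d012 : μ₁ + μ₂ - 0 ∉ subL G := by rwa [sub_zero]
      have d12 : μ₁ - μ₂ ∉ subL G := hneg' hn12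
      have d112 : μ₁ - (μ₁ + μ₂) ∉ subL G := by
        have : μ₁ - (μ₁ + μ₂) = -μ₂ := by abel
        rw [this, neg_mem_iff]
        exact hn2
      have d212 : μ₂ - (μ₁ + μ₂) ∉ subL G := by
        have : μ₂ - (μ₁ + μ₂) = -μ₁ := by abel
        rw [this, neg_mem_iff]
        exact hμ₁
      rintro ρ ρ' (rfl | rfl | rfl | rfl) (rfl | rfl | rfl | rfl) hm
      · rfl
      · exact absurd hm (hsub d01)
      · exact absurd hm (hsub d02)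
      · exact absurd hm (hsub d012)
      · exact absurd hm d01
      · rfl
      · exact absurd hm d12
      · exact absurd hm d112
      · exact absurd hm d02
      · exact absurd hm (hsub d12)
      · rfl
      · exact absurd hm d212
      · exact absurd hm d012
      · exact absurd hm (hsub d112)
      · exact absurd hm (hsub d212)
      · rfl
    intro μ
    have hex : ∃ ρ, (ρ = 0 ∨ ρ = μ₁ ∨ ρ = μ₂ ∨ ρ = μ₁ + μ₂) ∧ μ - ρ ∈ subL G := by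
      by_cases h3 : μ ∈ subL G
      · exact ⟨0, Or.inl rfl, by rwa [sub_zero]⟩
      by_cases h4 : μ - μ₁ ∈ subL G
      · exact ⟨μ₁, Or.inr (Or.inl rfl), h4⟩
      by_cases h5 : μ - μ₂ ∈ subL G
      · exact ⟨μ₂, Or.inr (Or.inr (Or.inl rfl)), h5⟩
      · exact ⟨μ₁ + μ₂, Or.inr (Or.inr (Or.inr rfl)), hall μ h3 h4 h5⟩
    obtain ⟨ρ, hρ, hρm⟩ := hex
    refine ⟨ρ, ⟨(hmem ρ).2 hρ, ?_⟩, ?_⟩
    · obtain ⟨v, hv⟩ := (mem_subL _).1 hρm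
      exact ⟨v, by rw [← hv]; abel⟩
    · rintro ρ' ⟨hρ', v, hv⟩
      apply hdist ρ' ρ ((hmem ρ').1 hρ') hρ
      have h3 : μ - ρ' ∈ subL G := (mem_subL _).2 ⟨v, by rw [hv]; abel⟩
      have : ρ' - ρ = (μ - ρ) - (μ - ρ') := by abel
      rw [this]
      exact sub_mem hρm h3
  have hcard : ({0, μ₁, μ₂, μ₁ + μ₂} : Finset (Fin 20 → ℤ)).card = 4 := by
    have e1 : (0 : Fin 20 → ℤ) ≠ μ₁ := fun e => hμ₁ (e ▸ hz)
    have e2 : (0 : Fin 20 → ℤ) ≠ μ₂ := fun e => hn2 (e ▸ hz)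
    have e3 : (0 : Fin 20 → ℤ) ≠ μ₁ + μ₂ := fun e => hn12 (e ▸ hz)
    have e4 : μ₁ ≠ μ₂ := by
      rintro rfl
      exact hn12 (h2 _)
    have e5 : μ₁ ≠ μ₁ + μ₂ := by
      intro e
      exact e2 (by simpa using e : μ₂ = 0).symm
    have e6 : μ₂ ≠ μ₁ + μ₂ := by
      intro e
      exact e1 (by simpa using e : μ₁ = 0).symm
    rw [card_insert_of_notMem (by simp [e1, e2, e3]), card_insert_of_notMem (by simp [e4, e5]),
      card_insert_of_notMem (by simp [e6]), card_singleton]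
  have hdet4 : G.det = 4 := by
    rw [← card_reps h hR, hcard]
    norm_num
  -- the vectors
  obtain ⟨v₁, hv₁⟩ := (mem_subL _).1 (h2 μ₁)
  obtain ⟨v₂, hv₂⟩ := (mem_subL _).1 (h2 μ₂)
  obtain ⟨a, ha⟩ := hd μ₁ (by rwa [mem_subL] at hμ₁)
  obtain ⟨c, hc⟩ := hd μ₂ (by rwa [mem_subL] at hn2)
  have k1 : ∀ (μ ν : Fin 20 → ℤ) (v : Fin 20 → ℤ), ν + ν = G.mulVec v →
      ((μ ⬝ᵥ v : ℤ) : ℝ) = 2 * bd G μ ν := by
    intro μ ν v hv
    rw [← bd_mulVec_right h, ← hv, bd_add_right]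
    ring
  refine ⟨h.symm, he, hdet4, v₁, v₂, μ₁, μ₂, a, b, c, ?_, ?_, ?_, ?_, ?_⟩
  · rw [← hv₁, two_smul]
  · rw [← hv₂, two_smul]
  · have := k1 μ₁ μ₁ v₁ hv₁
    rw [ha] at this
    exact_mod_cast this
  · have := k1 μ₁ μ₂ v₂ hv₂
    rw [hb] at this
    exact_mod_cast this
  · have := k1 μ₂ μ₂ v₂ hv₂
    rw [hc] at this
    exact_mod_cast this

end

end Pool.Agent.V11282.RL
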