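import Pool.Agent.V11282.RL.Two
import Pool.Agent.V11282.RL.Gen1

set_option autoImplicit false

/-!
# The genus
-/

namespace Pool.Agent.V11282.RL

open Finset Matrix
open Pool.Agent.Y813.RL (bf PosSymm SameGenus gramEED bd)

noncomputable section

variable {ι κ : Type} [Fintype ι] [DecidableEq ι] [Fintype κ] [DecidableEq κ]

/-- the matrix over a ring -/
def mp (R : Type) [CommRing R] (B : Matrix ι ι ℤ) : Matrix ι ι R := B.map (Int.castRingHom R)

omit [DecidableEq ι] in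
theorem bf_bl {R : Type} [CommRing R] (B : Matrix ι ι ℤ) (x y : ι → R) :
    bf B x y = bl (mp R B) x y := by
  unfold bf bl mp Matrix.mulVec dotProduct
  refine Finset.sum_congr rfl fun i _ => ?_
  simp only [Finset.mul_sum]
  refine Finset.sum_congr rfl fun j _ => ?_
  simp [mul_assoc]

omit [Fintype ι] [DecidableEq ι] in
theorem mp_symm {R : Type} [CommRing R] {B : Matrix ι ι ℤ} (hB : B.IsSymm) : (mp R B).IsSymm :=
  hB.map _

theorem mp_det {R : Type} [CommRing R] (B : Matrix ι ι ℤ) : (mp R B).det = (B.det : R) := by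
  have := (Int.castRingHom R).map_det B
  rw [RingHom.mapMatrix_apply] at this
  exact this.symm

theorem ev_of_diag {R : Type} [CommRing R] {B : Matrix ι ι ℤ} (hB : B.IsSymm)
    (he : ∀ i, Even (B i i)) : Ev (mp R B) := by
  classical
  -- the quotient by two
  let I : Ideal R := Ideal.span {2}
  have h2 : (2 : R) ∈ I := Ideal.subset_span rfl
  let f : (ι → R) →+ R ⧸ I :=
    { toFun := fun v => Ideal.Quotient.mk I (bl (mp R B) v v)
      map_zero' := by rw [bl_zero_left, map_zero]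
      map_add' := by
        intro x y
        rw [bl_add_left, bl_add_right, bl_add_right, bl_comm (mp_symm hB) y x, ← map_add,
          Ideal.Quotient.eq]
        have : bl (mp R B) x x + bl (mp R B) x y + (bl (mp R B) x y + bl (mp R B) y y) -
            (bl (mp R B) x x + bl (mp R B) y y) = bl (mp R B) x y * 2 := by ring
        rw [this]
        exact Ideal.mul_mem_left _ _ h2 }
  have hf : f = 0 := by
    apply AddMonoidHom.functions_ext
    intro i n
    have h1 : bl (mp R B) (Pi.single i n) (Pi.single i n) = n * n * (B i i : R) := by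
      have : (Pi.single i n : ι → R) = n • Pi.single i 1 := by
        rw [← Pi.single_smul, smul_eq_mul, mul_one]
      rw [this, bl_smul_left, bl_smul_right, bl_single]
      simp [mp]
      ring
    show Ideal.Quotient.mk I (bl (mp R B) (Pi.single i n) (Pi.single i n)) = 0
    rw [h1, Ideal.Quotient.eq_zero_iff_mem]
    obtain ⟨t, ht⟩ := he i
    rw [ht]
    have : n * n * ((t + t : ℤ) : R) = (n * n * (t : R)) * 2 := by
      push_cast
      ring
    rw [this]
    exact Ideal.mul_mem_left _ _ h2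
  intro x
  have h3 : Ideal.Quotient.mk I (bl (mp R B) x x) = 0 := DFunLike.congr_fun hf x
  rw [Ideal.Quotient.eq_zero_iff_mem, Ideal.mem_span_singleton] at h3
  exact h3

/-- the odd primes -/
theorem local_odd {p : ℕ} [Fact p.Prime] (hp : p ≠ 2) {B : Matrix ι ι ℤ} {C : Matrix κ κ ℤ}
    (hB : D4T B) (hC : D4T C) (hc : Fintype.card ι = Fintype.card κ) :
    Isom (mp ℤ_[p] B) (mp ℤ_[p] C) := by
  let σ : ι ≃ Fin (Fintype.card ι) := Fintype.equivFin ι
  let τ : κ ≃ Fin (Fintype.card ι) := Fintype.equivFinOfCardEq hc.symm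
  have h4 : IsUnit (4 : ℤ_[p]) := by
    rw [unit_iff]
    have h2 : PadicInt.toZMod (p := p) 4 = 4 := map_ofNat _ 4
    rw [h2]
    have h3 : (4 : ZMod p) = 2 * 2 := by norm_num
    rw [h3]
    exact mul_ne_zero (two_ne hp) (two_ne hp)
  have e1 : (mp ℤ_[p] B).det = 4 := by rw [mp_det, hB.det]; norm_num
  have e2 : (mp ℤ_[p] C).det = 4 := by rw [mp_det, hC.det]; norm_num
  refine ((Isom.reindex (mp ℤ_[p] B) σ).trans ?_).trans (Isom.reindex (mp ℤ_[p] C) τ).symm
  apply odd_class hp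
  · exact (mp_symm hB.symm).submatrix _
  · exact (mp_symm hC.symm).submatrix _
  · rw [Matrix.det_submatrix_equiv_self, e1]; exact h4
  · rw [Matrix.det_submatrix_equiv_self, e2]; exact h4
  · rw [Matrix.det_submatrix_equiv_self, Matrix.det_submatrix_equiv_self, e1, e2]
    exact SqEq.refl _

/-- the decomposition at two -/
theorem local_two {B : Matrix ι ι ℤ} (hB : D4T B) :
    ∃ (m : ℕ) (B' : Matrix (Fin m) (Fin m) ℤ_[2]), B'.IsSymm ∧ Ev B' ∧ IsUnit B'.det ∧
      SqEq (3 * B'.det) 1 ∧ Isom (ds ((2 : ℤ_[2]) • V2) B') (mp ℤ_[2] B) ∧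
      2 + m = Fintype.card ι := by
  obtain ⟨v₁, v₂, μ₁, μ₂, a, b, c, hv₁, hv₂, h11, h12, h22⟩ := hB.vecs
  have hs := mp_symm (R := ℤ_[2]) hB.symm
  -- casts
  let q : (ι → ℤ) → ι → ℤ_[2] := fun v i => (v i : ℤ_[2])
  have hdot : ∀ v w : ι → ℤ, q v ⬝ᵥ q w = ((v ⬝ᵥ w : ℤ) : ℤ_[2]) := by
    intro v w
    simp [q, dotProduct]
  have hmul : ∀ v : ι → ℤ, (mp ℤ_[2] B).mulVec (q v) = q (B.mulVec v) := by
    intro v
    ext i
    simp [q, mp, Matrix.mulVec, dotProduct]
  have hpair₁ : ∀ z : ι → ℤ_[2], bl (mp ℤ_[2] B) z (q v₁) = 2 * (z ⬝ᵥ q μ₁) := by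
    intro z
    unfold bl
    rw [hmul, hv₁]
    have : q (2 • μ₁) = (2 : ℤ_[2]) • q μ₁ := by
      ext i
      simp [q]
    rw [this, dotProduct_smul, smul_eq_mul]
  have hpair₂ : ∀ z : ι → ℤ_[2], bl (mp ℤ_[2] B) z (q v₂) = 2 * (z ⬝ᵥ q μ₂) := by
    intro z
    unfold bl
    rw [hmul, hv₂]
    have : q (2 • μ₂) = (2 : ℤ_[2]) • q μ₂ := by
      ext i
      simp [q]
    rw [this, dotProduct_smul, smul_eq_mul]
  let A' : Matrix (Fin 2) (Fin 2) ℤ_[2] :=
    !![2 * (2 * (a : ℤ_[2]) + 1), 2 * (b : ℤ_[2]) + 1; 2 * (b : ℤ_[2]) + 1,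
      2 * (2 * (c : ℤ_[2]) + 1)]
  have hA's : A'.IsSymm := by
    ext i j
    fin_cases i <;> fin_cases j <;> rfl
  have hodd : ∀ t : ℤ_[2], IsUnit (2 * t + 1) := by
    intro t
    rw [unit_iff2, map_add, map_mul, toZ_two, map_one]
    ring
  have hA' : IsUnit A'.det := by
    rw [Matrix.det_fin_two_of]
    have : 2 * (2 * (a : ℤ_[2]) + 1) * (2 * (2 * (c : ℤ_[2]) + 1)) -
        (2 * (b : ℤ_[2]) + 1) * (2 * (b : ℤ_[2]) + 1) =
        2 * ((2 * (2 * (a : ℤ_[2]) + 1) * (2 * (c : ℤ_[2]) + 1)) - 2 * b ^ 2 - 2 * b - 1) + 1 := by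
      ring
    rw [this]
    exact hodd _
  have hA'V : Isom A' V2 := by
    obtain ⟨m, B₀, _, hiso, hm⟩ := split_V (a := 2 * (a : ℤ_[2]) + 1) (c := 2 * (c : ℤ_[2]) + 1)
      (β := 2 * (b : ℤ_[2]) + 1) hA's (bl_single A' 0 0) (bl_single A' 0 1) (bl_single A' 1 1)
      (hodd _) (hodd _) (hodd _)
    rw [Fintype.card_fin] at hm
    obtain rfl : m = 0 := by omega
    exact hiso.symm.trans (isom_ds_empty V2 B₀)
  have hAmul : ∀ c, ((2 : ℤ_[2]) • A').mulVec c = (2 : ℤ_[2]) • A'.mulVec c := by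
    intro c
    rw [Matrix.smul_mulVec]
  have h2ne : (2 : ℤ_[2]) ≠ 0 := two_ne_zero
  obtain ⟨m, B', hs', hiso, hm⟩ := split hs ![q v₁, q v₂] ((2 : ℤ_[2]) • A') (by
    intro k l
    fin_cases k <;> fin_cases l
    · show 2 * (2 * (2 * (a : ℤ_[2]) + 1)) = bl (mp ℤ_[2] B) (q v₁) (q v₁)
      rw [hpair₁, dotProduct_comm, hdot, h11]
      push_cast
      ring
    · show 2 * (2 * (b : ℤ_[2]) + 1) = bl (mp ℤ_[2] B) (q v₁) (q v₂)
      rw [bl_comm hs, hpair₁, dotProduct_comm, hdot, h12]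
      push_cast
      ring
    · show 2 * (2 * (b : ℤ_[2]) + 1) = bl (mp ℤ_[2] B) (q v₂) (q v₁)
      rw [hpair₁, dotProduct_comm, hdot, h12]
      push_cast
      ring
    · show 2 * (2 * (2 * (c : ℤ_[2]) + 1)) = bl (mp ℤ_[2] B) (q v₂) (q v₂)
      rw [hpair₂, dotProduct_comm, hdot, h22]
      push_cast
      ring) (by
    intro w hw
    rw [hAmul] at hw
    have h0 : A'.mulVec w = 0 := (smul_eq_zero.1 hw).resolve_left h2ne
    rw [← Matrix.one_mulVec w, ← Matrix.nonsing_inv_mul A' hA', ← Matrix.mulVec_mulVec, h0,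
      Matrix.mulVec_zero]) (by
    intro z
    refine ⟨A'⁻¹.mulVec ![z ⬝ᵥ q μ₁, z ⬝ᵥ q μ₂], ?_⟩
    rw [hAmul, Matrix.mulVec_mulVec, Matrix.mul_nonsing_inv A' hA', Matrix.one_mulVec]
    funext k
    fin_cases k
    · show 2 * (z ⬝ᵥ q μ₁) = bl (mp ℤ_[2] B) (q v₁) z
      rw [bl_comm hs, hpair₁]
    · show 2 * (z ⬝ᵥ q μ₂) = bl (mp ℤ_[2] B) (q v₂) z
      rw [bl_comm hs, hpair₂])
  rw [Fintype.card_fin] at hm
  have hd : SqEq _ _ := isom_det hiso
  rw [det_ds, Matrix.det_smul, Fintype.card_fin, mp_det, hB.det] at hd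
  have hd2 : SqEq (A'.det * B'.det) 1 := by
    obtain ⟨u, hu, h⟩ := hd
    refine ⟨u, hu, ?_⟩
    have h4 : (4 : ℤ_[2]) ≠ 0 := by
      have : (4 : ℤ_[2]) = 2 * 2 := by norm_num
      rw [this]
      exact mul_ne_zero h2ne h2ne
    apply mul_left_cancel₀ h4
    push_cast at h
    linear_combination h
  have hdV : SqEq V2.det A'.det := isom_det hA'V.symm
  rw [V2_det] at hdV
  have hd3 : SqEq (3 * B'.det) 1 := (hdV.mul (SqEq.refl B'.det)).trans hd2
  refine ⟨m, B', hs', (hiso.symm.ev (ev_of_diag hB.symm hB.even)).right,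
    isUnit_of_mul_isUnit_right (hd3.isUnit isUnit_one), hd3, ?_, hm⟩
  exact ((hA'V.symm.smul 2).ds (Isom.refl B')).trans hiso

/-- the prime two -/
theorem local_two_isom {B : Matrix ι ι ℤ} {C : Matrix κ κ ℤ}
    (hB : D4T B) (hC : D4T C) (hc : Fintype.card ι = Fintype.card κ) :
    Isom (mp ℤ_[2] B) (mp ℤ_[2] C) := by
  obtain ⟨m, B', hs, hev, hu, hsq, hiso, hm⟩ := local_two hB
  obtain ⟨m', C', hs', hev', hu', hsq', hiso', hm'⟩ := local_two hC
  obtain rfl : m' = m := by omega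
  have h3 : IsUnit (3 : ℤ_[2]) := isUnit_of_mul_isUnit_left (hsq.isUnit isUnit_one)
  have hdet : SqEq B'.det C'.det := SqEq.cancel h3 (hsq.trans hsq'.symm)
  exact hiso.symm.trans (((Isom.refl _).ds (two_class m' B' C' hs hs' hev hev' hu hu' hdet)).trans
    hiso')

open scoped MatrixOrder in
theorem exists_root {B : Matrix ι ι ℝ} (h : B.PosSemidef) : ∃ P : Matrix ι ι ℝ, B = Pᵀ * P := by
  obtain ⟨P, hP⟩ := CStarAlgebra.nonneg_iff_eq_star_mul_self.mp h.nonneg
  refine ⟨P, ?_⟩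
  rw [hP, Matrix.star_eq_conjTranspose, Matrix.conjTranspose_eq_transpose_of_trivial]

/-- positive definite real matrices -/
theorem real_one {B : Matrix ι ι ℝ} (hs : B.IsSymm) (hp : ∀ x, x ≠ 0 → 0 < bl B x x) :
    Isom B (1 : Matrix ι ι ℝ) := by
  have hpd : B.PosDef := by
    refine Matrix.PosDef.of_dotProduct_mulVec_pos ?_ fun x hx => ?_
    · rw [Matrix.IsHermitian, Matrix.conjTranspose_eq_transpose_of_trivial]
      exact hs
    · have := hp x hx
      simpa [bl] using this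
  obtain ⟨P, hP⟩ := exists_root hpd.posSemidef
  have hdet : P.det ≠ 0 := by
    intro h0
    have h1 := hpd.det_pos
    rw [hP, Matrix.det_mul, h0, mul_zero] at h1
    exact lt_irrefl _ h1
  have hu : IsUnit P.det := isUnit_iff_ne_zero.2 hdet
  refine ⟨LinearEquiv.ofBijective (Matrix.mulVecLin P) ⟨?_, ?_⟩, fun x y => ?_⟩
  · intro x y hxy
    have hxy' : P.mulVec x = P.mulVec y := hxy
    rw [← Matrix.one_mulVec x, ← Matrix.one_mulVec y, ← Matrix.nonsing_inv_mul P hu,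
      ← Matrix.mulVec_mulVec, ← Matrix.mulVec_mulVec, hxy']
  · intro y
    refine ⟨P⁻¹.mulVec y, ?_⟩
    show P.mulVec (P⁻¹.mulVec y) = y
    rw [Matrix.mulVec_mulVec, Matrix.mul_nonsing_inv P hu, Matrix.one_mulVec]
  · show bl 1 (P.mulVec x) (P.mulVec y) = bl B x y
    unfold bl
    rw [Matrix.one_mulVec, hP, ← Matrix.mulVec_mulVec, Matrix.dotProduct_mulVec x,
      Matrix.vecMul_transpose]

theorem real_isom {B : Matrix ι ι ℝ} {C : Matrix κ κ ℝ} (hs : B.IsSymm)
    (hp : ∀ x, x ≠ 0 → 0 < bl B x x) (hs' : C.IsSymm) (hp' : ∀ x, x ≠ 0 → 0 < bl C x x)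
    (hc : Fintype.card ι = Fintype.card κ) : Isom B C := by
  have σ : ι ≃ κ := Fintype.equivOfCardEq hc
  have h1 : Isom (1 : Matrix ι ι ℝ) (1 : Matrix κ κ ℝ) := by
    have h := Isom.reindex (1 : Matrix ι ι ℝ) σ
    rwa [Matrix.submatrix_one_equiv] at h
  exact (real_one hs hp).trans (h1.trans (real_one hs' hp').symm)

/-- **Lattices with the discriminant form of `D_4` and the same rank are in the same genus.** -/
theorem same_genus {B : Matrix ι ι ℤ} {C : Matrix κ κ ℤ} (hB : D4T B) (hC : D4T C)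
    (hpB : ∀ x : ι → ℝ, x ≠ 0 → 0 < bf B x x) (hpC : ∀ x : κ → ℝ, x ≠ 0 → 0 < bf C x x)
    (hc : Fintype.card ι = Fintype.card κ) : SameGenus B C := by
  constructor
  · obtain ⟨e, he⟩ := real_isom (mp_symm (R := ℝ) hB.symm)
      (fun x hx => by rw [← bf_bl]; exact hpB x hx) (mp_symm (R := ℝ) hC.symm)
      (fun x hx => by rw [← bf_bl]; exact hpC x hx) hc
    exact ⟨e, fun x y => by rw [bf_bl, bf_bl, he]⟩
  · intro p hp
    by_cases h2 : p = 2
    · subst h2
      have hh : hp = ⟨Nat.prime_two⟩ := rfl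
      obtain ⟨e, he⟩ := local_two_isom hB hC hc
      exact ⟨e, fun x y => by rw [bf_bl, bf_bl]; exact he x y⟩
    · obtain ⟨e, he⟩ := local_odd (p := p) h2 hB hC hc
      exact ⟨e, fun x y => by rw [bf_bl, bf_bl, he]⟩

end

end Pool.Agent.V11282.RL
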