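import Pool.Agent.V11282.RL.Loc

set_option autoImplicit false

/-!
# Unimodular symmetric matrices over the p-adic integers, p odd
-/

namespace Pool.Agent.V11282.RL

open Finset Matrix

noncomputable section

/-- equality up to the square of a unit -/
def SqEq {R : Type} [CommRing R] (a b : R) : Prop := ∃ u : R, IsUnit u ∧ a = u ^ 2 * b

theorem SqEq.symm {R : Type} [CommRing R] {a b : R} (h : SqEq a b) : SqEq b a := by
  obtain ⟨u, hu, h⟩ := h
  obtain ⟨v, rfl⟩ := hu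
  refine ⟨(v⁻¹ : Rˣ), Units.isUnit _, ?_⟩
  rw [h, ← mul_assoc, ← mul_pow, Units.inv_mul, one_pow, one_mul]

theorem SqEq.trans {R : Type} [CommRing R] {a b c : R} (h : SqEq a b) (h' : SqEq b c) :
    SqEq a c := by
  obtain ⟨u, hu, rfl⟩ := h
  obtain ⟨v, hv, rfl⟩ := h'
  exact ⟨u * v, hu.mul hv, by ring⟩

theorem SqEq.mul {R : Type} [CommRing R] {a b c d : R} (h : SqEq a b) (h' : SqEq c d) :
    SqEq (a * c) (b * d) := by
  obtain ⟨u, hu, rfl⟩ := h
  obtain ⟨v, hv, rfl⟩ := h'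
  exact ⟨u * v, hu.mul hv, by ring⟩

theorem SqEq.refl {R : Type} [CommRing R] (a : R) : SqEq a a := ⟨1, isUnit_one, by ring⟩

theorem SqEq.cancel {R : Type} [CommRing R] {a b c : R} (ha : IsUnit a)
    (h : SqEq (a * b) (a * c)) : SqEq b c := by
  obtain ⟨u, hu, h⟩ := h
  refine ⟨u, hu, ?_⟩
  have : a * b = a * (u ^ 2 * c) := by rw [h]; ring
  exact ha.mul_left_cancel this

theorem SqEq.isUnit {R : Type} [CommRing R] {a b : R} (h : SqEq a b) (hb : IsUnit b) :
    IsUnit a := by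
  obtain ⟨u, hu, rfl⟩ := h
  exact (hu.pow 2).mul hb

theorem split' {R : Type} [CommRing R] [IsDomain R] [IsPrincipalIdealRing R]
    {ι κ : Type} [Fintype ι] [Fintype κ] [DecidableEq κ]
    {B : Matrix ι ι R} (hB : B.IsSymm) (X : κ → ι → R) (A : Matrix κ κ R)
    (hA : ∀ k l, A k l = bl B (X k) (X l)) (hu : IsUnit A.det) :
    ∃ (n : ℕ) (B' : Matrix (Fin n) (Fin n) R), B'.IsSymm ∧ Isom (ds A B') B ∧
      Fintype.card κ + n = Fintype.card ι := by
  refine split hB X A hA (fun c hc => ?_) (fun z => ⟨A⁻¹.mulVec fun k => bl B (X k) z, ?_⟩)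
  · rw [← Matrix.one_mulVec c, ← Matrix.nonsing_inv_mul A hu, ← Matrix.mulVec_mulVec, hc,
      Matrix.mulVec_zero]
  · rw [Matrix.mulVec_mulVec, Matrix.mul_nonsing_inv A hu, Matrix.one_mulVec]

section padic

variable {p : ℕ} [Fact p.Prime]

theorem unit_iff (z : ℤ_[p]) : IsUnit z ↔ PadicInt.toZMod z ≠ 0 := by
  rw [← not_iff_not, not_not, ← RingHom.mem_ker, PadicInt.ker_toZMod, IsLocalRing.mem_maximalIdeal]
  rfl

theorem hensel_quad (A B C x₀ : ℤ_[p]) (h1 : ¬ IsUnit (A * x₀ ^ 2 + B * x₀ + C))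
    (h2 : IsUnit (2 * A * x₀ + B)) : ∃ x, A * x ^ 2 + B * x + C = 0 := by
  let F : Polynomial ℤ_[p] :=
    Polynomial.C A * Polynomial.X ^ 2 + Polynomial.C B * Polynomial.X + Polynomial.C C
  have e1 : ∀ x, F.aeval x = A * x ^ 2 + B * x + C := by
    intro x
    simp [F]
  have e2 : F.derivative.aeval x₀ = 2 * A * x₀ + B := by
    simp [F, Polynomial.derivative_pow]
    ring
  obtain ⟨z, hz, _⟩ := hensels_lemma (F := F) (a := x₀) (by
    rw [e1, e2, PadicInt.isUnit_iff.1 h2, one_pow]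
    exact PadicInt.not_isUnit_iff.1 h1)
  exact ⟨z, by rw [← e1, hz]⟩

theorem ent_unit {n : ℕ} (hn : 0 < n) {B : Matrix (Fin n) (Fin n) ℤ_[p]} (hB : IsUnit B.det) :
    ∃ i j, IsUnit (B i j) := by
  by_contra hcon
  push Not at hcon
  have h1 : B.map (PadicInt.toZMod (p := p)) = 0 := by
    ext i j
    have := hcon i j
    rw [unit_iff, not_not] at this
    exact this
  have h2 := (PadicInt.toZMod (p := p)).map_det B
  rw [RingHom.mapMatrix_apply, h1] at h2
  haveI : Nonempty (Fin n) := ⟨⟨0, hn⟩⟩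
  rw [Matrix.det_zero] at h2
  exact (unit_iff _).1 hB h2

theorem two_ne (hp : p ≠ 2) : (2 : ZMod p) ≠ 0 := by
  intro h
  have h1 : ((2 : ℕ) : ZMod p) = 0 := by exact_mod_cast h
  rw [ZMod.natCast_eq_zero_iff] at h1
  have := (Nat.prime_dvd_prime_iff_eq (Fact.out : p.Prime) Nat.prime_two).1 h1
  exact hp this

theorem exists_unit_norm (hp : p ≠ 2) {n : ℕ} (hn : 0 < n) {B : Matrix (Fin n) (Fin n) ℤ_[p]}
    (hs : B.IsSymm) (hB : IsUnit B.det) : ∃ v, IsUnit (bl B v v) := by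
  obtain ⟨i, j, hij⟩ := ent_unit hn hB
  by_cases h1 : IsUnit (B i i)
  · exact ⟨Pi.single i 1, by rwa [bl_single]⟩
  by_cases h2 : IsUnit (B j j)
  · exact ⟨Pi.single j 1, by rwa [bl_single]⟩
  refine ⟨Pi.single i 1 + Pi.single j 1, ?_⟩
  rw [bl_add_left, bl_add_right, bl_add_right, bl_single, bl_single, bl_single, bl_single,
    hs.apply i j]
  rw [unit_iff] at *
  rw [not_not] at h1 h2
  rw [map_add, map_add, map_add, h1, h2, zero_add, add_zero, ← two_mul]
  exact mul_ne_zero (two_ne hp) hij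

theorem two_squares (hp : p ≠ 2) {u₁ u₂ : ℤ_[p]} (h1 : IsUnit u₁) (h2 : IsUnit u₂) :
    ∃ x y, u₁ * x ^ 2 + u₂ * y ^ 2 = 1 := by
  rw [unit_iff] at h1 h2
  set φ := PadicInt.toZMod (p := p) with hφ
  have hodd : Fintype.card (ZMod p) % 2 = 1 := by
    rw [ZMod.card]
    exact ((Fact.out : p.Prime).eq_two_or_odd).resolve_left hp
  have hd1 : (Polynomial.C (φ u₁) * Polynomial.X ^ 2 : Polynomial (ZMod p)).degree = 2 :=
    Polynomial.degree_C_mul_X_pow 2 h1
  have hd2 : (Polynomial.C (φ u₂) * Polynomial.X ^ 2 - Polynomial.C 1 :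
      Polynomial (ZMod p)).degree = 2 := by
    rw [Polynomial.degree_sub_C]
    · exact Polynomial.degree_C_mul_X_pow 2 h2
    · rw [Polynomial.degree_C_mul_X_pow 2 h2]
      norm_num
  obtain ⟨a, b, hab⟩ := FiniteField.exists_root_sum_quadratic hd1 hd2 hodd
  simp only [Polynomial.eval_sub, Polynomial.eval_mul, Polynomial.eval_C, Polynomial.eval_pow,
    Polynomial.eval_X] at hab
  obtain ⟨x₀, rfl⟩ := ZMod.ringHom_surjective φ a
  obtain ⟨y₀, rfl⟩ := ZMod.ringHom_surjective φ b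
  by_cases ha : φ x₀ = 0
  · have hb : φ y₀ ≠ 0 := by
      intro hb
      rw [ha, hb] at hab
      simp at hab
    obtain ⟨y, hy⟩ := hensel_quad u₂ 0 (u₁ * x₀ ^ 2 - 1) y₀ (by
      rw [unit_iff, not_not]
      simp only [map_add, map_sub, map_mul, map_pow, map_one, map_zero]
      linear_combination hab) (by
      rw [unit_iff]
      simp only [map_add, map_mul, map_zero, add_zero]
      have h3 : φ 2 = 2 := map_ofNat φ 2
      rw [h3]
      exact mul_ne_zero (mul_ne_zero (two_ne hp) h2) hb)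
    exact ⟨x₀, y, by linear_combination hy⟩
  · obtain ⟨x, hx⟩ := hensel_quad u₁ 0 (u₂ * y₀ ^ 2 - 1) x₀ (by
      rw [unit_iff, not_not]
      simp only [map_add, map_sub, map_mul, map_pow, map_one, map_zero]
      linear_combination hab) (by
      rw [unit_iff]
      simp only [map_add, map_mul, map_zero, add_zero]
      have h3 : φ 2 = 2 := map_ofNat φ 2
      rw [h3]
      exact mul_ne_zero (mul_ne_zero (two_ne hp) h1) ha)
    exact ⟨x, y₀, by linear_combination hx⟩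

theorem bl_elim {R : Type} [CommRing R] {ι κ : Type} [Fintype ι] [Fintype κ] (A : Matrix ι ι R)
    (B : Matrix κ κ R) (x x' : ι → R) (y y' : κ → R) :
    bl (ds A B) (Sum.elim x y) (Sum.elim x' y') = bl A x x' + bl B y y' := by
  rw [bl_ds]
  rfl

theorem bl_fin1 {R : Type} [CommRing R] (A : Matrix (Fin 1) (Fin 1) R) (x y : Fin 1 → R) :
    bl A x y = x 0 * (A 0 0 * y 0) := by
  simp [bl, dotProduct, Matrix.mulVec]

theorem rep_one (hp : p ≠ 2) {n : ℕ} (hn : 2 ≤ n) {B : Matrix (Fin n) (Fin n) ℤ_[p]}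
    (hs : B.IsSymm) (hB : IsUnit B.det) : ∃ v, bl B v v = 1 := by
  obtain ⟨v₁, hv₁⟩ := exists_unit_norm hp (by omega) hs hB
  let A : Matrix (Fin 1) (Fin 1) ℤ_[p] := Matrix.of fun _ _ => bl B v₁ v₁
  obtain ⟨m, B', hs', hiso, hm⟩ := split' hs (fun _ : Fin 1 => v₁) A (fun _ _ => rfl) (by
    rw [Matrix.det_fin_one]
    exact hv₁)
  rw [Fintype.card_fin, Fintype.card_fin] at hm
  have hd := isom_det hiso
  rw [det_ds] at hd
  have hB' : IsUnit B'.det := isUnit_of_mul_isUnit_right (SqEq.isUnit hd hB)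
  obtain ⟨w, hw⟩ := exists_unit_norm hp (by omega) hs' hB'
  obtain ⟨x, y, hxy⟩ := two_squares hp hv₁ hw
  obtain ⟨e, he⟩ := hiso
  refine ⟨e (Sum.elim (fun _ => x) (y • w)), ?_⟩
  rw [he, bl_elim, bl_smul_left, bl_smul_right]
  have : bl A (fun _ => x) (fun _ => x) = x * (bl B v₁ v₁ * x) := by
    simp [bl, A, dotProduct, Matrix.mulVec]
  rw [this]
  linear_combination hxy

theorem split_rep_one {n : ℕ} {B : Matrix (Fin n) (Fin n) ℤ_[p]} (hs : B.IsSymm)
    {v : Fin n → ℤ_[p]} (hv : bl B v v = 1) : ∃ (m : ℕ) (B' : Matrix (Fin m) (Fin m) ℤ_[p]),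
      B'.IsSymm ∧ Isom (ds (1 : Matrix (Fin 1) (Fin 1) ℤ_[p]) B') B ∧ 1 + m = n := by
  obtain ⟨m, B', hs', hiso, hm⟩ := split' hs (fun _ : Fin 1 => v) 1 (fun k l => by
    rw [Subsingleton.elim k l, Matrix.one_apply_eq, hv]) (by
    rw [Matrix.det_one]
    exact isUnit_one)
  rw [Fintype.card_fin, Fintype.card_fin] at hm
  exact ⟨m, B', hs', hiso, hm⟩

/-- **Unimodular symmetric matrices over `Z_p`, `p` odd, are classified by the determinant.** -/
theorem odd_class (hp : p ≠ 2) : ∀ (n : ℕ) (B C : Matrix (Fin n) (Fin n) ℤ_[p]), B.IsSymm →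
    C.IsSymm → IsUnit B.det → IsUnit C.det → SqEq B.det C.det → Isom B C := by
  intro n
  induction n with
  | zero => exact fun B C _ _ _ _ _ => isom_empty B C
  | succ n ih =>
    intro B C hBs hCs hB hC hBC
    rcases Nat.eq_zero_or_pos n with h0 | h0
    · subst h0
      obtain ⟨u, hu, h⟩ := hBC
      obtain ⟨u, rfl⟩ := hu
      refine ⟨LinearEquiv.smulOfUnit u, fun x y => ?_⟩
      have e1 : ∀ z : Fin 1 → ℤ_[p], LinearEquiv.smulOfUnit u z = (u : ℤ_[p]) • z := fun z => rfl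
      rw [e1, e1, bl_smul_left, bl_smul_right]
      rw [Matrix.det_fin_one, Matrix.det_fin_one] at h
      have h1 := bl_fin1 C x y
      have h2 := bl_fin1 B x y
      rw [h1, h2, h]
      ring
    · obtain ⟨v, hv⟩ := rep_one hp (by omega) hBs hB
      obtain ⟨w, hw⟩ := rep_one hp (by omega) hCs hC
      obtain ⟨m, B', hs', hiso, hm⟩ := split_rep_one hBs hv
      obtain ⟨m', C', hs'', hiso', hm'⟩ := split_rep_one hCs hw
      obtain rfl : m = n := by omega
      obtain rfl : m' = m := by omega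
      have hd : SqEq _ _ := isom_det hiso
      have hd' : SqEq _ _ := isom_det hiso'
      rw [det_ds, Matrix.det_one, one_mul] at hd hd'
      exact hiso.symm.trans (((Isom.refl _).ds (ih B' C' hs' hs'' (hd.isUnit hB)
        (hd'.isUnit hC) (hd.trans (hBC.trans hd'.symm)))).trans hiso')

end padic

end

end Pool.Agent.V11282.RL
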