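import Mathlib

set_option autoImplicit false

/-!
# Symmetric matrices over principal ideal domains
-/

namespace Pool.Agent.V11282.RL

open Finset Matrix

noncomputable section

section ring

variable {R : Type} [CommRing R]
variable {ι κ ι' κ' : Type} [Fintype ι] [Fintype κ] [Fintype ι'] [Fintype κ']

/-- the bilinear form of a matrix -/
def bl (B : Matrix ι ι R) (x y : ι → R) : R := x ⬝ᵥ B.mulVec y

/-- isometric matrices -/
def Isom (B : Matrix ι ι R) (C : Matrix κ κ R) : Prop :=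
  ∃ e : (ι → R) ≃ₗ[R] (κ → R), ∀ x y, bl C (e x) (e y) = bl B x y

/-- orthogonal sum -/
abbrev ds (A : Matrix ι ι R) (B : Matrix κ κ R) : Matrix (ι ⊕ κ) (ι ⊕ κ) R :=
  Matrix.fromBlocks A 0 0 B

/-- even -/
def Ev (B : Matrix ι ι R) : Prop := ∀ x, ∃ t, bl B x x = 2 * t

/-- a hyperbolic pair -/
def HasHyp (B : Matrix ι ι R) : Prop := ∃ e f, bl B e e = 0 ∧ bl B e f = 1

theorem bl_add_left (B : Matrix ι ι R) (x y z : ι → R) : bl B (x + y) z = bl B x z + bl B y z := by
  unfold bl
  rw [add_dotProduct]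

theorem bl_add_right (B : Matrix ι ι R) (x y z : ι → R) : bl B z (x + y) = bl B z x + bl B z y := by
  unfold bl
  rw [Matrix.mulVec_add, dotProduct_add]

theorem bl_smul_left (B : Matrix ι ι R) (c : R) (x y : ι → R) : bl B (c • x) y = c * bl B x y := by
  unfold bl
  rw [smul_dotProduct, smul_eq_mul]

theorem bl_smul_right (B : Matrix ι ι R) (c : R) (x y : ι → R) : bl B x (c • y) = c * bl B x y := by
  unfold bl
  rw [Matrix.mulVec_smul, dotProduct_smul, smul_eq_mul]

theorem bl_zero_left (B : Matrix ι ι R) (y : ι → R) : bl B 0 y = 0 := by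
  unfold bl
  rw [zero_dotProduct]

theorem bl_zero_right (B : Matrix ι ι R) (y : ι → R) : bl B y 0 = 0 := by
  unfold bl
  rw [Matrix.mulVec_zero, dotProduct_zero]

theorem bl_sum_left {α : Type} (s : Finset α) (B : Matrix ι ι R) (f : α → ι → R) (y : ι → R) :
    bl B (∑ a ∈ s, f a) y = ∑ a ∈ s, bl B (f a) y := by
  unfold bl
  rw [sum_dotProduct]

theorem bl_sum_right {α : Type} (s : Finset α) (B : Matrix ι ι R) (f : α → ι → R) (y : ι → R) :
    bl B y (∑ a ∈ s, f a) = ∑ a ∈ s, bl B y (f a) := by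
  unfold bl
  rw [Matrix.mulVec_sum, dotProduct_sum]

theorem bl_comm {B : Matrix ι ι R} (hB : B.IsSymm) (x y : ι → R) : bl B x y = bl B y x := by
  unfold bl
  rw [dotProduct_comm, ← Matrix.vecMul_transpose, hB, ← Matrix.dotProduct_mulVec]

theorem bl_single [DecidableEq ι] (B : Matrix ι ι R) (i j : ι) :
    bl B (Pi.single i 1) (Pi.single j 1) = B i j := by
  unfold bl
  simp

theorem Isom.refl (B : Matrix ι ι R) : Isom B B := ⟨LinearEquiv.refl _ _, fun _ _ => rfl⟩

theorem Isom.symm {B : Matrix ι ι R} {C : Matrix κ κ R} (h : Isom B C) : Isom C B := by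
  obtain ⟨e, he⟩ := h
  refine ⟨e.symm, fun x y => ?_⟩
  rw [← he, e.apply_symm_apply, e.apply_symm_apply]

theorem Isom.trans {B : Matrix ι ι R} {C : Matrix κ κ R} {D : Matrix ι' ι' R} (h : Isom B C)
    (h' : Isom C D) : Isom B D := by
  obtain ⟨e, he⟩ := h
  obtain ⟨f, hf⟩ := h'
  exact ⟨e.trans f, fun x y => by
    rw [LinearEquiv.trans_apply, LinearEquiv.trans_apply, hf, he]⟩

theorem Isom.reindex (B : Matrix ι ι R) (σ : ι ≃ κ) : Isom B (B.submatrix σ.symm σ.symm) := by
  refine ⟨LinearEquiv.funCongrLeft R R σ.symm, fun x y => ?_⟩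
  unfold bl dotProduct Matrix.mulVec dotProduct
  rw [← Equiv.sum_comp σ]
  refine Finset.sum_congr rfl fun i _ => ?_
  rw [← Equiv.sum_comp σ]
  simp [LinearEquiv.funCongrLeft_apply, LinearMap.funLeft_apply]

theorem bl_ds (A : Matrix ι ι R) (B : Matrix κ κ R) (x y : ι ⊕ κ → R) :
    bl (ds A B) x y = bl A (x ∘ Sum.inl) (y ∘ Sum.inl) + bl B (x ∘ Sum.inr) (y ∘ Sum.inr) := by
  unfold bl
  rw [Matrix.fromBlocks_mulVec]
  simp only [dotProduct, Fintype.sum_sum_type, Sum.elim_inl, Sum.elim_inr, Function.comp_apply,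
    Matrix.zero_mulVec, add_zero, zero_add]

theorem Isom.ds {A : Matrix ι ι R} {A' : Matrix ι' ι' R} {B : Matrix κ κ R} {B' : Matrix κ' κ' R}
    (h : Isom A A') (h' : Isom B B') : Isom (ds A B) (ds A' B') := by
  obtain ⟨e, he⟩ := h
  obtain ⟨f, hf⟩ := h'
  refine ⟨(LinearEquiv.sumArrowLequivProdArrow ι κ R R).trans
    ((e.prodCongr f).trans (LinearEquiv.sumArrowLequivProdArrow ι' κ' R R).symm), fun x y => ?_⟩
  rw [bl_ds, bl_ds, ← he, ← hf]
  rfl

theorem Isom.comm (A : Matrix ι ι R) (B : Matrix κ κ R) : Isom (RL.ds A B) (RL.ds B A) := by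
  have h := Isom.reindex (RL.ds A B) (Equiv.sumComm ι κ)
  have h2 : (RL.ds A B).submatrix (Equiv.sumComm ι κ).symm (Equiv.sumComm ι κ).symm = RL.ds B A := by
    ext i j
    rcases i with i | i <;> rcases j with j | j <;> rfl
  rwa [h2] at h

theorem Isom.assoc (A : Matrix ι ι R) (B : Matrix κ κ R) (C : Matrix ι' ι' R) :
    Isom (RL.ds (RL.ds A B) C) (RL.ds A (RL.ds B C)) := by
  have h := Isom.reindex (RL.ds (RL.ds A B) C) (Equiv.sumAssoc ι κ ι')
  have h2 : (RL.ds (RL.ds A B) C).submatrix (Equiv.sumAssoc ι κ ι').symm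
      (Equiv.sumAssoc ι κ ι').symm = RL.ds A (RL.ds B C) := by
    ext i j
    rcases i with i | i | i <;> rcases j with j | j | j <;> rfl
  rwa [h2] at h

theorem Isom.ev {B : Matrix ι ι R} {C : Matrix κ κ R} (h : Isom B C) (hB : Ev B) : Ev C := by
  obtain ⟨e, he⟩ := h.symm
  intro x
  obtain ⟨t, ht⟩ := hB (e x)
  exact ⟨t, by rw [← he, ht]⟩

theorem Isom.hyp {B : Matrix ι ι R} {C : Matrix κ κ R} (h : Isom B C) (hB : HasHyp B) :
    HasHyp C := by
  obtain ⟨e, he⟩ := h
  obtain ⟨x, y, hx, hy⟩ := hB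
  exact ⟨e x, e y, by rw [he, hx], by rw [he, hy]⟩

theorem Ev.right {A : Matrix ι ι R} {B : Matrix κ κ R} (h : Ev (ds A B)) : Ev B := by
  intro x
  obtain ⟨t, ht⟩ := h (Sum.elim 0 x)
  refine ⟨t, ?_⟩
  rw [bl_ds] at ht
  have e1 : (Sum.elim (0 : ι → R) x) ∘ Sum.inl = 0 := rfl
  have e2 : (Sum.elim (0 : ι → R) x) ∘ Sum.inr = x := rfl
  rw [e1, e2, bl_zero_left, zero_add] at ht
  exact ht

theorem HasHyp.left {A : Matrix ι ι R} (B : Matrix κ κ R) (h : HasHyp A) : HasHyp (ds A B) := by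
  obtain ⟨x, y, hx, hy⟩ := h
  refine ⟨Sum.elim x 0, Sum.elim y 0, ?_, ?_⟩
  · rw [bl_ds]
    have e1 : (Sum.elim x (0 : κ → R)) ∘ Sum.inl = x := rfl
    have e2 : (Sum.elim x (0 : κ → R)) ∘ Sum.inr = 0 := rfl
    rw [e1, e2, hx, bl_zero_left, zero_add]
  · rw [bl_ds]
    have e1 : (Sum.elim x (0 : κ → R)) ∘ Sum.inl = x := rfl
    have e2 : (Sum.elim x (0 : κ → R)) ∘ Sum.inr = 0 := rfl
    have e3 : (Sum.elim y (0 : κ → R)) ∘ Sum.inl = y := rfl
    rw [e1, e2, e3, hy, bl_zero_left, add_zero]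

theorem HasHyp.right (A : Matrix ι ι R) {B : Matrix κ κ R} (h : HasHyp B) : HasHyp (ds A B) :=
  (Isom.comm B A).hyp (h.left A)

theorem Isom.smul {A : Matrix ι ι R} {B : Matrix κ κ R} (h : Isom A B) (c : R) :
    Isom (c • A) (c • B) := by
  obtain ⟨e, he⟩ := h
  refine ⟨e, fun x y => ?_⟩
  have h1 : ∀ {ν : Type} [Fintype ν] (D : Matrix ν ν R) (x y : ν → R),
      bl (c • D) x y = c * bl D x y := by
    intro ν _ D x y
    unfold bl
    rw [Matrix.smul_mulVec, dotProduct_smul, smul_eq_mul]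
  rw [h1, h1, he]

theorem isom_empty [IsEmpty ι] [IsEmpty κ] (B : Matrix ι ι R) (C : Matrix κ κ R) : Isom B C := by
  refine ⟨LinearEquiv.ofSubsingleton _ _, fun x y => ?_⟩
  unfold bl
  simp [dotProduct]

section det

variable [DecidableEq ι] [DecidableEq κ]

theorem isom_det_self {B C : Matrix ι ι R} (h : Isom B C) :
    ∃ u : R, IsUnit u ∧ B.det = u ^ 2 * C.det := by
  obtain ⟨e, he⟩ := h
  have h1 : B = (LinearMap.toMatrix' (e : (ι → R) →ₗ[R] (ι → R)))ᵀ * C *
      LinearMap.toMatrix' (e : (ι → R) →ₗ[R] (ι → R)) := by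
    ext i j
    rw [← bl_single B i j, ← he]
    unfold bl
    have h2 : ∀ x, e x = (LinearMap.toMatrix' (e : (ι → R) →ₗ[R] (ι → R))).mulVec x := by
      intro x
      rw [LinearMap.toMatrix'_mulVec]
      rfl
    rw [h2, h2, Matrix.mulVec_mulVec, Matrix.mulVec_single_one, Matrix.mulVec_single_one]
    rw [Matrix.mul_assoc, Matrix.mul_apply']
    rfl
  refine ⟨(LinearMap.toMatrix' (e : (ι → R) →ₗ[R] (ι → R))).det, ?_, ?_⟩
  · rw [LinearMap.det_toMatrix']
    exact LinearEquiv.isUnit_det' e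
  · conv_lhs => rw [h1]
    rw [Matrix.det_mul, Matrix.det_mul, Matrix.det_transpose]
    ring

theorem isom_card [Nontrivial R] {B : Matrix ι ι R} {C : Matrix κ κ R} (h : Isom B C) :
    Fintype.card ι = Fintype.card κ := by
  obtain ⟨e, _⟩ := h
  have := e.finrank_eq
  rwa [Module.finrank_pi, Module.finrank_pi] at this

theorem isom_det [Nontrivial R] {B : Matrix ι ι R} {C : Matrix κ κ R} (h : Isom B C) :
    ∃ u : R, IsUnit u ∧ B.det = u ^ 2 * C.det := by
  have hc := isom_card h
  have σ : κ ≃ ι := Fintype.equivOfCardEq hc.symm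
  have h1 := isom_det_self (h.trans (Isom.reindex C σ))
  rwa [Matrix.det_submatrix_equiv_self] at h1

theorem det_ds (A : Matrix ι ι R) (B : Matrix κ κ R) : (ds A B).det = A.det * B.det :=
  Matrix.det_fromBlocks_zero₂₁ A 0 B

end det

end ring

section split

variable {R : Type} [CommRing R] [IsDomain R] [IsPrincipalIdealRing R]
variable {ι κ : Type} [Fintype ι] [Fintype κ]

/-- the orthogonal complement -/
def orth (B : Matrix ι ι R) (X : κ → ι → R) : Submodule R (ι → R) where
  carrier := {y | ∀ k, bl B (X k) y = 0}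
  add_mem' := by
    intro x y hx hy k
    rw [bl_add_right, hx k, hy k, add_zero]
  zero_mem' := fun k => bl_zero_right _ _
  smul_mem' := by
    intro c x hx k
    rw [bl_smul_right, hx k, mul_zero]

/-- **Splitting.** -/
theorem split {B : Matrix ι ι R} (hB : B.IsSymm) (X : κ → ι → R) (A : Matrix κ κ R)
    (hA : ∀ k l, A k l = bl B (X k) (X l)) (hinj : ∀ c, A.mulVec c = 0 → c = 0)
    (hsurj : ∀ z, ∃ c, A.mulVec c = fun k => bl B (X k) z) :
    ∃ (n : ℕ) (B' : Matrix (Fin n) (Fin n) R), B'.IsSymm ∧ Isom (ds A B') B ∧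
      Fintype.card κ + n = Fintype.card ι := by
  classical
  let N := orth B X
  let b := Module.finBasis R N
  set n := Module.finrank R N with hn
  let B' : Matrix (Fin n) (Fin n) R := Matrix.of fun i j => bl B (b i : ι → R) (b j : ι → R)
  have hB' : B'.IsSymm := by
    ext i j
    exact bl_comm hB _ _
  let T : (κ ⊕ Fin n → R) →ₗ[R] (ι → R) :=
    { toFun := fun x => ∑ k, x (.inl k) • X k + ∑ i, x (.inr i) • (b i : ι → R)
      map_add' := by
        intro x y
        simp only [Pi.add_apply, add_smul, Finset.sum_add_distrib]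
        abel
      map_smul' := by
        intro c x
        simp only [Pi.smul_apply, smul_eq_mul, mul_smul, Finset.smul_sum, smul_add,
          RingHom.id_apply] }
  have hfN : ∀ x : Fin n → R, ∑ i, x i • (b i : ι → R) =
      ((∑ i, x i • b i : N) : ι → R) := by
    intro x
    simp
  have hTN : ∀ x : κ ⊕ Fin n → R, ∑ i, x (.inr i) • (b i : ι → R) =
      ((∑ i, x (.inr i) • b i : N) : ι → R) := fun x => hfN fun i => x (.inr i)
  have hXN : ∀ k (y : N), bl B (X k) (y : ι → R) = 0 := fun k y => y.2 k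
  have hpair : ∀ (k : κ) (x : κ ⊕ Fin n → R), bl B (X k) (T x) =
      A.mulVec (fun l => x (.inl l)) k := by
    intro k x
    show bl B (X k) (∑ k, x (.inl k) • X k + ∑ i, x (.inr i) • (b i : ι → R)) = _
    rw [hTN, bl_add_right, hXN, add_zero, bl_sum_right]
    simp only [Matrix.mulVec, dotProduct, hA]
    refine Finset.sum_congr rfl fun l _ => ?_
    rw [bl_smul_right]
    ring
  have hTinj : Function.Injective T := by
    rw [← LinearMap.ker_eq_bot, LinearMap.ker_eq_bot']
    intro x hx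
    have h1 : (fun l => x (.inl l)) = 0 := by
      apply hinj
      funext k
      rw [← hpair, hx, bl_zero_right]
      rfl
    have h2 : (∑ i, x (.inr i) • b i : N) = 0 := by
      apply Subtype.ext
      rw [← hTN]
      have h3 : T x = ∑ k, x (.inl k) • X k + ∑ i, x (.inr i) • (b i : ι → R) := rfl
      rw [hx] at h3
      have h4 : ∑ k, x (.inl k) • X k = 0 :=
        Finset.sum_eq_zero fun k _ => by
          have := congrFun h1 k
          simp only [Pi.zero_apply] at this
          rw [this, zero_smul]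
      rw [h4, zero_add] at h3
      exact h3.symm
    have h5 := Fintype.linearIndependent_iff.1 b.linearIndependent (fun i => x (.inr i)) h2
    funext i
    rcases i with i | i
    · exact congrFun h1 i
    · exact h5 i
  have hTsurj : Function.Surjective T := by
    intro z
    obtain ⟨c, hc⟩ := hsurj z
    have hmem : z - ∑ k, c k • X k ∈ N := by
      intro k
      have h1 : bl B (X k) (z - ∑ k, c k • X k) = bl B (X k) z - bl B (X k) (∑ k, c k • X k) := by
        have := bl_add_right B (z - ∑ k, c k • X k) (∑ k, c k • X k) (X k)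
        rw [sub_add_cancel] at this
        rw [this]
        ring
      rw [h1, bl_sum_right]
      have h2 := congrFun hc k
      rw [← h2]
      simp only [Matrix.mulVec, dotProduct, hA]
      rw [sub_eq_zero]
      refine Finset.sum_congr rfl fun l _ => ?_
      rw [bl_smul_right]
      ring
    refine ⟨Sum.elim c (b.repr ⟨_, hmem⟩), ?_⟩
    show ∑ k, c k • X k + ∑ i, (b.repr ⟨_, hmem⟩ i) • (b i : ι → R) = z
    have h3 : ∑ i, (b.repr ⟨_, hmem⟩ i) • (b i : ι → R) =
        ((∑ i, (b.repr ⟨_, hmem⟩ i) • b i : N) : ι → R) := hfN fun i => b.repr ⟨_, hmem⟩ i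
    rw [h3, b.sum_repr]
    simp
  let e := LinearEquiv.ofBijective T ⟨hTinj, hTsurj⟩
  have hiso : Isom (ds A B') B := by
    refine ⟨e, fun x y => ?_⟩
    show bl B (T x) (T y) = _
    have h1 : T x = ∑ k, x (.inl k) • X k + ∑ i, x (.inr i) • (b i : ι → R) := rfl
    have h2 : T y = ∑ k, y (.inl k) • X k + ∑ i, y (.inr i) • (b i : ι → R) := rfl
    have h3 : bl B (∑ k, x (.inl k) • X k) (T y) = bl A (x ∘ Sum.inl) (y ∘ Sum.inl) := by
      rw [bl_sum_left]
      unfold bl dotProduct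
      refine Finset.sum_congr rfl fun k _ => ?_
      have h4 := bl_smul_left B (x (.inl k)) (X k) (T y)
      unfold bl dotProduct at h4
      rw [h4]
      congr 1
      have h5 := hpair k y
      unfold bl dotProduct at h5
      rw [h5]
      rfl
    have h4 : bl B (∑ i, x (.inr i) • (b i : ι → R)) (∑ k, y (.inl k) • X k) = 0 := by
      rw [bl_comm hB, bl_sum_left]
      refine Finset.sum_eq_zero fun k _ => ?_
      rw [bl_smul_left, hTN, hXN, mul_zero]
    have h5 : bl B (∑ i, x (.inr i) • (b i : ι → R)) (∑ i, y (.inr i) • (b i : ι → R)) =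
        bl B' (x ∘ Sum.inr) (y ∘ Sum.inr) := by
      rw [bl_sum_left]
      show _ = ∑ i, (x ∘ Sum.inr) i * (B'.mulVec (y ∘ Sum.inr)) i
      refine Finset.sum_congr rfl fun i _ => ?_
      rw [bl_smul_left, bl_sum_right]
      congr 1
      show _ = ∑ j, B' i j * (y ∘ Sum.inr) j
      refine Finset.sum_congr rfl fun j _ => ?_
      rw [bl_smul_right]
      simp only [B', Matrix.of_apply, Function.comp_apply]
      ring
    rw [h1, bl_add_left, h3]
    conv_lhs => rw [h2]
    rw [bl_add_right, h4, h5, zero_add, bl_ds]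
  refine ⟨n, B', hB', hiso, ?_⟩
  have := isom_card hiso
  rw [← this]
  simp

end split

end

end Pool.Agent.V11282.RL
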