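import Pool.Agent.V11282.RL.Gauss

set_option autoImplicit false

/-!
# The inversion formula for the theta components
-/

namespace Pool.Agent.V11282.RL

open Pool.Agent.Y813.RL hiding ee_add ee_int ee_zero
open MeasureTheory Set Matrix
open Pool.Agent.Y683.RL (ee_add ee_int ee_norm ee_zero ee_ne ee_neg_mul)

noncomputable section

variable {A : Matrix (Fin 20) (Fin 20) ℤ} {c : ℂ → (Fin 20 → ℂ) → ℂ}

/-- the shifted quadratic polynomial -/
def Qf (A : Matrix (Fin 20) (Fin 20) ℤ) (ν : Fin 20 → ℤ) (y : Fin 20 → ℝ) : ℝ :=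
  bf A y y - 2 * dt ν y + bd A ν ν

theorem dt_sub_real (ν : Fin 20 → ℤ) (x y : Fin 20 → ℝ) : dt ν (x - y) = dt ν x - dt ν y := by
  simp [dt, mul_sub, Finset.sum_sub_distrib]

theorem dt_add_real (ν : Fin 20 → ℤ) (x y : Fin 20 → ℝ) : dt ν (x + y) = dt ν x + dt ν y := by
  simp [dt, mul_add, Finset.sum_add_distrib]

theorem dt_vr (ν v : Fin 20 → ℤ) : dt ν (vr v) = ((dotProduct ν v : ℤ) : ℝ) := by
  simp [dt, vr, dotProduct]

theorem dt_mulVec (h : PosSymm A) (v : Fin 20 → ℤ) (y : Fin 20 → ℝ) :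
    dt (A.mulVec v) y = bf A (vr v) y := by
  rw [← bf_lam h, lam_mulVec h]
  rfl

theorem bf_vr (v : Fin 20 → ℤ) : bf A (vr v) (vr v) = ((bf A v v : ℤ) : ℝ) := bf_intCast A v v

theorem Qf_shift (h : PosSymm A) (ρ v : Fin 20 → ℤ) (y : Fin 20 → ℝ) :
    Qf A (ρ + A.mulVec v) y = Qf A ρ (y - vr v) := by
  unfold Qf
  rw [bd_add_mulVec h, dt_sub_real, bf_sub_left, bf_sub_right, bf_sub_right, dt_vr, bf_vr,
    dt_add_left, dt_mulVec h, bf_comm h.symm y (vr v)]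
  ring

theorem Qf_lam (h : PosSymm A) (ρ : Fin 20 → ℤ) (y : Fin 20 → ℝ) :
    Qf A ρ (y + lam A ρ) = bf A y y := by
  unfold Qf
  rw [dt_add_real, bf_add_left, bf_add_right, bf_add_right, bf_comm h.symm y (lam A ρ), bf_lam h,
    bf_lam_lam h, show dt ρ (lam A ρ) = bd A ρ ρ from rfl]
  ring

/-- the shifted Gaussian -/
def hs (A : Matrix (Fin 20) (Fin 20) ℤ) (σ : ℂ) (μ ρ : Fin 20 → ℤ) (y : Fin 20 → ℝ) : ℂ :=
  ee (σ / 2 * (Qf A ρ y : ℝ)) * ee (-((dt μ y : ℝ) : ℂ))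

theorem hs_lam (h : PosSymm A) (σ : ℂ) (μ ρ : Fin 20 → ℤ) (y : Fin 20 → ℝ) :
    hs A σ μ ρ (y + lam A ρ) = gs A σ μ y * ee (-(bd A μ ρ : ℂ)) := by
  unfold hs gs
  have e : ee (-(((dt μ y + bd A μ ρ : ℝ)) : ℂ)) = ee (-((dt μ y : ℝ) : ℂ)) *
      ee (-(bd A μ ρ : ℂ)) := by
    rw [← ee_add]
    congr 1
    push_cast
    ring
  rw [Qf_lam h, dt_add_real, show dt μ (lam A ρ) = bd A μ ρ from rfl, e, mul_assoc]

theorem hs_int (h : PosSymm A) {σ : ℂ} (hσ : 0 < σ.im) (μ ρ : Fin 20 → ℤ) :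
    Integrable (hs A σ μ ρ) ∧ ∫ y, hs A σ μ ρ y =
      ee (-(bd A μ ρ : ℂ)) * ∫ y, gs A σ μ y := by
  obtain ⟨hi, _⟩ := gs_int h hσ μ
  constructor
  · have h1 : hs A σ μ ρ = fun y => gs A σ μ (y - lam A ρ) * ee (-(bd A μ ρ : ℂ)) := by
      funext y
      rw [← hs_lam h, sub_add_cancel]
    rw [h1]
    exact (hi.comp_sub_right (lam A ρ)).mul_const _
  · rw [← integral_add_right_eq_self _ (lam A ρ)]
    simp only [hs_lam h]
    rw [integral_mul_const, mul_comm]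

theorem hs_shift (h : PosSymm A) (σ : ℂ) (μ ρ v : Fin 20 → ℤ) (y : Fin 20 → ℝ) :
    hs A σ μ (ρ + A.mulVec v) y = hs A σ μ ρ (fun i => y i - (v i : ℝ)) := by
  have e1 : (fun i => y i - (v i : ℝ)) = y - vr v := rfl
  unfold hs
  rw [e1, Qf_shift h, dt_sub_real, dt_vr]
  congr 1
  have h1 := ee_int (dotProduct μ v)
  have e2 : (-(((dt μ y - ((dotProduct μ v : ℤ) : ℝ)) : ℝ) : ℂ)) =
      -((dt μ y : ℝ) : ℂ) + ((dotProduct μ v : ℤ) : ℂ) := by push_cast; ring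
  rw [e2, ee_add, h1, mul_one]

theorem hs_cont (σ : ℂ) (μ ρ : Fin 20 → ℤ) : Continuous (hs A σ μ ρ) := by
  unfold hs Qf
  have h1 : Continuous fun y : Fin 20 → ℝ => bf A y y := bf_contR A continuous_id continuous_id
  have h2 := dt_continuous μ
  have h3 := dt_continuous ρ
  have h4 := Y683.RL.ee_cont
  fun_prop

/-- the pointwise expansion -/
theorem expand (hc : JacobiZero A c) {τ : ℂ} (hτ : 0 < τ.im) (μ : Fin 20 → ℤ)
    (y : Fin 20 → ℝ) (hσ : 0 < (-1 / τ).im) :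
    HasSum (fun ν : Fin 20 → ℤ => vf A c ν (-1 / τ) * hs A (-1 / τ) μ ν y)
      (c τ (fun i => (y i : ℂ)) * ee (-(dt μ (fun i => (y i : ℂ))))) := by
  have hτ0 : τ ≠ 0 := by rintro rfl; simp at hτ
  have h1 := (jz_ep hc hσ).hasSum (fun i => (y i : ℂ) / τ)
  have hS := hc.S τ (fun i => (y i : ℂ)) hτ
  rw [hS, bf_ofReal] at h1
  have h2 := h1.mul_left (ee (-((bf A y y : ℝ) : ℂ) / (2 * τ)) * ee (-(dt μ (fun i => (y i : ℂ)))))
  have e0 : ee (-((bf A y y : ℝ) : ℂ) / (2 * τ)) * ee (((bf A y y : ℝ) : ℂ) / (2 * τ)) = 1 := by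
    rw [← ee_add, ← ee_zero]
    congr 1
    ring
  have e1 : ee (-((bf A y y : ℝ) : ℂ) / (2 * τ)) * ee (-(dt μ (fun i => (y i : ℂ)))) *
      (ee (((bf A y y : ℝ) : ℂ) / (2 * τ)) * c τ (fun i => (y i : ℂ))) =
      c τ (fun i => (y i : ℂ)) * ee (-(dt μ (fun i => (y i : ℂ)))) := by
    linear_combination (c τ (fun i => (y i : ℂ)) * ee (-(dt μ (fun i => (y i : ℂ))))) * e0
  rw [e1] at h2
  have e2 : (fun ν : Fin 20 → ℤ => vf A c ν (-1 / τ) * hs A (-1 / τ) μ ν y) =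
      fun ν => ee (-((bf A y y : ℝ) : ℂ) / (2 * τ)) * ee (-(dt μ (fun i => (y i : ℂ)))) *
        (tc (c (-1 / τ)) ν * ee (dt ν (fun i => (y i : ℂ) / τ))) := by
    funext ν
    have hdt : ∀ κ : Fin 20 → ℤ, dt κ (fun i => (y i : ℂ)) = ((dt κ y : ℝ) : ℂ) := by
      intro κ; simp [dt]
    have hdt2 : dt ν (fun i => (y i : ℂ) / τ) = ((dt ν y : ℝ) : ℂ) / τ := by
      unfold dt
      push_cast
      rw [Finset.sum_div]
      refine Finset.sum_congr rfl fun i _ => ?_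
      ring
    unfold vf hs
    rw [fc_eq, hdt, hdt2]
    have e3 : ee (-(-1 / τ * ((bd A ν ν : ℝ) : ℂ) / 2)) * ee (-1 / τ / 2 * ((Qf A ν y : ℝ) : ℂ)) =
        ee (-((bf A y y : ℝ) : ℂ) / (2 * τ)) * ee (((dt ν y : ℝ) : ℂ) / τ) := by
      rw [← ee_add, ← ee_add]
      congr 1
      unfold Qf
      push_cast
      field_simp
      ring
    linear_combination (tc (c (-1 / τ)) ν * ee (-((dt μ y : ℝ) : ℂ))) * e3
  rw [e2]
  exact h2

/-- termwise integration -/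
theorem fc_hasSum (h : PosSymm A) (hc : JacobiZero A c) {τ : ℂ} (hτ : 0 < τ.im) (μ : Fin 20 → ℤ)
    (hσ : 0 < (-1 / τ).im) :
    HasSum (fun ν : Fin 20 → ℤ => vf A c ν (-1 / τ) *
      ∫ y in Icc (0 : Fin 20 → ℝ) 1, hs A (-1 / τ) μ ν y) (fc c μ τ) := by
  obtain ⟨b, hb, hbb⟩ := (jz_ep hc hσ).summable ‖(1 : ℂ) / τ‖
  have hτ0 : τ ≠ 0 := by rintro rfl; simp at hτ
  have hcf : Continuous fun y : Fin 20 → ℝ => ee (-((bf A y y : ℝ) : ℂ) / (2 * τ)) := by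
    have h1 : Continuous fun y : Fin 20 → ℝ => bf A y y := bf_contR A continuous_id continuous_id
    have h4 := Y683.RL.ee_cont
    fun_prop
  obtain ⟨K, hK⟩ := (isCompact_Icc (a := (0 : Fin 20 → ℝ)) (b := 1)).exists_bound_of_continuousOn
    hcf.continuousOn
  have hK0 : 0 ≤ K := (norm_nonneg _).trans (hK 0 (by simp))
  have hbd : ∀ ν : Fin 20 → ℤ, ∀ y ∈ Icc (0 : Fin 20 → ℝ) 1,
      ‖vf A c ν (-1 / τ) * hs A (-1 / τ) μ ν y‖ ≤ K * b ν := by
    intro ν y hy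
    have hdt2 : dt ν (fun i => (y i : ℂ) / τ) = ((dt ν y : ℝ) : ℂ) / τ := by
      unfold dt
      push_cast
      rw [Finset.sum_div]
      refine Finset.sum_congr rfl fun i _ => ?_
      ring
    have e3 : vf A c ν (-1 / τ) * hs A (-1 / τ) μ ν y =
        ee (-((bf A y y : ℝ) : ℂ) / (2 * τ)) * (tc (c (-1 / τ)) ν *
          ee (dt ν (fun i => (y i : ℂ) / τ))) * ee (-((dt μ y : ℝ) : ℂ)) := by
      unfold vf hs
      rw [fc_eq, hdt2]
      have e4 : ee (-(-1 / τ * ((bd A ν ν : ℝ) : ℂ) / 2)) *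
          ee (-1 / τ / 2 * ((Qf A ν y : ℝ) : ℂ)) =
          ee (-((bf A y y : ℝ) : ℂ) / (2 * τ)) * ee (((dt ν y : ℝ) : ℂ) / τ) := by
        rw [← ee_add, ← ee_add]
        congr 1
        unfold Qf
        push_cast
        field_simp
        ring
      linear_combination (tc (c (-1 / τ)) ν * ee (-((dt μ y : ℝ) : ℂ))) * e4
    rw [e3, norm_mul, norm_mul]
    have e5 : ‖ee (-((dt μ y : ℝ) : ℂ))‖ = 1 := by
      rw [ee_norm]; simp
    rw [e5, mul_one]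
    refine mul_le_mul (hK y hy) (hbb _ (fun i => ?_) ν) (norm_nonneg _) hK0
    have h1 : |((y i : ℂ) / τ).im| ≤ ‖(y i : ℂ) / τ‖ := Complex.abs_im_le_norm _
    refine h1.trans ?_
    rw [norm_div, norm_div, Complex.norm_real, norm_one]
    have h2 := hy.1 i
    have h3 := hy.2 i
    simp only [Pi.zero_apply, Pi.one_apply] at h2 h3
    rw [Real.norm_of_nonneg h2]
    gcongr
  have hvol : (volume (Icc (0 : Fin 20 → ℝ) 1)).toReal = 1 := by
    rw [Real.volume_Icc_pi_toReal (by exact zero_le_one)]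
    simp
  have h1 := hasSum_integral_of_summable_integral_norm
    (μ := volume.restrict (Icc (0 : Fin 20 → ℝ) 1))
    (F := fun (ν : Fin 20 → ℤ) (y : Fin 20 → ℝ) => vf A c ν (-1 / τ) * hs A (-1 / τ) μ ν y)
    (fun ν => ?_) ?_
  · have h2 : ∫ y in Icc (0 : Fin 20 → ℝ) 1, ∑' ν : Fin 20 → ℤ,
        vf A c ν (-1 / τ) * hs A (-1 / τ) μ ν y = fc c μ τ := by
      unfold fc
      refine setIntegral_congr_fun measurableSet_Icc fun y _ => ?_
      exact (expand hc hτ μ y hσ).tsum_eq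
    rw [h2] at h1
    simp only [integral_const_mul] at h1
    exact h1
  · exact ((continuous_const.mul (hs_cont _ _ _)).integrableOn_Icc)
  · refine Summable.of_nonneg_of_le (fun ν => integral_nonneg fun y => norm_nonneg _)
      (fun ν => ?_) (hb.mul_left K)
    have h3 := norm_setIntegral_le_of_norm_le_const (μ := volume) (s := Icc (0 : Fin 20 → ℝ) 1)
      (f := fun y : Fin 20 → ℝ => ‖vf A c ν (-1 / τ) * hs A (-1 / τ) μ ν y‖)
      (C := K * b ν) isCompact_Icc.measure_lt_top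
      (fun y hy => by rw [norm_norm]; exact hbd ν y hy)
    rw [Measure.real, hvol, mul_one] at h3
    exact (le_abs_self _).trans h3

/-- `Z^20` is parametrised by representatives and the sublattice -/
theorem reps_equiv (h : PosSymm A) {R : Finset (Fin 20 → ℤ)} (hR : IsReps A R) :
    Function.Bijective (fun p : R × (Fin 20 → ℤ) => (p.1 : Fin 20 → ℤ) + A.mulVec p.2) := by
  constructor
  · rintro ⟨ρ, v⟩ ⟨ρ', v'⟩ he
    simp only at he
    obtain ⟨ρ₀, _, hu⟩ := hR ρ.1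
    have e1 := hu ρ.1 ⟨ρ.2, 0, by simp⟩
    have e2 := hu ρ'.1 ⟨ρ'.2, v' - v, by
      rw [Matrix.mulVec_sub, ← add_sub_assoc, ← he]; abel⟩
    have e3 : ρ = ρ' := Subtype.ext (e1.trans e2.symm)
    subst e3
    have e4 : A.mulVec v = A.mulVec v' := add_left_cancel he
    rw [mulVec_inj h e4]
  · intro μ
    obtain ⟨ρ₀, ⟨h1, v, hv⟩, _⟩ := hR μ
    exact ⟨(⟨ρ₀, h1⟩, v), hv.symm⟩

theorem jobTheta2 : JobTheta2 := by
  intro A c R h hc hR μ τ hτ
  have hτ0 : τ ≠ 0 := by rintro rfl; simp at hτ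
  have hσ : 0 < (-1 / τ).im := by
    have e : -1 / τ = (-τ)⁻¹ := by rw [neg_div, one_div, inv_neg]
    rw [e]
    exact (⟨τ, hτ⟩ : UpperHalfPlane).im_inv_neg_coe_pos
  have hσσ : -1 / (-1 / τ) = τ := by field_simp
  have h1 := fc_hasSum h hc hτ μ hσ
  let e := Equiv.ofBijective _ (reps_equiv h hR)
  have h2 := (Equiv.hasSum_iff e).2 h1
  have h3 : ∀ p : R × (Fin 20 → ℤ), ((fun ν : Fin 20 → ℤ => vf A c ν (-1 / τ) *
      ∫ y in Icc (0 : Fin 20 → ℝ) 1, hs A (-1 / τ) μ ν y) ∘ e) p =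
      vf A c p.1 (-1 / τ) * ∫ y in Icc (0 : Fin 20 → ℝ) 1,
        hs A (-1 / τ) μ p.1 (fun i => y i - (p.2 i : ℝ)) := by
    intro p
    show vf A c ((p.1 : Fin 20 → ℤ) + A.mulVec p.2) (-1 / τ) *
      ∫ y in Icc (0 : Fin 20 → ℝ) 1, hs A (-1 / τ) μ ((p.1 : Fin 20 → ℤ) + A.mulVec p.2) y = _
    rw [vf_inv h hc _ _ hσ]
    simp only [hs_shift h]
  have h4 : HasSum (fun p : R × (Fin 20 → ℤ) => vf A c p.1 (-1 / τ) *
      ∫ y in Icc (0 : Fin 20 → ℝ) 1, hs A (-1 / τ) μ p.1 (fun i => y i - (p.2 i : ℝ)))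
      (fc c μ τ) := by
    rw [← funext h3]
    exact h2
  have h5 := h4.prod_fiberwise (g := fun ρ : R => vf A c ρ (-1 / τ) *
    ∫ y, hs A (-1 / τ) μ ρ y) (fun ρ =>
      (unfold_box (hs A (-1 / τ) μ ρ) (hs_int h hσ μ ρ).1).mul_left (vf A c ρ (-1 / τ)))
  have h6 := h5.unique (hasSum_fintype _)
  have h7 : ∀ ρ : R, vf A c ρ (-1 / τ) * ∫ y, hs A (-1 / τ) μ ρ y =
      vf A c ρ (-1 / τ) * (ee (-(bd A μ ρ : ℂ)) * (-(τ ^ 10) / (Real.sqrt (A.det : ℝ) : ℂ) *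
        ee (τ * (bd A μ μ : ℂ) / 2))) := by
    intro ρ
    rw [(hs_int h hσ μ ρ).2, (gs_int h hσ μ).2, hσσ]
  simp only [h7] at h6
  rw [Finset.sum_coe_sort R (fun ρ => vf A c ρ (-1 / τ) * (ee (-(bd A μ ρ : ℂ)) *
    (-(τ ^ 10) / (Real.sqrt (A.det : ℝ) : ℂ) * ee (τ * (bd A μ μ : ℂ) / 2))))] at h6
  have h8 : vf A c μ τ = ee (-(τ * (bd A μ μ : ℂ) / 2)) * fc c μ τ := rfl
  rw [h8, h6, Finset.mul_sum, Finset.mul_sum]
  refine Finset.sum_congr rfl fun ρ _ => ?_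
  have h9 := ee_neg_mul (τ * (bd A μ μ : ℂ) / 2)
  linear_combination (vf A c ρ (-1 / τ) * (ee (-(bd A μ ρ : ℂ)) *
    (-(τ ^ 10) / (Real.sqrt (A.det : ℝ) : ℂ)))) * h9

/-- the theta components form a vector valued form -/
theorem vf_VV10 (h : PosSymm A) (hc : JacobiZero A c) {R : Finset (Fin 20 → ℤ)}
    (hR : IsReps A R) : VV10 A R (vf A c) where
  holo μ := by
    unfold vf
    refine DifferentiableOn.mul ?_ (fc_holo hc μ)
    have h1 : Differentiable ℂ (fun τ : ℂ => -(τ * (bd A μ μ : ℂ) / 2)) := by fun_prop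
    exact (Y683.RL.ee_diff.comp h1).differentiableOn
  inv μ v τ hτ := vf_inv h hc μ v hτ
  T μ τ hτ := by
    unfold vf
    rw [fc_per hc μ hτ, ← mul_assoc, ← ee_add]
    congr 2
    ring
  S μ τ hτ := jobTheta2 A c R h hc hR μ τ hτ

/-- nonvanishing -/
theorem exists_vf_ne (hc : JacobiZero A c) {τ : ℂ} {z : Fin 20 → ℂ} (hτ : 0 < τ.im)
    (hne : c τ z ≠ 0) : ∃ μ, vf A c μ τ ≠ 0 := by
  by_contra hcon
  push Not at hcon
  have h1 := (jz_ep hc hτ).hasSum z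
  have h2 : ∀ μ, tc (c τ) μ = 0 := by
    intro μ
    have h3 := hcon μ
    unfold vf at h3
    rcases mul_eq_zero.1 h3 with h4 | h4
    · exact absurd h4 (ee_ne _)
    · exact h4
  simp only [h2, zero_mul] at h1
  exact hne (h1.unique hasSum_zero)

end

end Pool.Agent.V11282.RL
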