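import Pool.Agent.Y813.RL.Jac2
import Pool.Agent.Y813.RL.Per
import Pool.Agent.V11282.RL.Theta2

set_option autoImplicit false

/-!
# Growth of the Jacobi form on rational slices
-/

namespace Pool.Agent.V11282.RL

open Pool.Agent.Y813.RL hiding ee_add ee_int ee_zero
open Complex Set Topology MeasureTheory
open Pool.Agent.Y683.RL (ee_add ee_int ee_norm ee_zero ee_ne ee_neg_mul HP fco)

noncomputable section

variable {G : Matrix (Fin 20) (Fin 20) ℤ} {k : ℤ} {F : TP → ℂ}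
  {φ : ℕ → ℂ × (Fin 20 → ℂ) → ℂ} {C m : ℕ}

/-- the slice -/
def pt (X : Fin 20 → ℤ) (N : ℕ) (y : Fin 20 → ℝ) (t : ℂ) : ℂ × (Fin 20 → ℂ) :=
  ((N : ℂ) * t, fun i => t * (X i : ℂ) + (y i : ℂ))

section pt

variable (X : Fin 20 → ℤ) {N : ℕ} (y : Fin 20 → ℝ)

theorem pt_im (t : ℂ) : (pt X N y t).1.im = N * t.im := by
  simp [pt, Complex.mul_im]

theorem pt_UP (hN : 0 < N) {t : ℂ} (ht : 0 < t.im) : pt X N y t ∈ UP := by
  show 0 < (pt X N y t).1.im
  rw [pt_im]
  have : (0 : ℝ) < N := by exact_mod_cast hN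
  positivity

theorem pt_imv (hN : 0 < N) (t : ℂ) : imv (pt X N y t).2 = ((N : ℝ) * t.im) • xr X N := by
  funext i
  have : (0 : ℝ) < N := by exact_mod_cast hN
  simp only [imv, pt, xr, Pi.smul_apply, smul_eq_mul, Complex.add_im, Complex.mul_im,
    Complex.intCast_re, Complex.intCast_im, Complex.ofReal_im]
  field_simp
  ring

theorem pt_xp (hN : 0 < N) {t : ℂ} (ht : 0 < t.im) : xp (pt X N y t) = xr X N := by
  have : (0 : ℝ) < N := by exact_mod_cast hN
  unfold xp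
  rw [pt_imv X y hN, pt_im, smul_smul]
  have h1 : ((N : ℝ) * t.im)⁻¹ * ((N : ℝ) * t.im) = 1 := by
    field_simp
  rw [h1, one_smul]

theorem pt_bh (hN : 0 < N) {t : ℂ} (ht : 0 < t.im) :
    bh G (pt X N y t) = N * t.im * (bf G (xr X N) (xr X N) / 2) := by
  rw [bh_eq (pt_UP X y hN ht), pt_xp X y hN ht, pt_im]

theorem pt_ht (hN : 0 < N) {t : ℂ} (ht : 0 < t.im) (ω : ℂ) :
    Y813.RL.ht G (ω, pt X N y t) = ω.im / (N * t.im) - bf G (xr X N) (xr X N) / 2 := by
  unfold Y813.RL.ht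
  simp only
  rw [pt_xp X y hN ht, pt_im]

theorem pt_shift (t : ℂ) : pt X N y (t + 1) = ((pt X N y t).1 + (N : ℤ),
    fun i => (pt X N y t).2 i + (X i : ℂ)) := by
  refine Prod.ext ?_ ?_
  · simp [pt]; ring
  · funext i
    simp [pt]; ring

theorem pt_diff : Differentiable ℂ (pt X N y) := by
  unfold pt
  fun_prop

end pt

/-- a generic slice avoids the mirrors -/
theorem pt_not_mir {N : ℕ} (hN : 0 < N) {X : Fin 20 → ℤ}
    (hgen : ∀ μ : Fin 20 → ℤ, 0 < bd G μ μ → bd G μ μ ≤ 2 → ∀ l : ℤ, dt μ (xr X N) ≠ l)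
    (y : Fin 20 → ℝ) {t : ℂ} (ht : 0 < t.im) : pt X N y t ∉ Mir G := by
  rw [not_mir (pt_UP X y hN ht)]
  intro μ h1 h2
  left
  rw [pt_xp X y hN ht]
  exact hgen μ h1 h2

/-- periodicity of the Fourier-Jacobi coefficients on slices -/
theorem phi_HP (H : CM G k F φ C m) {N : ℕ} (hN : 0 < N) (X : Fin 20 → ℤ) (y : Fin 20 → ℝ)
    (j : ℕ) : HP 0 (fun t => φ j (pt X N y t)) where
  holo := by
    refine (H.fd.holo j).comp (pt_diff X y).differentiableOn fun t ht => ?_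
    exact pt_UP X y hN ht
  per t ht := by
    have h1 : 0 < (t + 1).im := by simpa using ht
    have := H.fd.law (pt X N y t) (pt X N y (t + 1)) 0 1 (pt_UP X y hN ht) (pt_UP X y hN h1) (by
      intro ω h2 _
      rw [add_zero, one_mul, pt_shift]
      have := H.tf.tr (ω, pt X N y t) ⟨pt_UP X y hN ht, h2⟩ 0 N X
      rw [← this]
      simp) j
    rw [this]
    simp [ee_zero]

/-- the leading coefficient on a slice is bounded from above and below -/
theorem phi_upper (hKD : JobKD) (h : PosSymm G) (H : CM G k F φ C m) {N : ℕ} (hN : 0 < N)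
    (X : Fin 20 → ℤ) (y : Fin 20 → ℝ) (j : ℕ) :
    ∃ M a : ℝ, ∀ t : ℂ, 1 ≤ t.im → ‖φ j (pt X N y t)‖ ≤ M * Real.exp (a * t.im) := by
  obtain ⟨M, hM⟩ := bound_slice hKD h H.tf X hN one_pos
  have hN' : (1 : ℝ) ≤ N := by exact_mod_cast hN
  set q := bf G (xr X N) (xr X N) with hq
  have hq0 : 0 ≤ q := h.nonneg _
  refine ⟨M, 2 * Real.pi * j * (N * (1 + q / 2)), fun t ht => ?_⟩
  have ht0 : 0 < t.im := by linarith
  set v : ℝ := (1 + q / 2) * (N * t.im) with hv
  have hbv : bh G (pt X N y t) < v := by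
    rw [pt_bh X y hN ht0, ← hq, hv]
    have : 0 < (N : ℝ) * t.im := by positivity
    nlinarith
  rw [H.fd.coeff j _ v (pt_UP X y hN ht0) hbv]
  have h1 : ∀ u ∈ Set.uIoc (0 : ℝ) 1, ‖F ((u : ℂ) + (v : ℂ) * Complex.I, pt X N y t) *
      ee (-(j * ((u : ℂ) + (v : ℂ) * Complex.I)))‖ ≤
        M * Real.exp (2 * Real.pi * j * (N * (1 + q / 2)) * t.im) := by
    intro u _
    rw [norm_mul, ee_norm]
    have h2 : (-((j : ℂ) * ((u : ℂ) + (v : ℂ) * Complex.I))).im = -(j * v) := by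
      simp [Complex.mul_im]
    rw [h2]
    have h3 : -(2 * Real.pi * -(j * v)) = 2 * Real.pi * j * (N * (1 + q / 2)) * t.im := by
      rw [hv]; ring
    rw [h3]
    refine mul_le_mul_of_nonneg_right (hM _ ?_ ?_ ?_) (Real.exp_pos _).le
    · show 1 ≤ (pt X N y t).1.im
      rw [pt_im]
      nlinarith
    · show imv (pt X N y t).2 = (pt X N y t).1.im • xr X N
      rw [pt_imv X y hN, pt_im]
    · show (1 + bf G (xr X N) (xr X N) / 2) * (pt X N y t).1.im ≤
        ((u : ℂ) + (v : ℂ) * Complex.I).im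
      rw [pt_im, ← hq]
      simp [hv]
  have := intervalIntegral.norm_integral_le_of_norm_le_const h1
  simpa using this

/-- bound for the normalised function on slices -/
theorem gp_exp (hKD : JobKD) (h : PosSymm G) (H : CM G k F φ C m) {N : ℕ} (hN : 0 < N)
    {X : Fin 20 → ℤ} (hgen : ∀ μ : Fin 20 → ℤ, 0 < bd G μ μ → bd G μ μ ≤ 2 →
      ∀ l : ℤ, dt μ (xr X N) ≠ l) (y : Fin 20 → ℝ) {η : ℝ} (hη : 0 < η) :
    ∃ K T : ℝ, 0 < K ∧ 1 ≤ T ∧ ∀ t : ℂ, T ≤ t.im → ∀ s : ℂ,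
      ‖s‖ ≤ Real.exp (-(2 * Real.pi * (N * t.im * (η + bf G (xr X N) (xr X N) / 2)))) →
      ‖gp φ C m (pt X N y t) s‖ ≤ Real.exp (K * t.im) := by
  obtain ⟨M, hM⟩ := bound_slice hKD h H.tf X hN hη
  have hN' : (1 : ℝ) ≤ N := by exact_mod_cast hN
  set q := bf G (xr X N) (xr X N) with hq
  have hq0 : 0 ≤ q := h.nonneg _
  have hne0 : ∀ t : ℂ, 0 < t.im → φ C (pt X N y t) ≠ 0 := fun t ht =>
    leading_ne_zero h H.tf H.fd H.hC H.hne (pt_UP X y hN ht) (pt_not_mir hN hgen y ht)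
  obtain ⟨M', a, hup⟩ := phi_upper hKD h H hN X y C
  obtain ⟨c₀, a', T₁, hc₀, hlow⟩ := per_lower (phi_HP H hN X y C)
    ⟨Complex.I, by simp, hne0 _ (by simp)⟩ hup
  set L : ℝ := |Real.log (|M| + 1)| + |Real.log c₀| + |a'| +
    2 * Real.pi * (N * (η + q / 2)) * C + 1 with hL
  have hpos : 0 ≤ 2 * Real.pi * (N * (η + q / 2)) * C := by positivity
  have hL0 : 0 < L := by
    rw [hL]
    positivity
  refine ⟨L, max T₁ 1, hL0, le_max_right _ _, fun t ht s hs => ?_⟩
  have ht1 : T₁ ≤ t.im := (le_max_left _ _).trans ht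
  have ht2 : 1 ≤ t.im := (le_max_right _ _).trans ht
  have ht0 : 0 < t.im := by linarith
  set v : ℝ := N * t.im * (η + q / 2) with hv
  have hbv : bh G (pt X N y t) < v := by
    rw [pt_bh X y hN ht0, ← hq, hv]
    have : 0 < (N : ℝ) * t.im := by positivity
    nlinarith
  have h1 := H.gp_bound (pt_UP X y hN ht0) (hne0 t ht0) hbv (M := |M|) (by
    intro ω hω
    refine (hM _ ?_ ?_ ?_).trans (le_abs_self M)
    · show 1 ≤ (pt X N y t).1.im
      rw [pt_im]
      nlinarith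
    · show imv (pt X N y t).2 = (pt X N y t).1.im • xr X N
      rw [pt_imv X y hN, pt_im]
    · show (η + bf G (xr X N) (xr X N) / 2) * (pt X N y t).1.im ≤ ω.im
      rw [pt_im, ← hq, hω, hv]
      linarith) (s := s) hs
  refine h1.trans ?_
  have h2 := hlow t ht1
  have h3 : 0 < ‖φ C (pt X N y t)‖ := norm_pos_iff.2 (hne0 t ht0)
  rw [div_le_iff₀ h3]
  have h4 : |M| ≤ Real.exp |Real.log (|M| + 1)| := by
    have h5 : |M| + 1 ≤ Real.exp |Real.log (|M| + 1)| := by
      calc |M| + 1 = Real.exp (Real.log (|M| + 1)) := (Real.exp_log (by positivity)).symm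
        _ ≤ _ := Real.exp_le_exp.2 (le_abs_self _)
    linarith
  have h5 : Real.exp (-|Real.log c₀|) ≤ c₀ := by
    calc Real.exp (-|Real.log c₀|) ≤ Real.exp (Real.log c₀) :=
          Real.exp_le_exp.2 (by linarith [neg_abs_le (Real.log c₀)])
      _ = c₀ := Real.exp_log hc₀
  calc |M| * Real.exp (2 * Real.pi * v * C)
      ≤ Real.exp |Real.log (|M| + 1)| * Real.exp (2 * Real.pi * v * C) := by gcongr
    _ ≤ Real.exp (L * t.im) * (Real.exp (-|Real.log c₀|) * Real.exp (-(a' * t.im))) := by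
        rw [← Real.exp_add, ← Real.exp_add, ← Real.exp_add, Real.exp_le_exp, hL, hv]
        have b1 : |Real.log (|M| + 1)| ≤ |Real.log (|M| + 1)| * t.im := by
          nlinarith [abs_nonneg (Real.log (|M| + 1))]
        have b2 : |Real.log c₀| ≤ |Real.log c₀| * t.im := by
          nlinarith [abs_nonneg (Real.log c₀)]
        have b3 : a' * t.im ≤ |a'| * t.im := by
          nlinarith [le_abs_self a']
        nlinarith
    _ ≤ Real.exp (L * t.im) * ‖φ C (pt X N y t)‖ := by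
        gcongr
        exact (mul_le_mul_of_nonneg_right h5 (Real.exp_pos _).le).trans h2

/-- growth of the Jacobi form from a zero free region -/
theorem c_growth (hBC : JobBC) (hKD : JobKD) (h : PosSymm G) (H : CM G k F φ C m)
    {c : ℂ → (Fin 20 → ℂ) → ℂ}
    (hcq : ∀ τ z, 0 < τ.im → φ (C + m) (τ, z) = φ C (τ, z) * c τ z) {N : ℕ} (hN : 0 < N)
    {X : Fin 20 → ℤ} (hgen : ∀ μ : Fin 20 → ℤ, 0 < bd G μ μ → bd G μ μ ≤ 2 →
      ∀ l : ℤ, dt μ (xr X N) ≠ l) (y : Fin 20 → ℝ) {η : ℝ} (hη : 0 < η)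
    (hZ : ∃ T : ℝ, ∀ t : ℂ, T ≤ t.im → 0 < t.im → ∀ ω : ℂ, η < Y813.RL.ht G (ω, pt X N y t) →
      F (ω, pt X N y t) ≠ 0) :
    ∃ K T : ℝ, 1 ≤ T ∧ ∀ t : ℂ, T ≤ t.im → ‖c (pt X N y t).1 (pt X N y t).2‖ ≤
      K * t.im * Real.exp (2 * Real.pi * (m * (N * (η + bf G (xr X N) (xr X N) / 2))) * t.im) := by
  obtain ⟨K, T, hK, hT, hb⟩ := gp_exp hKD h H hN hgen y hη
  obtain ⟨T', hZ⟩ := hZ
  have hN' : (1 : ℝ) ≤ N := by exact_mod_cast hN
  set q := bf G (xr X N) (xr X N) with hq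
  have hq0 : 0 ≤ q := h.nonneg _
  refine ⟨2 * K * 2 ^ m, max T T', hT.trans (le_max_left _ _), fun t ht => ?_⟩
  have ht1 : T ≤ t.im := (le_max_left _ _).trans ht
  have ht2 : T' ≤ t.im := (le_max_right _ _).trans ht
  have ht0 : 0 < t.im := by linarith
  have hNt : 0 < (N : ℝ) * t.im := by positivity
  have hp := pt_UP X y hN ht0
  have h0 : φ C (pt X N y t) ≠ 0 :=
    leading_ne_zero h H.tf H.fd H.hC H.hne hp (pt_not_mir hN hgen y ht0)
  set R := Real.exp (-(2 * Real.pi * (N * t.im * (η + q / 2)))) with hR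
  have hR0 : 0 < R := Real.exp_pos _
  have hbh : bh G (pt X N y t) = N * t.im * (q / 2) := pt_bh X y hN ht0
  have hRR : R < Real.exp (-(2 * Real.pi * bh G (pt X N y t))) := by
    rw [hR, Real.exp_lt_exp, hbh]
    have := Real.pi_pos
    have h1 : 0 < 2 * Real.pi * (N * t.im * η) := by positivity
    nlinarith
  have hgne : ∀ s ∈ Metric.ball (0 : ℂ) R, gp φ C m (pt X N y t) s ≠ 0 := by
    intro s hs
    rw [Metric.mem_ball, dist_zero_right] at hs
    by_cases hs0 : s = 0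
    · rw [hs0]
      simp [gp, H.hm.ne']
    · obtain ⟨ω, hω, him⟩ := exists_ee hs0
      have hvω : N * t.im * (η + q / 2) < ω.im := by
        rw [him, lt_div_iff₀ (by positivity)]
        have := Real.log_lt_log (norm_pos_iff.2 hs0) hs
        rw [hR, Real.log_exp] at this
        linarith
      have hbω : bh G (pt X N y t) < ω.im := by
        rw [hbh]
        nlinarith
      rw [← hω, H.gp_eq hp h0 hbω]
      refine div_ne_zero (mul_ne_zero (hZ t ht2 ht0 ω ?_) (ee_ne _)) h0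
      rw [pt_ht X y hN ht0, ← hq, lt_sub_iff_add_lt, lt_div_iff₀ hNt]
      linarith
  have hHd := H.Hs_diff hp
  have hcont : ContinuousAt (fun s => Hs φ C m (pt X N y t) s / φ C (pt X N y t)) 0 := by
    have : DifferentiableAt ℂ (Hs φ C m (pt X N y t)) 0 :=
      hHd.differentiableAt (Metric.isOpen_ball.mem_nhds (Metric.mem_ball_self (Real.exp_pos _)))
    exact (this.div_const _).continuousAt
  have key := hBC m R (K * t.im) (gp φ C m (pt X N y t))
    (fun s => Hs φ C m (pt X N y t) s / φ C (pt X N y t)) H.hm hR0 (by positivity)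
    ((H.gp_diff hp).mono (Metric.ball_subset_ball hRR.le)) hcont (fun s _ => rfl) hgne
    (fun s hs => by
      rw [Metric.mem_ball, dist_zero_right] at hs
      exact hb t ht1 s hs.le)
  simp only [Hs_zero] at key
  have hc : φ (C + m) (pt X N y t) / φ C (pt X N y t) = c (pt X N y t).1 (pt X N y t).2 := by
    have := hcq (pt X N y t).1 (pt X N y t).2 hp
    rw [div_eq_iff h0, mul_comm]
    exact this
  rw [hc] at key
  refine key.trans (le_of_eq ?_)
  rw [div_pow, hR, ← Real.exp_nat_mul, div_eq_mul_inv, ← Real.exp_neg]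
  have e : -((m : ℝ) * -(2 * Real.pi * (N * t.im * (η + q / 2)))) =
      2 * Real.pi * (m * (N * (η + q / 2))) * t.im := by ring
  rw [e]
  ring

end

end Pool.Agent.V11282.RL
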