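import Pool.Agent.V11282.RL.Tor
import Pool.Agent.Y813.RL.Gen

set_option autoImplicit false

/-!
# Theta decomposition
-/

namespace Pool.Agent.V11282.RL

open Pool.Agent.Y813.RL MeasureTheory Set
open Pool.Agent.Y683.RL (ee_add ee_int ee_norm ee_zero ee_ne ee_neg_mul)

noncomputable section

variable {A : Matrix (Fin 20) (Fin 20) ℤ} {c : ℂ → (Fin 20 → ℂ) → ℂ}

theorem jz_ep (hc : JacobiZero A c) {τ : ℂ} (hτ : 0 < τ.im) : EP (c τ) where
  holo := by
    intro z
    have hU : IsOpen {p : ℂ × (Fin 20 → ℂ) | 0 < p.1.im} :=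
      isOpen_lt continuous_const (by fun_prop)
    have h1 := (hc.holo (τ, z) hτ).differentiableAt (hU.mem_nhds hτ)
    have h2 : DifferentiableAt ℂ (fun z : Fin 20 → ℂ => (τ, z)) z := by fun_prop
    exact DifferentiableAt.comp z (f := fun z : Fin 20 → ℂ => (τ, z)) h1 h2
  per z v := hc.perz τ z v hτ

theorem fc_eq (c : ℂ → (Fin 20 → ℂ) → ℂ) (μ : Fin 20 → ℤ) (τ : ℂ) : fc c μ τ = tc (c τ) μ := rfl

theorem fc_holo (hc : JacobiZero A c) (μ : Fin 20 → ℤ) :
    DifferentiableOn ℂ (fc c μ) {τ | 0 < τ.im} := by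
  unfold fc
  have hU : IsOpen {τ : ℂ | 0 < τ.im} := isOpen_lt continuous_const Complex.continuous_im
  refine differentiableOn_setIntegral volume isCompact_Icc measurableSet_Icc
    isCompact_Icc.measure_lt_top hU (f := fun τ (y : Fin 20 → ℝ) =>
      c τ (fun i => (y i : ℂ)) * ee (-(dt μ (fun i => (y i : ℂ))))) ?_ ?_
  · refine ContinuousOn.mul ?_ ?_
    · refine ContinuousOn.comp (g := fun p : ℂ × (Fin 20 → ℂ) => c p.1 p.2)
        (f := fun q : ℂ × (Fin 20 → ℝ) => (q.1, fun i => (q.2 i : ℂ))) hc.holo.continuousOn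
        (by fun_prop) ?_
      intro q hq
      exact hq.1
    · refine Continuous.continuousOn ?_
      refine Y683.RL.ee_cont.comp (Continuous.neg ?_)
      exact (dt_diffC μ).continuous.comp (by fun_prop)
  · intro y _
    refine DifferentiableOn.mul_const ?_ _
    refine DifferentiableOn.comp (g := fun p : ℂ × (Fin 20 → ℂ) => c p.1 p.2)
        (f := fun τ : ℂ => (τ, fun i => (y i : ℂ))) hc.holo (by fun_prop) ?_
    intro τ hτ
    exact hτ

theorem fc_per (hc : JacobiZero A c) (μ : Fin 20 → ℤ) {τ : ℂ} (hτ : 0 < τ.im) :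
    fc c μ (τ + 1) = fc c μ τ := by
  unfold fc
  refine setIntegral_congr_fun measurableSet_Icc fun y _ => ?_
  rw [hc.perτ _ _ hτ]

theorem bf_dot_int (v : Fin 20 → ℤ) (z : Fin 20 → ℂ) (h : A.IsSymm) :
    bf A (fun i => (v i : ℂ)) z = dt (A.mulVec v) z := by
  unfold bf dt Matrix.mulVec dotProduct
  rw [Finset.sum_comm]
  refine Finset.sum_congr rfl fun i _ => ?_
  push_cast
  rw [Finset.sum_mul]
  refine Finset.sum_congr rfl fun j _ => ?_
  rw [← h.apply i j]
  ring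

theorem bf_self_int (v : Fin 20 → ℤ) :
    bf A (fun i => (v i : ℂ)) (fun i => (v i : ℂ)) = ((bf A v v : ℤ) : ℂ) := bf_intCast A v v

theorem bd_add_mulVec (h : PosSymm A) (μ v : Fin 20 → ℤ) :
    bd A (μ + A.mulVec v) (μ + A.mulVec v) = bd A μ μ + 2 * ((dotProduct μ v : ℤ) : ℝ) +
      ((bf A v v : ℤ) : ℝ) := by
  rw [bd_add_left, bd_add_right, bd_add_right, bd_mulVec_right h, bd_mulVec_left h,
    bd_mulVec_right h]
  have h1 : dotProduct (A.mulVec v) v = bf A v v := by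
    rw [dotProduct_comm]
    unfold bf dotProduct Matrix.mulVec dotProduct
    refine Finset.sum_congr rfl fun i _ => ?_
    rw [Finset.mul_sum]
    refine Finset.sum_congr rfl fun j _ => ?_
    simp [mul_assoc]
  rw [h1]
  ring

theorem vf_inv (h : PosSymm A) (hc : JacobiZero A c) (μ v : Fin 20 → ℤ) {τ : ℂ} (hτ : 0 < τ.im) :
    vf A c (μ + A.mulVec v) τ = vf A c μ τ := by
  have h1 := (jz_ep hc hτ).tc_shift μ (fun i => τ * (v i : ℂ))
  have h2 : ∀ y : Fin 20 → ℝ, c τ (fun i => τ * (v i : ℂ) + (y i : ℂ)) *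
      ee (-(dt μ (fun i => τ * (v i : ℂ) + (y i : ℂ)))) =
      ee (-(τ * (((dotProduct μ v : ℤ) : ℂ) + ((bf A v v : ℤ) : ℂ) / 2))) *
        (c τ (fun i => (y i : ℂ)) * ee (-(dt (μ + A.mulVec v) (fun i => (y i : ℂ))))) := by
    intro y
    have h3 := hc.quasi τ (fun i => (y i : ℂ)) v hτ
    have e1 : (fun i => τ * (v i : ℂ) + (y i : ℂ)) = fun i => (y i : ℂ) + τ * (v i : ℂ) := by
      ext i; ring
    rw [e1, h3, bf_dot_int _ _ h.symm, bf_self_int]
    have e2 : ∀ a b x d : ℂ, ee a * x * ee b = ee (a + b) * x := by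
      intro a b x d
      rw [ee_add]; ring
    rw [e2 _ _ _ 0]
    have e3 : ∀ a b x : ℂ, ee a * (x * ee b) = ee (a + b) * x := by
      intro a b x
      rw [ee_add]; ring
    rw [e3]
    congr 2
    rw [dt_add_right]
    have e4 : dt μ (fun i => τ * (v i : ℂ)) = τ * ((dotProduct μ v : ℤ) : ℂ) := by
      have := dt_smul (R := ℂ) μ τ (fun i => (v i : ℂ))
      rw [dt_intCast] at this
      exact this
    have e5 : dt (μ + A.mulVec v) (fun i => (y i : ℂ)) = dt μ (fun i => (y i : ℂ)) +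
        dt (A.mulVec v) (fun i => (y i : ℂ)) := dt_add_left μ (A.mulVec v) _
    rw [e4, e5]
    ring
  unfold vf
  rw [fc_eq, fc_eq, h1]
  simp only [h2]
  rw [integral_const_mul]
  unfold tc
  rw [← mul_assoc, ← ee_add]
  congr 2
  rw [bd_add_mulVec h]
  push_cast
  ring

theorem jobTheta1 : JobTheta1 := by
  intro A c h hc
  refine ⟨fc_holo hc, fun μ τ hτ => fc_per hc μ hτ, fun μ τ w hτ => ?_,
    fun μ v τ hτ => vf_inv h hc μ v hτ, fun τ z hτ => (jz_ep hc hτ).hasSum z⟩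
  exact (jz_ep hc hτ).tc_shift μ w

end

end Pool.Agent.V11282.RL
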