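import Pool.Agent.V11282.RL.Bd
import Pool.Agent.Y813.RL.HI

set_option autoImplicit false

/-!
# Fourier series of entire functions periodic in the real directions
-/

namespace Pool.Agent.V11282.RL

open Pool.Agent.Y813.RL MeasureTheory Set
open Pool.Agent.Y683.RL (ee_add ee_int ee_norm ee_zero ee_ne)

noncomputable section

/-- the projection to the torus -/
def mkT (x : Fin 20 → ℝ) : UnitAddTorus (Fin 20) := fun i => (x i : UnitAddCircle)

theorem mkT_quot : IsOpenQuotientMap mkT :=
  IsOpenQuotientMap.piMap (fun _ => QuotientAddGroup.isOpenQuotientMap_mk)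

/-- continuous periodic functions live on the torus -/
theorem exists_lift (g : (Fin 20 → ℝ) → ℂ) (hg : Continuous g)
    (hp : ∀ (x : Fin 20 → ℝ) (v : Fin 20 → ℤ), g (fun i => x i + (v i : ℝ)) = g x) :
    ∃ F : C(UnitAddTorus (Fin 20), ℂ), ∀ x : Fin 20 → ℝ, F (mkT x) = g x := by
  have hs : ∀ t : UnitAddTorus (Fin 20), ∃ x, mkT x = t := mkT_quot.surjective
  choose r hr using hs
  have h1 : ∀ x, g (r (mkT x)) = g x := by
    intro x
    have h2 := hr (mkT x)
    have h3 : ∀ i, ∃ n : ℤ, r (mkT x) i = x i + n := by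
      intro i
      have h4 : ((r (mkT x) i : ℝ) : UnitAddCircle) = ((x i : ℝ) : UnitAddCircle) := congrFun h2 i
      rw [eq_comm, QuotientAddGroup.eq] at h4
      obtain ⟨n, hn⟩ := AddSubgroup.mem_zmultiples_iff.1 h4
      refine ⟨n, ?_⟩
      simp at hn
      linarith
    choose n hn using h3
    have h5 : r (mkT x) = fun i => x i + (n i : ℝ) := funext hn
    rw [h5, hp]
  refine ⟨⟨fun t => g (r t), ?_⟩, h1⟩
  rw [mkT_quot.isQuotientMap.continuous_iff]
  have : (fun t => g (r t)) ∘ mkT = g := funext h1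
  rw [this]
  exact hg

/-- the half open box -/
def bx (a : Fin 20 → ℝ) : Set (Fin 20 → ℝ) := {x | ∀ i, x i ∈ Ioc (a i) (a i + 1)}

theorem bx_meas (a : Fin 20 → ℝ) : MeasurableSet (bx a) := by
  have : bx a = Set.pi univ (fun i => Ioc (a i) (a i + 1)) := by
    ext x; simp [bx]
  rw [this]
  exact MeasurableSet.univ_pi fun i => measurableSet_Ioc

theorem bx_ae : (bx 0 : Set (Fin 20 → ℝ)) =ᵐ[volume] Icc (0 : Fin 20 → ℝ) 1 := by
  have h1 : bx (0 : Fin 20 → ℝ) = Set.pi univ (fun i : Fin 20 => Ioc ((0 : Fin 20 → ℝ) i)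
      ((1 : Fin 20 → ℝ) i)) := by
    ext x; simp [bx]
  rw [h1]
  exact Measure.univ_pi_Ioc_ae_eq_Icc

/-- integral over the box of a translate -/
theorem int_translate {E : Type*} [NormedAddCommGroup E] [NormedSpace ℝ E]
    (g : (Fin 20 → ℝ) → E) (a b : Fin 20 → ℝ) :
    ∫ x in bx a, g (x + b) = ∫ x in bx (a + b), g x := by
  rw [← integral_indicator (bx_meas _), ← integral_indicator (bx_meas _)]
  rw [← integral_add_right_eq_self ((bx (a + b)).indicator g) b]
  congr 1
  ext x
  by_cases hx : x ∈ bx a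
  · have hx' : x + b ∈ bx (a + b) := by
      intro i
      have := hx i
      simp only [Pi.add_apply, mem_Ioc] at this ⊢
      constructor <;> linarith [this.1, this.2]
    rw [indicator_of_mem hx, indicator_of_mem hx']
  · have hx' : x + b ∉ bx (a + b) := by
      intro h
      apply hx
      intro i
      have := h i
      simp only [Pi.add_apply, mem_Ioc] at this ⊢
      constructor <;> linarith [this.1, this.2]
    rw [indicator_of_notMem hx, indicator_of_notMem hx']

/-- integral of a periodic function over a translated box -/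
theorem int_periodic (g : (Fin 20 → ℝ) → ℂ) (hg : Continuous g)
    (hp : ∀ (x : Fin 20 → ℝ) (v : Fin 20 → ℤ), g (fun i => x i + (v i : ℝ)) = g x)
    (b : Fin 20 → ℝ) :
    ∫ x in Icc (0 : Fin 20 → ℝ) 1, g (x + b) = ∫ x in Icc (0 : Fin 20 → ℝ) 1, g x := by
  obtain ⟨F, hF⟩ := exists_lift g hg hp
  have h1 := UnitAddTorus.integral_preimage F (0 : Fin 20 → ℝ)
  have h2 := UnitAddTorus.integral_preimage F b
  have e1 : ∀ a : Fin 20 → ℝ, ∫ (x : Fin 20 → ℝ) in {x : Fin 20 → ℝ | ∀ i, x i ∈ Ioc (a i) (a i + 1)},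
      F (fun i => (x i : UnitAddCircle)) = ∫ x in bx a, g x := by
    intro a
    exact setIntegral_congr_fun (bx_meas a) fun x _ => hF x
  rw [e1] at h1 h2
  rw [← setIntegral_congr_set bx_ae, ← setIntegral_congr_set bx_ae, int_translate, zero_add, ← h1,
    ← h2]

/-- unfolding -/
theorem unfold_box {E : Type*} [NormedAddCommGroup E] [NormedSpace ℝ E] 
    (g : (Fin 20 → ℝ) → E) (hg : Integrable g) :
    HasSum (fun v : Fin 20 → ℤ => ∫ x in Icc (0 : Fin 20 → ℝ) 1, g (fun i => x i - (v i : ℝ)))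
      (∫ x, g x) := by
  have hU : (⋃ v : Fin 20 → ℤ, bx (fun i => -(v i : ℝ))) = univ := by
    rw [eq_univ_iff_forall]
    intro x
    rw [mem_iUnion]
    refine ⟨fun i => -(⌈x i⌉ - 1), fun i => ?_⟩
    simp only [mem_Ioc]
    push_cast
    constructor
    · linarith [Int.ceil_lt_add_one (x i)]
    · linarith [Int.le_ceil (x i)]
  have hD : Pairwise (Function.onFun Disjoint fun v : Fin 20 → ℤ => bx (fun i => -(v i : ℝ))) := by
    intro v w hvw
    rw [Function.onFun, Set.disjoint_left]
    intro x hx hy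
    apply hvw
    ext i
    have h1 := hx i
    have h2 := hy i
    simp only [mem_Ioc] at h1 h2
    have h3 : (v i : ℝ) < w i + 1 := by linarith [h1.1, h2.2]
    have h4 : (w i : ℝ) < v i + 1 := by linarith [h2.1, h1.2]
    have h3' : v i < w i + 1 := by exact_mod_cast h3
    have h4' : w i < v i + 1 := by exact_mod_cast h4
    omega
  have h1 := hasSum_integral_iUnion (μ := volume) (f := g)
    (s := fun v : Fin 20 → ℤ => bx (fun i => -(v i : ℝ)))
    (fun v => bx_meas _) hD hg.integrableOn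
  rw [hU, setIntegral_univ] at h1
  have e : ∀ v : Fin 20 → ℤ, ∫ x in Icc (0 : Fin 20 → ℝ) 1, g (fun i => x i - (v i : ℝ)) =
      ∫ x in bx (fun i => -(v i : ℝ)), g x := by
    intro v
    rw [← setIntegral_congr_set bx_ae]
    have h2 := int_translate g 0 (fun i => -(v i : ℝ))
    rw [zero_add] at h2
    rw [← h2]
    refine setIntegral_congr_fun (bx_meas _) fun x _ => ?_
    congr 1
  simp only [e]
  exact h1

/-- product sums -/
theorem summable_pi {g : ℤ → ℝ} (hg0 : ∀ n, 0 ≤ g n) (hg : Summable g) :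
    Summable (fun μ : Fin 20 → ℤ => ∏ i, g (μ i)) := by
  classical
  refine summable_of_sum_le (c := ∏ _i : Fin 20, ∑' n, g n)
    (fun μ => Finset.prod_nonneg fun i _ => hg0 _) (fun S => ?_)
  calc ∑ μ ∈ S, ∏ i, g (μ i)
      ≤ ∑ μ ∈ Fintype.piFinset (fun i => S.image (fun μ => μ i)), ∏ i, g (μ i) := by
        refine Finset.sum_le_sum_of_subset_of_nonneg ?_ fun _ _ _ =>
          Finset.prod_nonneg fun i _ => hg0 _
        intro μ hμ
        rw [Fintype.mem_piFinset]
        exact fun i => Finset.mem_image_of_mem _ hμ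
    _ = ∏ i, ∑ n ∈ S.image (fun μ => μ i), g n := (Finset.prod_univ_sum _ _).symm
    _ ≤ ∏ _i : Fin 20, ∑' n, g n := Finset.prod_le_prod
        (fun i _ => Finset.sum_nonneg fun n _ => hg0 n)
        (fun i _ => hg.sum_le_tsum _ fun n _ => hg0 n)

theorem dt_add_right {R : Type*} [CommRing R] (μ : Fin 20 → ℤ) (x y : Fin 20 → R) :
    dt μ (fun i => x i + y i) = dt μ x + dt μ y := by
  simp [dt, mul_add, Finset.sum_add_distrib]

theorem dt_intCast (μ v : Fin 20 → ℤ) : dt μ (fun i => (v i : ℂ)) = ((dotProduct μ v : ℤ) : ℂ) := by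
  simp [dt, dotProduct]

@[fun_prop]
theorem dt_diffC (μ : Fin 20 → ℤ) : Differentiable ℂ (fun z : Fin 20 → ℂ => dt μ z) := by
  unfold dt
  fun_prop

/-- entire functions periodic in the real directions -/
structure EP (g : (Fin 20 → ℂ) → ℂ) : Prop where
  holo : Differentiable ℂ g
  per : ∀ (z : Fin 20 → ℂ) (v : Fin 20 → ℤ), g (fun i => z i + (v i : ℂ)) = g z

/-- Fourier coefficient -/
def tc (g : (Fin 20 → ℂ) → ℂ) (μ : Fin 20 → ℤ) : ℂ :=
  ∫ y in Icc (0 : Fin 20 → ℝ) 1, g (fun i => (y i : ℂ)) * ee (-(dt μ (fun i => (y i : ℂ))))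

theorem EP.mul_ee {g : (Fin 20 → ℂ) → ℂ} (hg : EP g) (μ : Fin 20 → ℤ) :
    EP (fun z => g z * ee (-(dt μ z))) where
  holo := hg.holo.mul (Y683.RL.ee_diff.comp (dt_diffC μ).neg)
  per z v := by
    rw [hg.per, dt_add_right, dt_intCast, neg_add, ee_add]
    have := ee_int (-(dotProduct μ v))
    push_cast at this
    rw [this, mul_one]

/-- the mean value does not depend on the contour -/
theorem EP.shift {g : (Fin 20 → ℂ) → ℂ} (hg : EP g) (w : Fin 20 → ℂ) :
    ∫ y in Icc (0 : Fin 20 → ℝ) 1, g (fun i => w i + (y i : ℂ)) =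
      ∫ y in Icc (0 : Fin 20 → ℝ) 1, g (fun i => (y i : ℂ)) := by
  have hcont : Continuous g := hg.holo.continuous
  -- real translations
  have hreal : ∀ (w : Fin 20 → ℂ) (r : Fin 20 → ℝ),
      ∫ y in Icc (0 : Fin 20 → ℝ) 1, g (fun i => (w i + (r i : ℂ)) + (y i : ℂ)) =
      ∫ y in Icc (0 : Fin 20 → ℝ) 1, g (fun i => w i + (y i : ℂ)) := by
    intro w r
    have h1 := int_periodic (fun y => g (fun i => w i + (y i : ℂ)))
      (hcont.comp (by fun_prop)) (fun x v => by
        have := hg.per (fun i => w i + (x i : ℂ)) v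
        rw [← this]
        congr 1
        ext i
        push_cast
        ring) r
    rw [← h1]
    congr 1
    ext y
    congr 1
    ext i
    simp only [Pi.add_apply]
    push_cast
    ring
  -- the entire function of one variable
  set y₀ : Fin 20 → ℝ := fun i => (w i).im with hy₀
  set H : ℂ → ℂ := fun s => ∫ y in Icc (0 : Fin 20 → ℝ) 1,
    g (fun i => s * (y₀ i : ℂ) + (y i : ℂ)) with hH
  have hHd : DifferentiableOn ℂ H univ := by
    refine differentiableOn_setIntegral volume isCompact_Icc measurableSet_Icc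
      isCompact_Icc.measure_lt_top isOpen_univ (f := fun s (y : Fin 20 → ℝ) =>
        g (fun i => s * (y₀ i : ℂ) + (y i : ℂ))) ?_ ?_
    · exact (hcont.comp (by fun_prop)).continuousOn
    · intro y _
      have h1 : Differentiable ℂ (fun s : ℂ => (fun i => s * (y₀ i : ℂ) + (y i : ℂ) :
          Fin 20 → ℂ)) := by fun_prop
      exact (hg.holo.comp h1).differentiableOn
  have hHr : ∀ s : ℝ, H s = H 0 := by
    intro s
    have := hreal 0 (fun i => s * y₀ i)
    simp only [hH]
    simp only [Pi.zero_apply, zero_add] at this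
    push_cast at this
    rw [this]
    simp
  have hHc : H Complex.I = H 0 := by
    have han : AnalyticOnNhd ℂ H univ := hHd.analyticOnNhd isOpen_univ
    have hanc : AnalyticOnNhd ℂ (fun _ : ℂ => H 0) univ := analyticOnNhd_const
    have hfr : ∃ᶠ z in nhdsWithin (0 : ℂ) {0}ᶜ, H z = (fun _ : ℂ => H 0) z := by
      have ht : Filter.Tendsto (fun n : ℕ => (((1 : ℝ) / (n + 1) : ℝ) : ℂ)) Filter.atTop
          (nhdsWithin (0 : ℂ) {0}ᶜ) := by
        rw [tendsto_nhdsWithin_iff]
        constructor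
        · have h2 := tendsto_one_div_add_atTop_nhds_zero_nat (𝕜 := ℝ)
          have h3 := (Complex.continuous_ofReal.tendsto 0).comp h2
          rw [Complex.ofReal_zero] at h3
          exact h3
        · refine Filter.Eventually.of_forall fun n => ?_
          simp only [mem_compl_iff, mem_singleton_iff]
          have : (0 : ℝ) < (1 : ℝ) / (n + 1) := by positivity
          exact_mod_cast this.ne'
      exact ht.frequently (Filter.Frequently.of_forall fun n => hHr _)
    have := han.eq_of_frequently_eq hanc hfr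
    rw [this]
  have h5 := hreal (fun i => Complex.I * (y₀ i : ℂ)) (fun i => (w i).re)
  have e1 : ∀ y : Fin 20 → ℝ, (fun i => w i + (y i : ℂ)) =
      fun i => (Complex.I * (y₀ i : ℂ) + (((w i).re : ℝ) : ℂ)) + (y i : ℂ) := by
    intro y
    ext i
    congr 1
    conv_lhs => rw [← Complex.re_add_im (w i)]
    simp only [hy₀]
    ring
  simp only [e1]
  rw [h5]
  have h6 := hHc
  simp only [hH, zero_mul, zero_add] at h6
  exact h6

theorem EP.tc_shift {g : (Fin 20 → ℂ) → ℂ} (hg : EP g) (μ : Fin 20 → ℤ) (w : Fin 20 → ℂ) :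
    tc g μ = ∫ y in Icc (0 : Fin 20 → ℝ) 1, g (fun i => w i + (y i : ℂ)) *
      ee (-(dt μ (fun i => w i + (y i : ℂ)))) :=
  ((hg.mul_ee μ).shift w).symm

/-- decay of the Fourier coefficients -/
theorem EP.tc_bound {g : (Fin 20 → ℂ) → ℂ} (hg : EP g) {r : ℝ} (hr : 0 ≤ r) :
    ∃ M : ℝ, 0 ≤ M ∧ ∀ μ : Fin 20 → ℤ,
      ‖tc g μ‖ ≤ M * ∏ i, Real.exp (-(2 * Real.pi * r * |(μ i : ℝ)|)) := by
  have hcont : Continuous g := hg.holo.continuous
  obtain ⟨M, hM⟩ := (isCompact_closedBall (0 : Fin 20 → ℂ) (1 + r)).exists_bound_of_continuousOn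
    hcont.continuousOn
  have hM0 : 0 ≤ M := (norm_nonneg _).trans (hM 0 (by simp; linarith))
  refine ⟨M, hM0, fun μ => ?_⟩
  set w : Fin 20 → ℂ := fun i => ((-(r * (SignType.sign (μ i : ℝ) : ℝ)) : ℝ) : ℂ) * Complex.I with hw
  rw [hg.tc_shift μ w]
  have hvol : (volume (Icc (0 : Fin 20 → ℝ) 1)).toReal = 1 := by
    rw [Real.volume_Icc_pi_toReal (by exact zero_le_one)]
    simp
  have h1 := norm_setIntegral_le_of_norm_le_const (μ := volume) (s := Icc (0 : Fin 20 → ℝ) 1)
    (f := fun y : Fin 20 → ℝ => g (fun i => w i + (y i : ℂ)) *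
      ee (-(dt μ (fun i => w i + (y i : ℂ)))))
    (C := M * ∏ i, Real.exp (-(2 * Real.pi * r * |(μ i : ℝ)|))) isCompact_Icc.measure_lt_top
    (fun y hy => ?_)
  · rw [Measure.real, hvol, mul_one] at h1
    exact h1
  · rw [norm_mul, ee_norm]
    refine mul_le_mul ?_ (le_of_eq ?_) (Real.exp_pos _).le hM0
    · apply hM
      rw [mem_closedBall_zero_iff, pi_norm_le_iff_of_nonneg (by linarith)]
      intro i
      refine (norm_add_le _ _).trans ?_
      rw [add_comm]
      refine add_le_add ?_ ?_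
      · rw [Complex.norm_real, Real.norm_eq_abs, abs_le]
        have h1 := hy.1 i
        have h2 := hy.2 i
        simp at h1 h2
        constructor <;> linarith
      · simp only [hw, norm_mul, Complex.norm_I, mul_one, Complex.norm_real, norm_neg]
        rw [Real.norm_of_nonneg hr, Real.norm_eq_abs]
        have h3 : |((SignType.sign (μ i : ℝ) : ℝ))| ≤ 1 := by
          rcases lt_trichotomy (μ i : ℝ) 0 with h | h | h
          · simp [sign_neg h]
          · simp [h]
          · simp [sign_pos h]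
        nlinarith
    · rw [← Real.exp_sum]
      congr 1
      rw [Complex.neg_im]
      unfold dt
      rw [Complex.im_sum, ← Finset.sum_neg_distrib, Finset.mul_sum, ← Finset.sum_neg_distrib]
      refine Finset.sum_congr rfl fun i _ => ?_
      have h4 : (((μ i : ℂ)) * (w i + (y i : ℂ))).im =
          -(r * ((μ i : ℝ) * (SignType.sign (μ i : ℝ) : ℝ))) := by
        simp [hw, Complex.mul_im]
        ring
      rw [h4, self_mul_sign]
      ring

theorem summable_exp_pi {r : ℝ} (hr : 0 < r) :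
    Summable (fun μ : Fin 20 → ℤ => ∏ i, Real.exp (-(2 * Real.pi * r * |(μ i : ℝ)|))) := by
  have hpi := Real.pi_pos
  refine summable_pi (g := fun n : ℤ => Real.exp (-(2 * Real.pi * r * |(n : ℝ)|)))
    (fun n => (Real.exp_pos _).le) ?_
  have hg : Summable (fun n : ℕ => Real.exp (-(2 * Real.pi * r)) ^ n) :=
    summable_geometric_of_lt_one (Real.exp_pos _).le
      (Real.exp_lt_one_iff.2 (by have : 0 < 2 * Real.pi * r := by positivity
                                 linarith))
  refine Summable.of_nat_of_neg ?_ ?_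
  · refine hg.congr fun n => ?_
    rw [← Real.exp_nat_mul]
    congr 1
    simp
    ring
  · refine hg.congr fun n => ?_
    rw [← Real.exp_nat_mul]
    congr 1
    simp
    ring

/-- absolute convergence of the Fourier series -/
theorem EP.summable {g : (Fin 20 → ℂ) → ℂ} (hg : EP g) (R : ℝ) :
    ∃ b : (Fin 20 → ℤ) → ℝ, Summable b ∧ ∀ (z : Fin 20 → ℂ), (∀ i, |(z i).im| ≤ R) →
      ∀ μ, ‖tc g μ * ee (dt μ z)‖ ≤ b μ := by
  obtain ⟨M, hM0, hM⟩ := hg.tc_bound (r := |R| + 1) (by positivity)
  refine ⟨fun μ => M * ∏ i, Real.exp (-(2 * Real.pi * 1 * |(μ i : ℝ)|)),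
    (summable_exp_pi one_pos).mul_left M, fun z hz μ => ?_⟩
  rw [norm_mul, ee_norm]
  have h1 : Real.exp (-(2 * Real.pi * (dt μ z).im)) ≤
      ∏ i, Real.exp (2 * Real.pi * |R| * |(μ i : ℝ)|) := by
    rw [← Real.exp_sum, Real.exp_le_exp]
    unfold dt
    rw [Complex.im_sum, Finset.mul_sum, ← Finset.sum_neg_distrib]
    refine Finset.sum_le_sum fun i _ => ?_
    have h2 : (((μ i : ℂ)) * z i).im = (μ i : ℝ) * (z i).im := by
      simp [Complex.mul_im]
    rw [h2]
    have h3 : -((μ i : ℝ) * (z i).im) ≤ |(μ i : ℝ)| * |R| := by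
      refine (neg_le_abs _).trans ?_
      rw [abs_mul]
      exact mul_le_mul_of_nonneg_left ((hz i).trans (le_abs_self _)) (abs_nonneg _)
    nlinarith [Real.pi_pos]
  calc ‖tc g μ‖ * Real.exp (-(2 * Real.pi * (dt μ z).im))
      ≤ (M * ∏ i, Real.exp (-(2 * Real.pi * (|R| + 1) * |(μ i : ℝ)|))) *
        ∏ i, Real.exp (2 * Real.pi * |R| * |(μ i : ℝ)|) := by
        refine mul_le_mul (hM μ) h1 (Real.exp_pos _).le ?_
        exact mul_nonneg hM0 (Finset.prod_nonneg fun i _ => (Real.exp_pos _).le)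
    _ = M * ∏ i, Real.exp (-(2 * Real.pi * 1 * |(μ i : ℝ)|)) := by
        rw [mul_assoc, ← Finset.prod_mul_distrib]
        congr 1
        refine Finset.prod_congr rfl fun i _ => ?_
        rw [← Real.exp_add]
        congr 1
        ring

/-- the Fourier expansion -/
theorem EP.hasSum {g : (Fin 20 → ℂ) → ℂ} (hg : EP g) (z : Fin 20 → ℂ) :
    HasSum (fun μ : Fin 20 → ℤ => tc g μ * ee (dt μ z)) (g z) := by
  have hcont : Continuous g := hg.holo.continuous
  set w : Fin 20 → ℂ := fun i => (((z i).im : ℝ) : ℂ) * Complex.I with hw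
  obtain ⟨F, hF⟩ := exists_lift (fun y => g (fun i => w i + (y i : ℂ)))
    (hcont.comp (by fun_prop)) (fun x v => by
      have := hg.per (fun i => w i + (x i : ℂ)) v
      rw [← this]
      congr 1
      ext i
      push_cast
      ring)
  have hm : ∀ (μ : Fin 20 → ℤ) (x : Fin 20 → ℝ), UnitAddTorus.mFourier μ (mkT x) =
      ee (dt μ (fun i => (x i : ℂ))) := by
    intro μ x
    show ∏ i, fourier (μ i) ((x i : ℝ) : UnitAddCircle) = _
    simp only [fourier_coe_apply]
    unfold ee dt
    rw [← Complex.exp_sum, Finset.mul_sum]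
    congr 1
    refine Finset.sum_congr rfl fun i _ => ?_
    push_cast
    ring
  have hcoef : ∀ μ : Fin 20 → ℤ, UnitAddTorus.mFourierCoeff F μ = tc g μ * ee (dt μ w) := by
    intro μ
    rw [UnitAddTorus.mFourierCoeff_eq_integral _ _ (0 : Fin 20 → ℝ), hg.tc_shift μ w]
    have h1 : ∫ (x : Fin 20 → ℝ) in {x : Fin 20 → ℝ | ∀ i, x i ∈ Ioc ((0 : Fin 20 → ℝ) i)
        ((0 : Fin 20 → ℝ) i + 1)},
        UnitAddTorus.mFourier (-μ) (fun i => (x i : UnitAddCircle)) •
          F (fun i => (x i : UnitAddCircle)) =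
        ∫ x in bx 0, ee (dt (-μ) (fun i => (x i : ℂ))) * g (fun i => w i + (x i : ℂ)) := by
      refine setIntegral_congr_fun (bx_meas 0) fun x _ => ?_
      show UnitAddTorus.mFourier (-μ) (mkT x) • F (mkT x) = _
      rw [hm, hF, smul_eq_mul]
    rw [h1, setIntegral_congr_set bx_ae, ← integral_mul_const]
    congr 1
    ext y
    rw [mul_assoc, ← ee_add, mul_comm]
    congr 2
    rw [dt_add_right]
    unfold dt
    simp only [Pi.neg_apply, Int.cast_neg, neg_mul, Finset.sum_neg_distrib]
    ring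
  obtain ⟨b, hb, hbb⟩ := hg.summable (∑ i, |(z i).im|)
  have hwb : ∀ i, |(w i).im| ≤ ∑ i, |(z i).im| := by
    intro i
    have : (w i).im = (z i).im := by simp [hw]
    rw [this]
    exact Finset.single_le_sum (f := fun i => |(z i).im|) (fun i _ => abs_nonneg _)
      (Finset.mem_univ i)
  have hs : Summable (UnitAddTorus.mFourierCoeff F) := by
    refine Summable.of_norm_bounded hb fun μ => ?_
    rw [hcoef]
    exact hbb w hwb μ
  have h2 := UnitAddTorus.hasSum_mFourier_series_apply_of_summable hs (mkT (fun i => (z i).re))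
  rw [hF] at h2
  have e1 : (fun i => w i + (((fun i => (z i).re) i : ℝ) : ℂ)) = z := by
    ext i
    simp only [hw]
    rw [add_comm]
    exact Complex.re_add_im (z i)
  rw [e1] at h2
  have h3 : (fun μ => UnitAddTorus.mFourierCoeff F μ • UnitAddTorus.mFourier μ
      (mkT (fun i => (z i).re))) = fun μ => tc g μ * ee (dt μ z) := by
    funext μ
    rw [hcoef, hm, smul_eq_mul, mul_assoc, ← ee_add]
    congr 2
    rw [← dt_add_right]
    exact congrArg (dt μ) e1
  rw [h3] at h2
  exact h2

end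

end Pool.Agent.V11282.RL
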