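import Pool.Agent.Y813.RL.Tube5
import Pool.Agent.Y813.RL.Comp

set_option autoImplicit false

/-!
# From the cone to the tube domain
-/

namespace Pool.Agent.V11282.RL

open Complex Set Topology Pool.Agent.Y813.RL Pool.Agent.Y813.Refl

noncomputable section

variable {G : Matrix (Fin 20) (Fin 20) ℤ}

/-- vectors of `K` as vectors of `M` -/
def kM (e : ℤ × (ℤ × (Fin 20 → ℤ))) : Fin 4 ⊕ Fin 20 → ℤ :=
  Pool.Agent.Y813.RL.mk 0 0 e.1 e.2.1 e.2.2

/-- the transformation law in tube coordinates -/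
theorem trans_law (h : PosSymm G) {k : ℤ} {χ : discKernel (gramM G) (coneM G) →* ℂˣ}
    {F₀ : (Fin 4 ⊕ Fin 20 → ℂ) → ℂ} (hF : IsModularForm (gramM G) (coneM G) k χ F₀) {n : ℕ}
    (hχ : ∀ g, χ g ^ n = 1)
    {g : Matrix.GeneralLinearGroup (Fin 4 ⊕ Fin 20) ℤ}
    (hg : g ∈ discKernel (gramM G) (coneM G)) {W W' : TP}
    (hW : W ∈ Hd G) {j : ℂ} (hj : j ≠ 0)
    (hZ : act g.val (ZW G W) = fun i => j * ZW G W' i) :
    F₀ (ZW G W') ^ n = j ^ ((n : ℤ) * k) * F₀ (ZW G W) ^ n := by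
  have hc := ZW_mem_cone h hW
  have h1 := hF.equi ⟨g, hg⟩ _ hc
  have h2 : act g.val (ZW G W) ∈ coneM G := (hg.2.1 _).2 hc
  have h3 := hF.homog _ h2 j⁻¹ (inv_ne_zero hj)
  have h4 : (fun i => j⁻¹ * act g.val (ZW G W) i) = ZW G W' := by
    rw [hZ]
    funext i
    field_simp
  rw [h4] at h3
  have h1' : F₀ (act g.val (ZW G W)) = (χ ⟨g, hg⟩ : ℂ) * F₀ (ZW G W) := h1
  rw [h3, h1', mul_pow, mul_pow]
  have h5 : ((χ ⟨g, hg⟩ : ℂˣ) : ℂ) ^ n = 1 := by
    rw [← Units.val_pow_eq_pow_val, hχ]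
    simp
  rw [h5, one_mul]
  congr 1
  have h6 : (j : ℂ) ^ ((n : ℤ) * k) = (j ^ k) ^ n := by
    rw [mul_comm, zpow_mul]
    norm_cast
  rw [inv_zpow', neg_neg, h6]

theorem bf_div (a : Fin 20 → ℂ) (j : ℂ) :
    bf G (fun i => a i / j) (fun i => a i / j) = bf G a a / j ^ 2 := by
  have : (fun i => a i / j) = j⁻¹ • a := by funext i; simp [div_eq_inv_mul]
  rw [this, bf_smul_left, bf_smul_right]
  ring

theorem eq_smul_ZW {a b c d : ℂ} {z : Fin 20 → ℂ} (ha : a ≠ 0)
    (h : 2 * (a * b + c * d) = bf G z z) :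
    Pool.Agent.Y813.RL.mk a b c d z = fun i => a * ZW G (c / a, (d / a, fun i => z i / a)) i := by
  unfold ZW
  rw [smul_mk]
  simp only
  rw [bf_div, ← h]
  congr 1
  · ring
  · field_simp
    ring
  · field_simp
  · field_simp
  · funext i
    field_simp

theorem quadric_eq {a b c d : ℂ} {z : Fin 20 → ℂ}
    (h : Pool.Agent.Y813.RL.mk a b c d z ∈ quadric (gramM G)) :
    2 * (a * b + c * d) = bf G z z := ((quadric_mk G a b c d z).1 h).1

theorem disc_quadric {g : Matrix.GeneralLinearGroup (Fin 4 ⊕ Fin 20) ℤ}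
    (h : PosSymm G) (hg : g ∈ discKernel (gramM G) (coneM G)) {W : TP} (hW : W ∈ Hd G) :
    act g.val (ZW G W) ∈ quadric (gramM G) := by
  have h2 : act g.val (ZW G W) ∈ coneM G := (hg.2.1 _).2 (ZW_mem_cone h hW)
  rw [coneM_eq] at h2
  exact connectedComponentIn_subset _ _ h2

theorem diff_ZW : Differentiable ℂ (ZW G) := by
  rw [differentiable_pi]
  have h1 : Differentiable ℂ fun W : TP => bf G W.2.2 W.2.2 := by
    rw [← differentiableOn_univ]
    exact bf_diffC G (by fun_prop) (by fun_prop)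
  rintro (i | i)
  · match i with
    | 0 => exact differentiable_const _
    | 1 =>
      have h2 : Differentiable ℂ fun W : TP => bf G W.2.2 W.2.2 / 2 := by
        simp only [div_eq_mul_inv]
        exact h1.mul_const _
      exact h2.sub (by fun_prop : Differentiable ℂ fun W : TP => W.1 * W.2.1)
    | 2 => exact (by fun_prop : Differentiable ℂ fun W : TP => W.1)
    | 3 => exact (by fun_prop : Differentiable ℂ fun W : TP => W.2.1)
  · exact (by fun_prop : Differentiable ℂ fun W : TP => W.2.2 i)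

/-- casts of vectors -/
theorem cast_mk {R : Type*} [CommRing R] (a b c d : ℤ) (z : Fin 20 → ℤ) :
    (fun i => ((Pool.Agent.Y813.RL.mk a b c d z : Fin 4 ⊕ Fin 20 → ℤ) i : R)) =
      Pool.Agent.Y813.RL.mk (a : R) (b : R) (c : R) (d : R) (fun i => (z i : R)) := by
  funext i
  rcases i with i | i
  · match i with
    | 0 => simp [Pool.Agent.Y813.RL.mk]
    | 1 => simp [Pool.Agent.Y813.RL.mk]
    | 2 => simp [Pool.Agent.Y813.RL.mk]
    | 3 => simp [Pool.Agent.Y813.RL.mk]
  · simp [Pool.Agent.Y813.RL.mk]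

/-- the linear form of a vector in tube coordinates -/
theorem bf_ZW (a b c d : ℂ) (z : Fin 20 → ℂ) (W : TP) :
    bf (gramM G) (Pool.Agent.Y813.RL.mk a b c d z) (ZW G W) =
      a * (bf G W.2.2 W.2.2 / 2 - W.1 * W.2.1) + b + c * W.2.1 + d * W.1 - bf G z W.2.2 := by
  rw [ZW, bf_mk]
  ring

/-- the linear form of a vector of `K` in tube coordinates -/
theorem bf_kM_ZW (e : ℤ × (ℤ × (Fin 20 → ℤ))) (W : TP) :
    bf (gramM G) (fun i => ((kM e i : ℤ) : ℂ)) (ZW G W) = kf G (cK e) W := by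
  unfold kM
  rw [cast_mk, bf_ZW]
  unfold kf cK
  push_cast
  ring

theorem bf_kM (e u : ℤ × (ℤ × (Fin 20 → ℤ))) :
    bf (gramM G) (kM e) (kM u) = kf G e u := by
  unfold kM
  rw [bf_mk]
  unfold kf
  ring

/-- a finite set of values -/
theorem const_of_pow {S : Set TP} (hS : IsPreconnected S) {f : TP → ℂ} (hf : ContinuousOn f S)
    {n : ℕ} (hn : 0 < n) {c : ℂ} (hc : ∀ W ∈ S, f W ^ n = c) {x y : TP} (hx : x ∈ S)
    (hy : y ∈ S) : f x = f y := by
  have hfin : {z : ℂ | z ^ n = c}.Finite := by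
    have hp : (Polynomial.X ^ n - Polynomial.C c : Polynomial ℂ) ≠ 0 :=
      Polynomial.X_pow_sub_C_ne_zero hn c
    refine (Polynomial.finite_setOf_isRoot hp).subset fun z hz => ?_
    simp only [Set.mem_ofPred_eq] at hz
    simp [Polynomial.IsRoot, hz]
  have hp := hS.image f hf
  have hsub : f '' S ⊆ {z : ℂ | z ^ n = c} := by
    rintro _ ⟨W, hW, rfl⟩
    exact hc W hW
  have h1 := (hfin.subset hsub).countable.isTotallyDisconnected _ subset_rfl hp
  exact h1 ⟨x, hx, rfl⟩ ⟨y, hy, rfl⟩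

/-- **From the cone to the tube.** -/
theorem tube_of_reflective (h : PosSymm G) (he : ∀ i, Even (G i i))
    (hR : IsReflectiveLattice (gramM G) (coneM G)) : ∃ k F, TubeForm G k F := by
  obtain ⟨k, χ, F₀, hF, hnc, hz⟩ := hR
  obtain ⟨n, hn, hχ⟩ := hF.finite_order
  have hMs := gramM_symm h.symm
  have hS : ∀ W ∈ Hd G,
      F₀ (ZW G (W.1 - bf G W.2.2 W.2.2 / (2 * W.2.1), (-1 / W.2.1, fun i => W.2.2 i / W.2.1))) ^ n
        = W.2.1 ^ ((n : ℤ) * k) * F₀ (ZW G W) ^ n := by
    intro W hW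
    have hτ : W.2.1 ≠ 0 := by
      intro h0
      have h1 : 0 < W.2.1.im := hW.1
      rw [h0] at h1
      simp at h1
    have hact : act (blkG PS_mul PS_mul').val (ZW G W) =
        Pool.Agent.Y813.RL.mk W.2.1 W.1 (-(bf G W.2.2 W.2.2 / 2 - W.1 * W.2.1)) (-1) W.2.2 := by
      show act (blk PS) (ZW G W) = _
      rw [ZW, act_PS]
    have hq := disc_quadric h PS_mem hW
    rw [hact] at hq
    exact trans_law h hF hχ PS_mem
      (W' := (W.1 - bf G W.2.2 W.2.2 / (2 * W.2.1), (-1 / W.2.1, fun i => W.2.2 i / W.2.1))) hW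
      (j := W.2.1) hτ (by
        rw [hact, eq_smul_ZW hτ (quadric_eq hq)]
        funext i
        congr 3
        field_simp
        ring)
  refine ⟨(n : ℤ) * k, fun W => F₀ (ZW G W) ^ n, ?_, ?_, ?_, ?_, ?_, ?_, ?_⟩
  · -- holomorphy
    exact (hF.holo.comp diff_ZW.differentiableOn fun W hW => ZW_mem_cone h hW).pow n
  · -- translations
    intro W hW a b v
    obtain ⟨N, hN⟩ := even_bf h.symm he v
    have hee : bf (gramM G) (Pool.Agent.Y813.RL.mk 0 1 0 0 0 : Fin 4 ⊕ Fin 20 → ℤ)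
        (Pool.Agent.Y813.RL.mk 0 1 0 0 0) = 0 := by
      rw [bf_mk, bf_zero_left]; ring
    have hea : bf (gramM G) (Pool.Agent.Y813.RL.mk 0 1 0 0 0 : Fin 4 ⊕ Fin 20 → ℤ)
        (Pool.Agent.Y813.RL.mk 0 0 a b v) = 0 := by
      rw [bf_mk, bf_zero_left]; ring
    have haa : bf (gramM G) (Pool.Agent.Y813.RL.mk 0 0 a b v : Fin 4 ⊕ Fin 20 → ℤ)
        (Pool.Agent.Y813.RL.mk 0 0 a b v) = 2 * (a * b - N) := by
      rw [bf_mk, hN]; ring
    have hg := tvG_mem hMs (base_mem G) hee hea haa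
    rw [← coneM_eq] at hg
    have hact : act (tvG hMs hee hea haa).val (ZW G W) =
        Pool.Agent.Y813.RL.mk 1 (bf G (fun i => W.2.2 i + v i) (fun i => W.2.2 i + v i) / 2 -
          (W.1 + a) * (W.2.1 + b)) (W.1 + a) (W.2.1 + b) (fun i => W.2.2 i + v i) := by
      show act (tvM _ _ _ _) (ZW G W) = _
      rw [act_tvM hMs, cast_mk, cast_mk]
      have c0 : (fun i => (((0 : Fin 20 → ℤ) i : ℤ) : ℂ)) = 0 := by funext i; simp
      rw [c0]
      have hbz : bf G (0 : Fin 20 → ℂ) W.2.2 = 0 := bf_zero_left _ _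
      have e1 : bf (gramM G) (Pool.Agent.Y813.RL.mk ((0 : ℤ) : ℂ) ((1 : ℤ) : ℂ) ((0 : ℤ) : ℂ)
          ((0 : ℤ) : ℂ) 0) (ZW G W) = 1 := by
        rw [bf_ZW, hbz]; push_cast; ring
      have e2 : bf (gramM G) (Pool.Agent.Y813.RL.mk ((0 : ℤ) : ℂ) ((0 : ℤ) : ℂ) (a : ℂ) (b : ℂ)
          (fun i => (v i : ℂ))) (ZW G W) =
          a * W.2.1 + b * W.1 - bf G (fun i => (v i : ℂ)) W.2.2 := by
        rw [bf_ZW]; push_cast; ring
      have e3 : bf G (fun i => W.2.2 i + (v i : ℂ)) (fun i => W.2.2 i + v i) =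
          bf G W.2.2 W.2.2 + 2 * bf G (fun i => (v i : ℂ)) W.2.2 + 2 * N := by
        have : (fun i => W.2.2 i + (v i : ℂ)) = W.2.2 + fun i => (v i : ℂ) := rfl
        rw [this, bf_add_left, bf_add_right, bf_add_right, bf_intCast, hN,
          bf_comm h.symm W.2.2 (fun i => (v i : ℂ))]
        push_cast
        ring
      funext i
      simp only [tv, Pi.add_apply, Pi.sub_apply, Pi.smul_apply, smul_eq_mul, e1, e2, e3]
      rcases i with i | i
      · match i with
        | 0 => simp [Pool.Agent.Y813.RL.mk, ZW]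
        | 1 => simp [Pool.Agent.Y813.RL.mk, ZW]; ring
        | 2 => simp [Pool.Agent.Y813.RL.mk, ZW]
        | 3 => simp [Pool.Agent.Y813.RL.mk, ZW]
      · simp [Pool.Agent.Y813.RL.mk, ZW]
    have := trans_law h hF hχ hg (W' := (W.1 + a, (W.2.1 + b, fun i => W.2.2 i + v i))) hW
      (j := 1) one_ne_zero (by rw [hact]; funext i; rw [one_mul]; rfl)
    simpa using this
  · -- transvections
    intro W hW e u hee heu
    obtain ⟨N, hN⟩ : ∃ N : ℤ, kf G u u = 2 * N := by
      obtain ⟨N, hN⟩ := even_bf h.symm he u.2.2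
      exact ⟨u.1 * u.2.1 - N, by unfold kf; rw [hN]; ring⟩
    have hee' : bf (gramM G) (kM e) (kM e) = 0 := by rw [bf_kM]; exact hee
    have hea' : bf (gramM G) (kM e) (kM u) = 0 := by rw [bf_kM]; exact heu
    have haa' : bf (gramM G) (kM u) (kM u) = 2 * N := by rw [bf_kM]; exact hN
    have hg := tvG_mem hMs (base_mem G) hee' hea' haa'
    rw [← coneM_eq] at hg
    set W' : TP := W + kf G (cK e) W • cK u -
      (kf G (cK u) W + ((kf G u u : ℤ) : ℂ) / 2 * kf G (cK e) W) • cK e with hW'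
    obtain ⟨b', hact⟩ : ∃ b', act (tvG hMs hee' hea' haa').val (ZW G W) =
        Pool.Agent.Y813.RL.mk 1 b' W'.1 W'.2.1 W'.2.2 := by
      refine ⟨act (tvM (gramM G) (kM e) (kM u) N) (ZW G W) (.inl 1), ?_⟩
      show act (tvM _ _ _ _) (ZW G W) = _
      rw [act_tvM hMs]
      funext i
      have hN2 : ((kf G u u : ℤ) : ℂ) / 2 = (N : ℂ) := by rw [hN]; push_cast; ring
      rcases i with i | i
      · match i with
        | 0 =>
          simp only [tv, Pi.add_apply, Pi.sub_apply, Pi.smul_apply, smul_eq_mul, bf_kM_ZW]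
          simp [Pool.Agent.Y813.RL.mk, ZW, kM]
        | 1 => rfl
        | 2 =>
          simp only [tv, Pi.add_apply, Pi.sub_apply, Pi.smul_apply, smul_eq_mul, bf_kM_ZW]
          rw [hW', hN2]
          simp [Pool.Agent.Y813.RL.mk, ZW, cK, kM]
          ring
        | 3 =>
          simp only [tv, Pi.add_apply, Pi.sub_apply, Pi.smul_apply, smul_eq_mul, bf_kM_ZW]
          rw [hW', hN2]
          simp [Pool.Agent.Y813.RL.mk, ZW, cK, kM]
          ring
      · simp only [tv, Pi.add_apply, Pi.sub_apply, Pi.smul_apply, smul_eq_mul, bf_kM_ZW]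
        rw [hW', hN2]
        simp [Pool.Agent.Y813.RL.mk, ZW, cK, kM]
        ring
    have hq := disc_quadric h hg hW
    rw [hact] at hq
    have := trans_law h hF hχ hg (W' := W') hW (j := 1) one_ne_zero
      (by rw [hact, eq_ZW G hq]; funext i; rw [one_mul])
    simpa using this
  · -- S
    exact hS
  · -- swap
    intro W hW
    have hact : act (blkG PW_mul PW_mul).val (ZW G W) =
        Pool.Agent.Y813.RL.mk 1 (bf G W.2.2 W.2.2 / 2 - W.1 * W.2.1) W.2.1 W.1 W.2.2 := by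
      show act (blk PW) (ZW G W) = _
      rw [ZW, act_PW]
    have := trans_law h hF hχ PW_mem (W' := (W.2.1, (W.1, W.2.2))) hW (j := 1) one_ne_zero (by
        rw [hact]
        funext i
        rw [one_mul, ZW]
        simp only
        congr 2
        ring)
    simpa using this
  · -- zeros
    intro W hW hFW
    have h0 : F₀ (ZW G W) = 0 := (pow_eq_zero_iff hn.ne').1 hFW
    obtain ⟨v, hv, hv0⟩ := hz _ (ZW_mem_cone h hW) h0
    exact wall_of_reflective h he hv hv0
  · -- nonconstant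
    rintro ⟨c, hc⟩
    have hcont : ContinuousOn (fun W => F₀ (ZW G W)) (Hd G) :=
      (hF.holo.comp diff_ZW.differentiableOn fun W hW => ZW_mem_cone h hW).continuousOn
    have hconst : ∀ W ∈ Hd G, F₀ (ZW G W) = F₀ (ZW G W0) := fun W hW =>
      const_of_pow (convex_Hd h).isPreconnected hcont hn hc hW W0_mem
    -- weight zero or zero value
    have hz2 : ∀ t : ℝ, 0 < t → ((Complex.I, (t * Complex.I, 0)) : TP) ∈ Hd G := by
      intro t ht
      rw [mem_Hd]
      have : imv ((Complex.I, (t * Complex.I, 0)) : TP).2.2 = 0 := by funext i; simp [imv]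
      rw [this, bf_zero_left]
      simp [ht]
    have h2 := hS (Complex.I, (((2 : ℝ) : ℂ) * Complex.I, 0)) (hz2 2 (by norm_num))
    have e1 : ((Complex.I - bf G (0 : Fin 20 → ℂ) (0 : Fin 20 → ℂ) /
        (2 * (((2 : ℝ) : ℂ) * Complex.I)), (-1 / (((2 : ℝ) : ℂ) * Complex.I),
          fun i => (0 : Fin 20 → ℂ) i / (((2 : ℝ) : ℂ) * Complex.I))) : TP) =
        (Complex.I, (((1 / 2 : ℝ) : ℂ) * Complex.I, 0)) := by
      rw [bf_zero_left]
      refine Prod.ext ?_ (Prod.ext ?_ ?_)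
      · simp
      · simp only
        rw [div_eq_iff (by simp)]
        push_cast
        linear_combination (-1 : ℂ) * Complex.I_sq
      · funext i
        simp
    simp only at h2
    rw [e1, hc _ (hz2 2 (by norm_num)), hc _ (hz2 (1 / 2) (by norm_num))] at h2
    apply hnc
    by_cases hc0 : c = 0
    · refine ⟨0, fun Z hZ => ?_⟩
      obtain ⟨ha, W, hW, hZW⟩ := cone_param h hZ
      have h3 := hF.homog _ (ZW_mem_cone h hW) _ ha
      rw [hZW, h3]
      have h4 : F₀ (ZW G W) = 0 := by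
        have := hc W hW
        rw [hc0] at this
        exact (pow_eq_zero_iff hn.ne').1 this
      rw [h4, mul_zero]
    · have h3 : (((2 : ℝ) : ℂ) * Complex.I) ^ ((n : ℤ) * k) = 1 := by
        have h4 : ((((2 : ℝ) : ℂ) * Complex.I) ^ ((n : ℤ) * k) - 1) * c = 0 := by
          linear_combination -h2
        rcases mul_eq_zero.1 h4 with h5 | h5
        · linear_combination h5
        · exact absurd h5 hc0
      have h4 := congrArg norm h3
      rw [norm_zpow, norm_one] at h4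
      have h5 : ‖((2 : ℝ) : ℂ) * Complex.I‖ = 2 := by simp
      rw [h5] at h4
      have h6 : (n : ℤ) * k = 0 := by
        have := zpow_right_injective₀ (show (0 : ℝ) < 2 by norm_num)
          (show (2 : ℝ) ≠ 1 by norm_num)
        apply this
        simp only
        rw [h4, zpow_zero]
      have hk : k = 0 := by
        rcases mul_eq_zero.1 h6 with h7 | h7
        · exact absurd h7 (by exact_mod_cast hn.ne')
        · exact h7
      refine ⟨F₀ (ZW G W0), fun Z hZ => ?_⟩
      obtain ⟨ha, W, hW, hZW⟩ := cone_param h hZ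
      have h3 := hF.homog _ (ZW_mem_cone h hW) _ ha
      rw [hZW, h3, hk]
      simp only [neg_zero, zpow_zero, one_mul]
      exact hconst W hW

end

end Pool.Agent.V11282.RL
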