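import Pool.Agent.V11282.RL.Hen

set_option autoImplicit false

/-!
# Even unimodular symmetric matrices over the 2-adic integers
-/

namespace Pool.Agent.V11282.RL

open Finset Matrix

noncomputable section

/-- the hyperbolic plane -/
def UU : Matrix (Fin 2) (Fin 2) ℤ_[2] := !![0, 1; 1, 0]

/-- the anisotropic plane -/
def V2 : Matrix (Fin 2) (Fin 2) ℤ_[2] := !![2, 1; 1, 2]

theorem UU_det : UU.det = -1 := by
  unfold UU
  rw [Matrix.det_fin_two_of]
  ring

theorem V2_det : V2.det = 3 := by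
  unfold V2
  rw [Matrix.det_fin_two_of]
  ring

theorem zmod2 (x : ZMod 2) (hx : x ≠ 0) : x = 1 := by
  revert hx
  revert x
  decide

theorem unit_iff2 (z : ℤ_[2]) : IsUnit z ↔ PadicInt.toZMod z = 1 := by
  rw [unit_iff]
  constructor
  · exact zmod2 _
  · intro h
    rw [h]
    decide

theorem nonunit_iff2 (z : ℤ_[2]) : ¬ IsUnit z ↔ PadicInt.toZMod z = 0 := by
  rw [unit_iff, not_not]

theorem toZ_two : PadicInt.toZMod (p := 2) 2 = 0 := by
  have : PadicInt.toZMod (p := 2) 2 = 2 := map_ofNat _ 2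
  rw [this]
  decide

theorem Ev.diag {n : ℕ} {B : Matrix (Fin n) (Fin n) ℤ_[2]} (h : Ev B) (x : Fin n → ℤ_[2]) :
    ∃ a, bl B x x = 2 * a := h x

section plane

variable {ι : Type} [Fintype ι] {B : Matrix ι ι ℤ_[2]}

theorem bl_lin2 (hs : B.IsSymm) {e f : ι → ℤ_[2]} (x y x' y' : ℤ_[2]) :
    bl B (x • e + y • f) (x' • e + y' • f) =
      x * x' * bl B e e + (x * y' + y * x') * bl B e f + y * y' * bl B f f := by
  rw [bl_add_left, bl_add_right, bl_add_right, bl_smul_left, bl_smul_left, bl_smul_left,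
    bl_smul_left, bl_smul_right, bl_smul_right, bl_smul_right, bl_smul_right, bl_comm hs f e]
  ring

/-- a binary lattice with an even coefficient is isotropic -/
theorem hyp_of_plane (hs : B.IsSymm) {e f : ι → ℤ_[2]} {a c β : ℤ_[2]}
    (he : bl B e e = 2 * a) (hef : bl B e f = β) (hf : bl B f f = 2 * c) (hβ : IsUnit β)
    (ha : ¬ IsUnit a) : HasHyp B := by
  obtain ⟨y, hy⟩ := hensel_quad c β a 0 (by
    have : c * 0 ^ 2 + β * 0 + a = a := by ring
    rwa [this]) (by
    have : 2 * c * 0 + β = β := by ring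
    rwa [this])
  have hu : IsUnit (β + 2 * c * y) := by
    rw [unit_iff2] at hβ ⊢
    rw [map_add, map_mul, map_mul, toZ_two, hβ]
    ring
  obtain ⟨u, hu⟩ := hu
  refine ⟨(1 : ℤ_[2]) • e + y • f, (0 : ℤ_[2]) • e + ((u⁻¹ : ℤ_[2]ˣ) : ℤ_[2]) • f, ?_, ?_⟩
  · rw [bl_lin2 hs, he, hef, hf]
    linear_combination 2 * hy
  · rw [bl_lin2 hs, he, hef, hf]
    have h1 : (u : ℤ_[2]) * ((u⁻¹ : ℤ_[2]ˣ) : ℤ_[2]) = 1 := u.mul_inv
    rw [hu] at h1
    linear_combination h1

theorem hyp_of_plane' (hs : B.IsSymm) {e f : ι → ℤ_[2]} {a c β : ℤ_[2]}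
    (he : bl B e e = 2 * a) (hef : bl B e f = β) (hf : bl B f f = 2 * c) (hβ : IsUnit β)
    (ha : ¬ IsUnit a ∨ ¬ IsUnit c) : HasHyp B := by
  rcases ha with ha | ha
  · exact hyp_of_plane hs he hef hf hβ ha
  · exact hyp_of_plane hs hf (by rw [bl_comm hs, hef]) he hβ ha

/-- splitting off a hyperbolic plane -/
theorem split_hyp (hs : B.IsSymm) (hev : Ev B) (h : HasHyp B) :
    ∃ (m : ℕ) (B' : Matrix (Fin m) (Fin m) ℤ_[2]), B'.IsSymm ∧ Isom (ds UU B') B ∧
      2 + m = Fintype.card ι := by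
  obtain ⟨e, f, he, hef⟩ := h
  obtain ⟨t, ht⟩ := hev f
  have h2 : bl B ((-t) • e + (1 : ℤ_[2]) • f) ((-t) • e + (1 : ℤ_[2]) • f) = 0 := by
    rw [bl_lin2 hs, he, hef, ht]
    ring
  have h1 : bl B ((1 : ℤ_[2]) • e + (0 : ℤ_[2]) • f) ((-t) • e + (1 : ℤ_[2]) • f) = 1 := by
    rw [bl_lin2 hs, he, hef]
    ring
  have h3 : (1 : ℤ_[2]) • e + (0 : ℤ_[2]) • f = e := by simp
  rw [h3] at h1
  obtain ⟨m, B', hs', hiso, hm⟩ := split' hs ![e, (-t) • e + (1 : ℤ_[2]) • f] UU (by
    intro k l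
    fin_cases k <;> fin_cases l
    · exact he.symm
    · exact h1.symm
    · show (1 : ℤ_[2]) = bl B ((-t) • e + (1 : ℤ_[2]) • f) e
      rw [bl_comm hs, h1]
    · exact h2.symm) (by
    rw [UU_det]
    exact isUnit_one.neg)
  rw [Fintype.card_fin] at hm
  exact ⟨m, B', hs', hiso, hm⟩

/-- splitting off the anisotropic plane -/
theorem split_V (hs : B.IsSymm) {e f : ι → ℤ_[2]} {a c β : ℤ_[2]}
    (he : bl B e e = 2 * a) (hef : bl B e f = β) (hf : bl B f f = 2 * c) (hβ : IsUnit β)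
    (ha : IsUnit a) (hc : IsUnit c) :
    ∃ (m : ℕ) (B' : Matrix (Fin m) (Fin m) ℤ_[2]), B'.IsSymm ∧ Isom (ds V2 B') B ∧
      2 + m = Fintype.card ι := by
  rw [unit_iff2] at ha hc
  obtain ⟨y, hy⟩ := hensel_quad c β (a - 1) 0 (by
    rw [nonunit_iff2]
    simp only [map_add, map_mul, map_pow, map_sub, map_one, map_zero, ha]
    ring) (by
    have : 2 * c * 0 + β = β := by ring
    rwa [this])
  rw [unit_iff2] at hβ
  have hu : IsUnit (β + 2 * c * y) := by
    rw [unit_iff2]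
    rw [map_add, map_mul, map_mul, toZ_two, hβ]
    ring
  obtain ⟨u, hu⟩ := hu
  have hui : (u : ℤ_[2]) * ((u⁻¹ : ℤ_[2]ˣ) : ℤ_[2]) = 1 := u.mul_inv
  set w : ℤ_[2] := ((u⁻¹ : ℤ_[2]ˣ) : ℤ_[2]) with hw
  have hwu : PadicInt.toZMod w = 1 := (unit_iff2 _).1 (Units.isUnit _)
  set c₁ := c * w ^ 2 with hc₁
  have hc₁u : PadicInt.toZMod c₁ = 1 := by
    rw [hc₁, map_mul, map_pow, hwu, hc]
    ring
  obtain ⟨α, hα⟩ := hensel_quad (4 * c₁ - 1) (1 - 4 * c₁) (c₁ - 1) 0 (by
    rw [nonunit_iff2]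
    simp only [map_add, map_mul, map_pow, map_sub, map_one, map_zero, hc₁u]
    ring) (by
    have : 2 * (4 * c₁ - 1) * 0 + (1 - 4 * c₁) = 1 - 2 * (2 * c₁) := by ring
    rw [this, unit_iff2, map_sub, map_mul, toZ_two, map_one]
    ring)
  -- v = e + y f, w0 = w f
  have hvv : bl B ((1 : ℤ_[2]) • e + y • f) ((1 : ℤ_[2]) • e + y • f) = 2 := by
    rw [bl_lin2 hs, he, hef, hf]
    linear_combination 2 * hy
  have hvw : bl B ((1 : ℤ_[2]) • e + y • f) (α • e + (α * y + (1 - 2 * α) * w) • f) = 1 := by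
    rw [bl_lin2 hs, he, hef, hf]
    rw [hu] at hui
    linear_combination 2 * α * hy + (1 - 2 * α) * hui
  have hww : bl B (α • e + (α * y + (1 - 2 * α) * w) • f)
      (α • e + (α * y + (1 - 2 * α) * w) • f) = 2 := by
    rw [bl_lin2 hs, he, hef, hf]
    rw [hu] at hui
    rw [hc₁] at hα
    linear_combination 2 * α ^ 2 * hy + 2 * α * (1 - 2 * α) * hui + 2 * hα
  obtain ⟨m, B', hs', hiso, hm⟩ := split' hs ![(1 : ℤ_[2]) • e + y • f,
      α • e + (α * y + (1 - 2 * α) * w) • f] V2 (by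
    intro k l
    fin_cases k <;> fin_cases l
    · exact hvv.symm
    · exact hvw.symm
    · show (1 : ℤ_[2]) = bl B (α • e + (α * y + (1 - 2 * α) * w) • f)
        ((1 : ℤ_[2]) • e + y • f)
      rw [bl_comm hs, hvw]
    · exact hww.symm) (by
    rw [V2_det, unit_iff2]
    have : PadicInt.toZMod (p := 2) 3 = 3 := map_ofNat _ 3
    rw [this]
    decide)
  rw [Fintype.card_fin] at hm
  exact ⟨m, B', hs', hiso, hm⟩

end plane

/-- a plane in a unimodular even lattice -/
theorem exists_plane {n : ℕ} (hn : 0 < n) {B : Matrix (Fin n) (Fin n) ℤ_[2]}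
    (hev : Ev B) (hB : IsUnit B.det) : ∃ (e f : Fin n → ℤ_[2]) (a c β : ℤ_[2]),
      bl B e e = 2 * a ∧ bl B e f = β ∧ bl B f f = 2 * c ∧ IsUnit β := by
  obtain ⟨i, j, hij⟩ := ent_unit hn hB
  obtain ⟨a, ha⟩ := hev (Pi.single i 1)
  obtain ⟨c, hc⟩ := hev (Pi.single j 1)
  exact ⟨Pi.single i 1, Pi.single j 1, a, c, B i j, ha, bl_single B i j, hc, hij⟩

/-- even unimodular lattices of rank at least three are isotropic -/
theorem hyp_of_rank {n : ℕ} (hn : 3 ≤ n) {B : Matrix (Fin n) (Fin n) ℤ_[2]} (hs : B.IsSymm)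
    (hev : Ev B) (hB : IsUnit B.det) : HasHyp B := by
  obtain ⟨e, f, a, c, β, he, hef, hf, hβ⟩ := exists_plane (by omega) hev hB
  by_cases h1 : IsUnit a ∧ IsUnit c
  · obtain ⟨ha, hc⟩ := h1
    obtain ⟨m, B', hs', hiso, hm⟩ := split_V hs he hef hf hβ ha hc
    rw [Fintype.card_fin] at hm
    have hd : SqEq _ _ := isom_det hiso
    rw [det_ds] at hd
    have hB' : IsUnit B'.det := isUnit_of_mul_isUnit_right (hd.isUnit hB)
    have hev' : Ev B' := (hiso.symm.ev hev).right
    obtain ⟨e', f', a', c', β', he', hef', hf', hβ'⟩ := exists_plane (by omega) hev' hB'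
    by_cases h2 : IsUnit a' ∧ IsUnit c'
    · obtain ⟨ha', hc'⟩ := h2
      apply hiso.hyp
      obtain ⟨x, hx⟩ := hensel_quad a' β' (c' + 1) 0 (by
        rw [nonunit_iff2]
        rw [unit_iff2] at hc'
        simp only [map_add, map_mul, map_pow, map_one, map_zero, hc']
        ring_nf
        decide) (by
        have : 2 * a' * 0 + β' = β' := by ring
        rwa [this])
      have k1 : bl V2 (Pi.single 0 1) (Pi.single 0 1) = 2 := bl_single V2 0 0
      have k2 : bl V2 (Pi.single 0 1) (Pi.single 1 1) = 1 := bl_single V2 0 1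
      refine ⟨Sum.elim (Pi.single 0 1) (x • e' + (1 : ℤ_[2]) • f'), Sum.elim (Pi.single 1 1) 0,
        ?_, ?_⟩
      · rw [bl_elim, bl_lin2 hs', he', hef', hf', k1]
        linear_combination 2 * hx
      · rw [bl_elim, bl_zero_right, k2, add_zero]
    · rw [not_and_or] at h2
      exact hiso.hyp ((hyp_of_plane' hs' he' hef' hf' hβ' h2).right V2)
  · rw [not_and_or] at h1
    exact hyp_of_plane' hs he hef hf hβ h1

theorem isom_ds_empty {R : Type} [CommRing R] {ι κ : Type} [Fintype ι] [Fintype κ] [IsEmpty κ]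
    (A : Matrix ι ι R) (B : Matrix κ κ R) : Isom (ds A B) A := by
  have h := Isom.reindex (ds A B) (Equiv.sumEmpty ι κ)
  have h2 : (ds A B).submatrix (Equiv.sumEmpty ι κ).symm (Equiv.sumEmpty ι κ).symm = A := by
    ext i j
    rfl
  rwa [h2] at h

/-- anisotropic even unimodular lattices -/
theorem aniso_class {n : ℕ} (hn : 0 < n) {B : Matrix (Fin n) (Fin n) ℤ_[2]} (hs : B.IsSymm)
    (hev : Ev B) (hB : IsUnit B.det) (hh : ¬ HasHyp B) : n = 2 ∧ Isom V2 B := by
  obtain ⟨e, f, a, c, β, he, hef, hf, hβ⟩ := exists_plane hn hev hB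
  have h1 : IsUnit a ∧ IsUnit c := by
    by_contra hcon
    rw [not_and_or] at hcon
    exact hh (hyp_of_plane' hs he hef hf hβ hcon)
  obtain ⟨m, B', hs', hiso, hm⟩ := split_V hs he hef hf hβ h1.1 h1.2
  rw [Fintype.card_fin] at hm
  have hn2 : n ≤ 2 := by
    by_contra hcon
    exact hh (hyp_of_rank (by omega) hs hev hB)
  have hm0 : m = 0 := by omega
  subst hm0
  exact ⟨by omega, (isom_ds_empty V2 B').symm.trans hiso⟩

theorem not_sq {u : ℤ_[2]} : (3 : ℤ_[2]) ≠ u ^ 2 * (-1) := by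
  intro h
  have h1 := congrArg (PadicInt.toZModPow (p := 2) 3) h
  rw [map_mul, map_pow, map_neg, map_one] at h1
  have h2 : PadicInt.toZModPow (p := 2) 3 3 = 3 := map_ofNat _ 3
  rw [h2] at h1
  have key : ∀ x : ZMod (2 ^ 3), (3 : ZMod (2 ^ 3)) ≠ x ^ 2 * (-1) := by decide
  exact key _ h1

/-- an anisotropic and an isotropic plane have different determinants -/
theorem det_ne {B C : Matrix (Fin 2) (Fin 2) ℤ_[2]} (hCs : C.IsSymm)
    (hCe : Ev C) (hBC : SqEq B.det C.det) (hBV : Isom V2 B) (hC : HasHyp C) :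
    False := by
  obtain ⟨m, C', hs', hiso, hm⟩ := split_hyp hCs hCe hC
  rw [Fintype.card_fin] at hm
  have hm0 : m = 0 := by omega
  subst hm0
  have h1 : SqEq V2.det B.det := isom_det hBV
  have h2 : SqEq UU.det C.det := isom_det ((isom_ds_empty UU C').symm.trans hiso)
  have h3 := h1.trans (hBC.trans h2.symm)
  rw [V2_det, UU_det] at h3
  obtain ⟨u, _, h⟩ := h3
  exact not_sq h

/-- **Even unimodular symmetric matrices over `Z_2` are classified by the determinant.** -/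
theorem two_class : ∀ (n : ℕ) (B C : Matrix (Fin n) (Fin n) ℤ_[2]), B.IsSymm →
    C.IsSymm → Ev B → Ev C → IsUnit B.det → IsUnit C.det → SqEq B.det C.det → Isom B C := by
  intro n
  induction n using Nat.strong_induction_on with
  | _ n ih =>
    intro B C hBs hCs hBe hCe hB hC hBC
    rcases Nat.eq_zero_or_pos n with h0 | h0
    · subst h0
      exact isom_empty B C
    by_cases h1 : HasHyp B
    · by_cases h2 : HasHyp C
      · obtain ⟨m, B', hs', hiso, hm⟩ := split_hyp hBs hBe h1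
        obtain ⟨m', C', hs'', hiso', hm'⟩ := split_hyp hCs hCe h2
        rw [Fintype.card_fin] at hm hm'
        obtain rfl : m' = m := by omega
        have hd : SqEq _ _ := isom_det hiso
        have hd' : SqEq _ _ := isom_det hiso'
        rw [det_ds] at hd hd'
        have hu : IsUnit UU.det := by
          rw [UU_det]
          exact isUnit_one.neg
        have hBC' : SqEq B'.det C'.det := SqEq.cancel hu (hd.trans (hBC.trans hd'.symm))
        exact hiso.symm.trans (((Isom.refl _).ds (ih m' (by omega) B' C' hs' hs''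
          (hiso.symm.ev hBe).right (hiso'.symm.ev hCe).right
          (isUnit_of_mul_isUnit_right (hd.isUnit hB))
          (isUnit_of_mul_isUnit_right (hd'.isUnit hC)) hBC')).trans hiso')
      · obtain ⟨hn2, hiso⟩ := aniso_class h0 hCs hCe hC h2
        subst hn2
        exact (det_ne hBs hBe hBC.symm hiso h1).elim
    · obtain ⟨hn2, hiso⟩ := aniso_class h0 hBs hBe hB h1
      subst hn2
      by_cases h2 : HasHyp C
      · exact (det_ne hCs hCe hBC hiso h2).elim
      · obtain ⟨_, hiso'⟩ := aniso_class h0 hCs hCe hC h2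
        exact hiso.symm.trans hiso'

end

end Pool.Agent.V11282.RL
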