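import Pool.Agent.Y813.RL.Stm

set_option autoImplicit false

/-!
# The vanishing lemma for vector valued modular forms of negative weight
-/

namespace Pool.Agent.V11282.RL

open Complex Set Topology Filter Pool.Agent.Y813.RL
open UpperHalfPlane (atImInfty upperHalfPlaneSet)
open scoped MatrixGroups UpperHalfPlane

noncomputable section

/-- the discriminant as a function on `ℂ` -/
def dl (τ : ℂ) : ℂ := ModularForm.eta τ ^ 24

theorem dl_coe (z : ℍ) : dl z = ModularForm.discriminant z := rfl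

theorem dl_diff : DifferentiableOn ℂ dl {τ | 0 < τ.im} := fun _ hτ =>
  ((ModularForm.differentiableAt_eta_of_mem_upperHalfPlaneSet hτ).pow 24).differentiableWithinAt

theorem dl_ne {τ : ℂ} (hτ : 0 < τ.im) : dl τ ≠ 0 := ModularForm.discriminant_ne_zero ⟨τ, hτ⟩

theorem dl_T {τ : ℂ} (hτ : 0 < τ.im) : dl (τ + 1) = dl τ := by
  have h := congrFun ModularForm.discriminant_T_invariant ⟨τ, hτ⟩
  rw [ModularForm.SL_slash_apply, UpperHalfPlane.denom, UpperHalfPlane.modular_T_smul,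
    ModularGroup.T] at h
  simp only [ModularForm.discriminant] at h
  unfold dl
  simpa [add_comm] using h

theorem dl_S {τ : ℂ} (hτ : 0 < τ.im) : dl (-1 / τ) = τ ^ 12 * dl τ := by
  have h := congrFun ModularForm.discriminant_S_invariant ⟨τ, hτ⟩
  rw [ModularForm.SL_slash_apply, UpperHalfPlane.modular_S_smul] at h
  have hne : τ ≠ 0 := by rintro rfl; simp at hτ
  have h2 : ModularForm.eta (-1 / τ) ^ 24 * (τ ^ 12)⁻¹ = ModularForm.eta τ ^ 24 := by
    simpa [UpperHalfPlane.denom, ModularGroup.S, ModularForm.discriminant, neg_div] using h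
  unfold dl
  rw [← h2]
  field_simp

/-- the discriminant is small at the cusp -/
theorem dl_small : ∃ Y : ℝ, 1 ≤ Y ∧ ∀ τ : ℂ, Y ≤ τ.im → ‖dl τ‖ ≤ 2 * Real.exp (-(2 * Real.pi * τ.im)) := by
  have h1 := ModularForm.tendsto_atImInfty_tprod_one_sub_eta_q_pow.norm
  rw [norm_one] at h1
  have h2 := h1.eventually (gt_mem_nhds (show (1 : ℝ) < 2 by norm_num))
  rw [UpperHalfPlane.atImInfty, Filter.eventually_comap, Filter.eventually_atTop] at h2
  obtain ⟨Y, hY⟩ := h2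
  refine ⟨max Y 1, le_max_right _ _, fun τ hτ => ?_⟩
  have hτ0 : 0 < τ.im := lt_of_lt_of_le one_pos ((le_max_right _ _).trans hτ)
  have h3 := hY τ.im ((le_max_left _ _).trans hτ) ⟨τ, hτ0⟩ rfl
  have h4 := ModularForm.discriminant_eq_q_prod ⟨τ, hτ0⟩
  have h5 : dl τ = ModularForm.discriminant ⟨τ, hτ0⟩ := rfl
  rw [h5, h4, norm_mul]
  have h6 : ‖Function.Periodic.qParam 1 ((⟨τ, hτ0⟩ : ℍ) : ℂ)‖ = Real.exp (-(2 * Real.pi * τ.im)) := by
    simp [Function.Periodic.qParam, Complex.norm_exp]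
  rw [h6, mul_comm]
  exact mul_le_mul_of_nonneg_right h3.le (Real.exp_pos _).le

/-- an invariant continuous function on the upper half plane that is small at the cusp attains its
maximum -/
theorem exists_max {P : ℂ → ℝ} (hc : ContinuousOn P {τ | 0 < τ.im})
    (hT : ∀ τ : ℂ, 0 < τ.im → P (τ + 1) = P τ) (hS : ∀ τ : ℂ, 0 < τ.im → P (-1 / τ) = P τ)
    (h0 : ∀ ε : ℝ, 0 < ε → ∃ Y : ℝ, ∀ τ : ℂ, Y ≤ τ.im → P τ ≤ ε) {τ₁ : ℂ} (hτ₁ : 0 < τ₁.im)
    (hpos : 0 < P τ₁) : ∃ τ₀ : ℂ, 0 < τ₀.im ∧ ∀ τ : ℂ, 0 < τ.im → P τ ≤ P τ₀ := by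
  -- invariance
  have hinv : ∀ (γ : SL(2, ℤ)) (z : ℍ), P (γ • z : ℍ) = P z := by
    intro γ
    have hγ : γ ∈ Subgroup.closure {ModularGroup.S, ModularGroup.T} := by
      rw [SpecialLinearGroup.SL2Z_generators]
      trivial
    have key : ∀ g ∈ Subgroup.closure {ModularGroup.S, ModularGroup.T}, ∀ z : ℍ,
        P (g • z : ℍ) = P z := by
      intro g hg
      induction hg using Subgroup.closure_induction with
      | mem x hx =>
        intro z
        rcases hx with rfl | hx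
        · have : ((ModularGroup.S • z : ℍ) : ℂ) = -1 / z := by
            rw [UpperHalfPlane.modular_S_smul]
            simp [neg_div]
          rw [this]
          exact hS z z.2
        · rw [Set.mem_singleton_iff] at hx
          subst hx
          have : ((ModularGroup.T • z : ℍ) : ℂ) = z + 1 := by
            rw [UpperHalfPlane.modular_T_smul]
            simp [add_comm]
          rw [this]
          exact hT z z.2
      | one => intro z; rw [one_smul]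
      | mul x y _ _ hx hy => intro z; rw [mul_smul, hx, hy]
      | inv x _ hx =>
        intro z
        have := hx (x⁻¹ • z)
        rw [smul_inv_smul] at this
        exact this.symm
    exact key γ hγ
  obtain ⟨Y, hY⟩ := h0 (P τ₁ / 2) (by positivity)
  set Y' := max Y 1 with hY'
  set K : Set ℂ := (Set.Icc (-1 / 2 : ℝ) (1 / 2)) ×ℂ (Set.Icc (1 / 2 : ℝ) Y') with hK
  have hKc : IsCompact K := isCompact_Icc.reProdIm isCompact_Icc
  have hKs : K ⊆ {τ : ℂ | 0 < τ.im} := by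
    intro τ hτ
    have h1 : (1 / 2 : ℝ) ≤ τ.im := hτ.2.1
    show 0 < τ.im
    linarith
  -- every point with a large value can be moved to `K`
  have hmove : ∀ τ : ℂ, 0 < τ.im → P τ₁ / 2 < P τ → ∃ σ ∈ K, P σ = P τ := by
    intro τ hτ hP
    obtain ⟨γ, hγ⟩ := ModularGroup.exists_smul_mem_fd ⟨τ, hτ⟩
    refine ⟨((γ • (⟨τ, hτ⟩ : ℍ) : ℍ) : ℂ), ?_, hinv γ ⟨τ, hτ⟩⟩
    set z : ℍ := γ • (⟨τ, hτ⟩ : ℍ) with hz
    have h1 : P z = P τ := hinv γ ⟨τ, hτ⟩
    have h2 : z.im < Y := by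
      by_contra hcon
      push Not at hcon
      have := hY z hcon
      rw [h1] at this
      linarith
    have h5 : 3 ≤ 4 * z.im ^ 2 := ModularGroup.three_le_four_mul_im_sq_of_mem_fd hγ
    have h6 : 0 < z.im := z.im_pos
    have h7 : (1 / 2 : ℝ) ≤ z.im := by nlinarith
    have h4 : |z.re| ≤ 1 / 2 := hγ.2
    have h8 := abs_le.1 h4
    refine ⟨⟨?_, h8.2⟩, ⟨h7, h2.le.trans (le_max_left _ _)⟩⟩
    have := h8.1
    show -1 / 2 ≤ z.re
    linarith
  obtain ⟨σ₁, hσ₁, hPσ₁⟩ := hmove τ₁ hτ₁ (by linarith)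
  obtain ⟨τ₀, hτ₀, hmax⟩ := hKc.exists_isMaxOn ⟨σ₁, hσ₁⟩ (hc.mono hKs)
  have h1 : P τ₁ ≤ P τ₀ := by rw [← hPσ₁]; exact hmax hσ₁
  refine ⟨τ₀, hKs hτ₀, fun τ hτ => ?_⟩
  by_cases h2 : P τ₁ / 2 < P τ
  · obtain ⟨σ, hσ, hPσ⟩ := hmove τ hτ h2
    rw [← hPσ]
    exact hmax hσ
  · push Not at h2
    linarith

/-- **VV** -/
theorem jobVV : JobVV := by
  intro ι _ w κ Ψ hκ hd hT hS ⟨C, hg⟩
  have hpi := Real.pi_pos
  set N : ℂ → ℝ := fun τ => ∑ i, ‖Ψ τ i‖ ^ 2 with hN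
  have hN0 : ∀ τ, 0 ≤ N τ := fun τ => Finset.sum_nonneg fun i _ => by positivity
  set P : ℂ → ℝ := fun τ => N τ ^ 6 * ‖dl τ‖ ^ w with hP
  have hdi : ∀ i, DifferentiableOn ℂ (fun τ => Ψ τ i) {τ | 0 < τ.im} := fun i =>
    differentiableOn_pi.1 hd i
  have hopen : IsOpen {τ : ℂ | 0 < τ.im} := isOpen_lt continuous_const Complex.continuous_im
  have hPc : ContinuousOn P {τ | 0 < τ.im} := by
    refine ContinuousOn.mul (ContinuousOn.pow ?_ 6) (dl_diff.continuousOn.norm.pow w)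
    exact continuousOn_finsetSum _ fun i _ => ((hdi i).continuousOn.norm).pow 2
  have hPT : ∀ τ : ℂ, 0 < τ.im → P (τ + 1) = P τ := by
    intro τ hτ
    simp only [hP, hN]
    rw [hT τ hτ, dl_T hτ]
  have hPS : ∀ τ : ℂ, 0 < τ.im → P (-1 / τ) = P τ := by
    intro τ hτ
    have hne : τ ≠ 0 := by rintro rfl; simp at hτ
    have hn : 0 < ‖τ‖ := norm_pos_iff.2 hne
    simp only [hP, hN]
    rw [← hS τ hτ, dl_S hτ, norm_mul, norm_pow]
    ring
  -- smallness at the cusp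
  obtain ⟨Y, hY1, hY⟩ := dl_small
  have hsmall : ∀ τ : ℂ, Y ≤ τ.im → P τ ≤ (Fintype.card ι * |C| ^ 2) ^ 6 * 2 ^ w *
      Real.exp (-(2 * Real.pi * (12 * κ + w)) * τ.im) := by
    intro τ hτ
    have hτ1 : 1 / 2 ≤ τ.im := by linarith
    have h1 : N τ ≤ Fintype.card ι * |C| ^ 2 * Real.exp (-(4 * Real.pi * κ * τ.im)) := by
      have h2 : ∀ i ∈ Finset.univ, ‖Ψ τ i‖ ^ 2 ≤
          |C| ^ 2 * Real.exp (-(4 * Real.pi * κ * τ.im)) := by
        intro i _
        have h3 : ‖Ψ τ i‖ ≤ |C| * Real.exp (-(2 * Real.pi * κ * τ.im)) :=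
          (hg τ hτ1 i).trans (mul_le_mul_of_nonneg_right (le_abs_self _) (Real.exp_pos _).le)
        calc ‖Ψ τ i‖ ^ 2 ≤ (|C| * Real.exp (-(2 * Real.pi * κ * τ.im))) ^ 2 := by gcongr
          _ = _ := by
            rw [mul_pow, ← Real.exp_nat_mul]
            congr 2
            push_cast
            ring
      refine (Finset.sum_le_sum h2).trans ?_
      rw [Finset.sum_const, nsmul_eq_mul, Finset.card_univ, ← mul_assoc]
    have h2 : ‖dl τ‖ ^ w ≤ 2 ^ w * Real.exp (-(2 * Real.pi * w * τ.im)) := by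
      calc ‖dl τ‖ ^ w ≤ (2 * Real.exp (-(2 * Real.pi * τ.im))) ^ w := by
            gcongr
            exact hY τ hτ
        _ = _ := by
          rw [mul_pow, ← Real.exp_nat_mul]
          congr 2
          ring
    calc P τ ≤ (Fintype.card ι * |C| ^ 2 * Real.exp (-(4 * Real.pi * κ * τ.im))) ^ 6 *
          (2 ^ w * Real.exp (-(2 * Real.pi * w * τ.im))) := by
          simp only [hP]
          gcongr
      _ = _ := by
        rw [mul_pow, ← Real.exp_nat_mul]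
        have e : Real.exp (-(2 * Real.pi * (12 * κ + w)) * τ.im) =
            Real.exp (((6 : ℕ) : ℝ) * -(4 * Real.pi * κ * τ.im)) *
              Real.exp (-(2 * Real.pi * w * τ.im)) := by
          rw [← Real.exp_add]
          congr 1
          push_cast
          ring
        rw [e]
        ring
  have hexp : 0 < 12 * κ + w := by
    rw [neg_div, neg_lt_iff_pos_add] at hκ
    have : 0 < 12 * (κ + w / 12) := by linarith
    linarith
  have hlim : ∀ ε : ℝ, 0 < ε → ∃ Y : ℝ, ∀ τ : ℂ, Y ≤ τ.im → P τ ≤ ε := by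
    intro ε hε
    have ht : Filter.Tendsto (fun T : ℝ => (Fintype.card ι * |C| ^ 2) ^ 6 * 2 ^ w *
        Real.exp (-(2 * Real.pi * (12 * κ + w)) * T)) Filter.atTop
        (𝓝 ((Fintype.card ι * |C| ^ 2) ^ 6 * 2 ^ w * 0)) := by
      refine Filter.Tendsto.const_mul _ ?_
      refine Real.tendsto_exp_atBot.comp ?_
      refine Filter.Tendsto.const_mul_atTop_of_neg ?_ Filter.tendsto_id
      have : 0 < 2 * Real.pi * (12 * κ + w) := by positivity
      linarith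
    rw [mul_zero] at ht
    obtain ⟨T, hT⟩ := Filter.eventually_atTop.1 (ht.eventually (gt_mem_nhds hε))
    exact ⟨max T Y, fun τ hτ => (hsmall τ ((le_max_right _ _).trans hτ)).trans
      (hT τ.im ((le_max_left _ _).trans hτ)).le⟩
  -- P vanishes identically
  have hPz : ∀ τ : ℂ, 0 < τ.im → P τ = 0 := by
    by_contra hcon
    push Not at hcon
    obtain ⟨τ₁, hτ₁, hne⟩ := hcon
    have hpos : 0 < P τ₁ := lt_of_le_of_ne (by simp only [hP]; positivity) (Ne.symm hne)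
    obtain ⟨τ₀, hτ₀, hmax⟩ := exists_max hPc hPT hPS hlim hτ₁ hpos
    have hP0 : 0 < P τ₀ := lt_of_lt_of_le hpos (hmax τ₁ hτ₁)
    -- the auxiliary scalar function
    set u : ℂ → ℂ := fun τ => (∑ i, Ψ τ i * (starRingEnd ℂ) (Ψ τ₀ i)) ^ 12 * dl τ ^ w with hu
    have hud : DifferentiableOn ℂ u {τ | 0 < τ.im} := by
      refine DifferentiableOn.mul (DifferentiableOn.pow ?_ 12) (dl_diff.pow w)
      exact DifferentiableOn.fun_sum fun i _ => (hdi i).mul_const _
    have hcs : ∀ τ : ℂ, ‖∑ i, Ψ τ i * (starRingEnd ℂ) (Ψ τ₀ i)‖ ^ 2 ≤ N τ * N τ₀ := by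
      intro τ
      have h1 : ‖∑ i, Ψ τ i * (starRingEnd ℂ) (Ψ τ₀ i)‖ ≤ ∑ i, ‖Ψ τ i‖ * ‖Ψ τ₀ i‖ := by
        refine (norm_sum_le _ _).trans (le_of_eq ?_)
        exact Finset.sum_congr rfl fun i _ => by rw [norm_mul, RCLike.norm_conj]
      calc ‖∑ i, Ψ τ i * (starRingEnd ℂ) (Ψ τ₀ i)‖ ^ 2 ≤ (∑ i, ‖Ψ τ i‖ * ‖Ψ τ₀ i‖) ^ 2 := by
            gcongr
        _ ≤ _ := Finset.sum_mul_sq_le_sq_mul_sq _ _ _
    have hub : ∀ τ : ℂ, ‖u τ‖ ≤ P τ * N τ₀ ^ 6 := by
      intro τ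
      have h1 : ‖∑ i, Ψ τ i * (starRingEnd ℂ) (Ψ τ₀ i)‖ ^ 12 ≤ (N τ * N τ₀) ^ 6 := by
        calc ‖∑ i, Ψ τ i * (starRingEnd ℂ) (Ψ τ₀ i)‖ ^ 12 =
            (‖∑ i, Ψ τ i * (starRingEnd ℂ) (Ψ τ₀ i)‖ ^ 2) ^ 6 := by rw [← pow_mul]
          _ ≤ _ := by
            gcongr
            exact hcs τ
      simp only [hu, hP, norm_mul, norm_pow]
      calc ‖∑ i, Ψ τ i * (starRingEnd ℂ) (Ψ τ₀ i)‖ ^ 12 * ‖dl τ‖ ^ w ≤
          (N τ * N τ₀) ^ 6 * ‖dl τ‖ ^ w := by gcongr
        _ = _ := by ring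
    have hu0 : ‖u τ₀‖ = P τ₀ * N τ₀ ^ 6 := by
      have h1 : ∑ i, Ψ τ₀ i * (starRingEnd ℂ) (Ψ τ₀ i) = ((N τ₀ : ℝ) : ℂ) := by
        simp only [hN]
        push_cast
        refine Finset.sum_congr rfl fun i _ => ?_
        rw [Complex.mul_conj, Complex.normSq_eq_norm_sq]
        push_cast
        rfl
      simp only [hu, hP, norm_mul, norm_pow, h1]
      rw [Complex.norm_real, Real.norm_of_nonneg (hN0 _)]
      ring
    have hmaxu : IsMaxOn (norm ∘ u) {τ : ℂ | 0 < τ.im} τ₀ := by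
      intro τ hτ
      simp only [Set.mem_ofPred_eq, Function.comp]
      rw [hu0]
      refine (hub τ).trans ?_
      exact mul_le_mul_of_nonneg_right (hmax τ hτ) (pow_nonneg (hN0 _) 6)
    have hpre : IsPreconnected {τ : ℂ | 0 < τ.im} := (convex_halfSpace_im_gt 0).isPreconnected
    have hconst := Complex.eqOn_of_isPreconnected_of_isMaxOn_norm hpre hopen hud hτ₀ hmaxu
    have hN6 : 0 < N τ₀ ^ 6 := by
      have h1 : N τ₀ ≠ 0 := by
        intro h
        simp only [hP, h] at hP0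
        norm_num at hP0
      exact pow_pos (lt_of_le_of_ne (hN0 _) (Ne.symm h1)) 6
    obtain ⟨Y₂, hY₂⟩ := hlim (P τ₀ / 2) (by positivity)
    set τ : ℂ := ((max Y₂ 1 : ℝ) : ℂ) * Complex.I with hτdef
    have him : τ.im = max Y₂ 1 := by simp [hτdef]
    have hτ : 0 < τ.im := by rw [him]; exact lt_of_lt_of_le one_pos (le_max_right _ _)
    have h1 := hY₂ τ (by rw [him]; exact le_max_left _ _)
    have h2 : u τ = u τ₀ := hconst hτ
    have h3 := hub τ
    rw [h2, hu0] at h3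
    have h4 := le_of_mul_le_mul_right h3 hN6
    linarith
  intro τ hτ i
  have h1 := hPz τ hτ
  simp only [hP] at h1
  have h2 : N τ = 0 := by
    rcases mul_eq_zero.1 h1 with h | h
    · exact pow_eq_zero_iff (by norm_num) |>.1 h
    · exfalso
      exact (pow_ne_zero w (norm_ne_zero_iff.2 (dl_ne hτ))) h
  have h3 := (Finset.sum_eq_zero_iff_of_nonneg fun i _ => by positivity).1 h2 i (Finset.mem_univ i)
  exact norm_eq_zero.1 (pow_eq_zero_iff (by norm_num) |>.1 h3)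

end

end Pool.Agent.V11282.RL
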