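import Pool.Agent.V11282.RL.Zero
import Pool.Agent.V11282.RL.VV

set_option autoImplicit false

/-!
# The index is one
-/

namespace Pool.Agent.V11282.RL

open Pool.Agent.Y813.RL hiding ee_add ee_int ee_zero
open Complex Set Topology MeasureTheory
open Pool.Agent.Y683.RL (ee_add ee_int ee_norm ee_zero ee_ne ee_neg_mul HP fco)

noncomputable section

variable {G : Matrix (Fin 20) (Fin 20) ℤ} {k : ℤ} {F : TP → ℂ}
  {φ : ℕ → ℂ × (Fin 20 → ℂ) → ℂ} {C m : ℕ}

/-- roots of unity of small order -/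
def Eset (Q₀ : ℕ) : Finset ℂ :=
  (Finset.range Q₀).biUnion fun j =>
    (Finset.range (j + 1)).image fun i : ℕ => ee ((i : ℂ) / ((j + 1 : ℕ) : ℂ))

theorem Eset_card (Q₀ : ℕ) : 2 * (Eset Q₀).card ≤ Q₀ * (Q₀ + 1) := by
  unfold Eset
  have h1 : ((Finset.range Q₀).biUnion fun j =>
      (Finset.range (j + 1)).image fun i : ℕ => ee ((i : ℂ) / ((j + 1 : ℕ) : ℂ))).card ≤
      ∑ j ∈ Finset.range Q₀, (j + 1) := by
    refine Finset.card_biUnion_le.trans (Finset.sum_le_sum fun j _ => ?_)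
    refine Finset.card_image_le.trans ?_
    simp
  have h2 : ∑ j ∈ Finset.range Q₀, (j + 1) = Q₀ * (Q₀ + 1) / 2 := by
    have := Finset.sum_range_id_mul_two (Q₀ + 1)
    rw [Finset.sum_range_succ'] at this
    simp at this
    rw [Nat.mul_comm (Q₀ + 1) Q₀] at this
    omega
  have h3 : 2 * (Q₀ * (Q₀ + 1) / 2) ≤ Q₀ * (Q₀ + 1) := Nat.mul_div_le _ _
  omega

theorem Eset_norm {Q₀ : ℕ} {ε : ℂ} (hε : ε ∈ Eset Q₀) : ‖ε‖ = 1 := by
  unfold Eset at hε
  rw [Finset.mem_biUnion] at hε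
  obtain ⟨j, _, hj⟩ := hε
  obtain ⟨i, _, rfl⟩ := Finset.mem_image.1 hj
  rw [ee_norm]
  have : ((i : ℂ) / ((j + 1 : ℕ) : ℂ)).im = 0 := by
    have e : ((i : ℂ) / ((j + 1 : ℕ) : ℂ)) = (((i : ℝ) / ((j + 1 : ℕ) : ℝ) : ℝ) : ℂ) := by
      push_cast; rfl
    rw [e, Complex.ofReal_im]
  rw [this]
  simp

theorem Eset_mem {Q₀ : ℕ} {j b : ℤ} (hj : 0 < j) (hjQ : j ≤ Q₀) : ee ((b : ℂ) / j) ∈ Eset Q₀ := by
  unfold Eset
  rw [Finset.mem_biUnion]
  refine ⟨(j - 1).toNat, ?_, ?_⟩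
  · rw [Finset.mem_range]
    omega
  · rw [Finset.mem_image]
    refine ⟨(b % j).toNat, ?_, ?_⟩
    · rw [Finset.mem_range]
      have := Int.emod_lt_of_pos b hj
      have := Int.emod_nonneg b hj.ne'
      omega
    · have h1 : (((b % j).toNat : ℕ) : ℂ) = ((b % j : ℤ) : ℂ) := by
        have := Int.toNat_of_nonneg (Int.emod_nonneg b hj.ne')
        exact_mod_cast congrArg (Int.cast : ℤ → ℂ) this
      have h2 : (((j - 1).toNat + 1 : ℕ) : ℂ) = (j : ℂ) := by
        have : (((j - 1).toNat + 1 : ℕ) : ℤ) = j := by omega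
        exact_mod_cast congrArg (Int.cast : ℤ → ℂ) this
      rw [h1, h2]
      have hj' : (j : ℂ) ≠ 0 := by exact_mod_cast hj.ne'
      have h3 : (b : ℂ) / j = ((b % j : ℤ) : ℂ) / j + ((b / j : ℤ) : ℂ) := by
        have := Int.emod_add_mul_ediv b j
        have h4 : (b : ℂ) = ((b % j : ℤ) : ℂ) + j * ((b / j : ℤ) : ℂ) := by
          exact_mod_cast congrArg (Int.cast : ℤ → ℂ) this.symm
        rw [h4]
        field_simp
      rw [h3, ee_add, ee_int, mul_one]

theorem card_lt {m Q₀ : ℕ} (hm : 2 ≤ m) (hQ : 3 * Q₀ ^ 2 < 4 * m) : (Eset Q₀).card < m := by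
  have h1 := Eset_card Q₀
  rcases Nat.lt_or_ge Q₀ 2 with h2 | h2
  · interval_cases Q₀ <;> omega
  · nlinarith

/-- finite sets of reals have gaps -/
theorem exists_gap {S : Set ℝ} (hS : S.Finite) : ∃ γ : ℝ, 0 < γ ∧ ∀ a ∈ S, ∀ b ∈ S,
    a - γ ≤ b → b ≤ a → b = a := by
  classical
  have hf : ((fun p : ℝ × ℝ => p.1 - p.2) '' (S ×ˢ S) ∩ {x | 0 < x}).Finite :=
    ((hS.prod hS).image _).subset Set.inter_subset_left
  rcases ((fun p : ℝ × ℝ => p.1 - p.2) '' (S ×ˢ S) ∩ {x | 0 < x}).eq_empty_or_nonempty with h | h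
  · refine ⟨1, one_pos, fun a ha b hb _ h2 => ?_⟩
    by_contra hne
    have : a - b ∈ ((fun p : ℝ × ℝ => p.1 - p.2) '' (S ×ˢ S) ∩ {x | 0 < x}) :=
      ⟨⟨(a, b), ⟨ha, hb⟩, rfl⟩, by
        show 0 < a - b
        have := lt_of_le_of_ne h2 hne
        linarith⟩
    rw [h] at this
    exact this
  · obtain ⟨δ, hδ, hmin⟩ := Set.exists_min_image _ id hf h
    have hδ0 : 0 < δ := hδ.2
    refine ⟨δ / 2, by linarith, fun a ha b hb h1 h2 => ?_⟩
    by_contra hne
    have := hmin (a - b) ⟨⟨(a, b), ⟨ha, hb⟩, rfl⟩, by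
        show 0 < a - b
        have := lt_of_le_of_ne h2 hne
        linarith⟩
    simp only [id] at this
    linarith

theorem par_bound (h : PosSymm G) (u w : Fin 20 → ℝ) :
    bf G (u - w) (u - w) ≤ 2 * bf G u u + 2 * bf G w w := by
  have h1 := h.nonneg (u + w)
  rw [bf_sub_left, bf_sub_right, bf_sub_right]
  rw [bf_add_left, bf_add_right, bf_add_right] at h1
  linarith

/-- eventual smallness -/
theorem ev_small (a b : ℝ) (hb : 0 < b) : ∃ T : ℝ, ∀ s : ℝ, T ≤ s →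
    a * s * Real.exp (-(b * s)) < 1 ∧ Real.exp (-(b * s)) ≤ 1 / 2 := by
  have ht : Filter.Tendsto (fun s : ℝ => (|a| * (2 / b) + 2) * Real.exp (-(b / 2) * s)) Filter.atTop
      (𝓝 ((|a| * (2 / b) + 2) * 0)) := by
    refine Filter.Tendsto.const_mul _ (Real.tendsto_exp_atBot.comp ?_)
    exact Filter.Tendsto.const_mul_atTop_of_neg (by linarith) Filter.tendsto_id
  rw [mul_zero] at ht
  obtain ⟨T, hT⟩ := Filter.eventually_atTop.1 (ht.eventually (gt_mem_nhds one_pos))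
  refine ⟨max T 0, fun s hs => ?_⟩
  have h1 := hT s ((le_max_left _ _).trans hs)
  have hs0 : 0 ≤ s := (le_max_right _ _).trans hs
  set x := Real.exp (-(b / 2) * s) with hx
  have hx0 : 0 < x := Real.exp_pos _
  have hx1 : x ≤ 1 := by
    rw [hx, Real.exp_le_one_iff]
    nlinarith
  have e : Real.exp (-(b * s)) = x * x := by
    rw [hx, ← Real.exp_add]; congr 1; ring
  have h2 : s * x ≤ 2 / b := by
    have h3 := Real.add_one_le_exp ((b / 2) * s)
    have h4 : Real.exp ((b / 2) * s) * x = 1 := by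
      rw [hx, ← Real.exp_add]
      have : b / 2 * s + -(b / 2) * s = 0 := by ring
      rw [this, Real.exp_zero]
    rw [le_div_iff₀ hb]
    nlinarith
  have h5 : 0 ≤ |a| * (2 / b) := by positivity
  constructor
  · rw [e]
    calc a * s * (x * x) ≤ |a| * s * (x * x) := by
          gcongr
          exact le_abs_self a
      _ = |a| * (s * x) * x := by ring
      _ ≤ |a| * (2 / b) * x := by gcongr
      _ < 1 := by nlinarith
  · rw [e]
    nlinarith

theorem zf_vd (hVD : JobVD) (hKD : JobKD) (h : PosSymm G) (H : CM G k F φ C m) (hm : 2 ≤ m)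
    (B : ℝ) : ∃ Q : ℕ, ∀ (X : Fin 20 → ℤ) (N : ℕ), 0 < N → bf G (xr X N) (xr X N) ≤ B →
      (∀ ν : Fin 20 → ℤ, ν ≠ 0 → (∀ i, |ν i| ≤ Q) → ∀ l : ℤ, dt ν (xr X N) ≠ l) →
      (∀ μ : Fin 20 → ℤ, 0 < bd G μ μ → bd G μ μ ≤ 2 → ∀ l : ℤ, dt μ (xr X N) ≠ l) ∧
      ∀ y : Fin 20 → ℝ, ∃ T : ℝ, ∀ t : ℂ, T ≤ t.im → 0 < t.im → ∀ ω : ℂ,
        3 / (4 * (m : ℝ)) < Y813.RL.ht G (ω, pt X N y t) → F (ω, pt X N y t) ≠ 0 := by
  have hm0 : (0 : ℝ) < m := by exact_mod_cast H.hm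
  set δ : ℝ := 3 / (4 * (m : ℝ)) with hδ
  have hδ0 : 0 < δ := by positivity
  set c₁ : ℝ := 4 + 2 * (8 * (m : ℝ) / 3) * |B| with hc₁
  obtain ⟨Q₁, hQ₁⟩ := short_bound h c₁
  obtain ⟨Q₂, hQ₂⟩ := short_bound h 2
  refine ⟨max Q₂ (2 * (3 * m) * Q₁), fun X N hN hB hg => ?_⟩
  set x := xr X N with hx
  set q := bf G x x with hq
  have hq0 : 0 ≤ q := h.nonneg _
  have hgen : ∀ μ : Fin 20 → ℤ, 0 < bd G μ μ → bd G μ μ ≤ 2 → ∀ l : ℤ, dt μ x ≠ l := by
    intro ν h1 h2 l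
    refine hg ν ?_ (fun i => (hQ₂ ν h2 i).trans ?_) l
    · rintro rfl
      rw [bd_zero] at h1
      exact lt_irrefl _ h1
    · exact_mod_cast le_max_left _ _
  refine ⟨hgen, fun y => ?_⟩
  have hN' : (0 : ℝ) < N := by exact_mod_cast hN
  -- walls through high zeros
  obtain ⟨L, hL⟩ : ∃ L : ℤ, c₁ / 2 + 1 ≤ L := ⟨⌈c₁ / 2 + 1⌉, Int.le_ceil _⟩
  have hwall : ∀ t : ℂ, 1 ≤ t.im → 1 / (δ / 2) ≤ t.im → ∀ ω : ℂ,
      δ / 2 < Y813.RL.ht G (ω, pt X N y t) → F (ω, pt X N y t) = 0 →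
      ∃ (b m' n : ℤ) (μ : Fin 20 → ℤ), 0 < m' ∧ WEq G 0 b m' n μ (ω, pt X N y t) ∧
        (m' : ℝ) ^ 2 * Y813.RL.ht G (ω, pt X N y t) ≤ 1 ∧ m' ≤ 3 * m ∧ bd G μ μ ≤ c₁ ∧
        |n| ≤ L ∧ Y813.RL.ht G (ω, pt X N y t) = -((n : ℝ) + dt μ x) / m' - q / 2 := by
    intro t ht1 ht2 ω hω hF0
    obtain ⟨b, m', n, μ, hm', hw, he, h3, h4⟩ := zero_data h H.tf hN hgen y (half_pos hδ0) ht1 ht2
      hω hF0
    set hh := Y813.RL.ht G (ω, pt X N y t) with hhh
    have hm'R : (0 : ℝ) < m' := by exact_mod_cast hm'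
    have hν := nu_le_one hw
    have hnn := h.nonneg (lam G μ + (m' : ℝ) • xr X N)
    have h5 : (m' : ℝ) ^ 2 * hh ≤ 1 := by linarith
    have h6 : (m' : ℝ) ^ 2 * (δ / 2) < 1 := by
      have : (0 : ℝ) < (m' : ℝ) ^ 2 := by positivity
      nlinarith
    have h7 : (m' : ℝ) ^ 2 < 8 * m / 3 := by
      have e : (m' : ℝ) ^ 2 * (δ / 2) = (m' : ℝ) ^ 2 * 3 / (8 * m) := by
        rw [hδ]; field_simp; ring
      rw [e, div_lt_one (by positivity)] at h6
      linarith
    have h8 : m' ≤ 3 * m := by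
      have h9 : ((m' ^ 2 : ℤ) : ℝ) < ((3 * m : ℤ) : ℝ) := by push_cast; linarith
      have h10 : m' ^ 2 < 3 * m := by exact_mod_cast h9
      nlinarith
    have h11 : bd G μ μ ≤ c₁ := by
      have h12 := par_bound h (lam G μ + (m' : ℝ) • x) ((m' : ℝ) • x)
      rw [add_sub_cancel_right, bf_lam_lam h, bf_smul_left, bf_smul_right, ← hq] at h12
      have h13 : bf G (lam G μ + (m' : ℝ) • x) (lam G μ + (m' : ℝ) • x) ≤ 2 := by
        have h14 : 0 < (m' : ℝ) ^ 2 * hh := by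
          have : 0 < hh := lt_trans (half_pos hδ0) hω
          positivity
        linarith [hν.2]
      have h15 : (m' : ℝ) * ((m' : ℝ) * q) ≤ (8 * m / 3) * |B| := by
        have : q ≤ |B| := hB.trans (le_abs_self B)
        calc (m' : ℝ) * ((m' : ℝ) * q) = (m' : ℝ) ^ 2 * q := by ring
          _ ≤ (8 * m / 3) * |B| := by gcongr
      rw [hc₁]
      nlinarith
    have h16 : |n| ≤ L := by
      have h17 : nu G 0 b m' n μ = bd G μ μ / 2 - m' * n := by
        unfold nu; push_cast; ring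
      rw [h17] at hν
      have h18 : 0 ≤ bd G μ μ := by rw [← bf_lam_lam h]; exact h.nonneg _
      have h19 : |(m' : ℝ) * n| ≤ c₁ / 2 + 1 := by
        rw [abs_le]
        constructor
        · linarith [hν.2]
        · linarith [hν.1]
      have h20 : |((m' * n : ℤ) : ℝ)| ≤ (L : ℝ) := by
        push_cast
        exact h19.trans hL
      have h21 : |m' * n| ≤ L := by exact_mod_cast h20
      rw [abs_mul, abs_of_pos hm'] at h21
      nlinarith [abs_nonneg n]
    refine ⟨b, m', n, μ, hm', he, h5, h8, h11, h16, ?_⟩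
    field_simp
    linarith
  -- the finite set of heights
  set Hx : Set ℝ := (fun p : ℤ × (ℤ × (Fin 20 → ℤ)) => -((p.2.1 : ℝ) + dt p.2.2 x) / p.1 - q / 2) ''
    (Set.Icc (1 : ℤ) (3 * m) ×ˢ (Set.Icc (-L) L ×ˢ {μ : Fin 20 → ℤ | bd G μ μ ≤ c₁})) with hHx
  have hHfin : Hx.Finite :=
    ((Set.finite_Icc _ _).prod ((Set.finite_Icc _ _).prod (short_finite h c₁))).image _
  obtain ⟨γ₀, hγ₀, hgap⟩ := exists_gap hHfin
  set γ := min γ₀ (δ / 4) with hγ
  have hγ0 : 0 < γ := lt_min hγ₀ (by positivity)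
  have hγδ : γ ≤ δ / 4 := min_le_right _ _
  obtain ⟨K, T₁, hK, hT₁, hgp⟩ := gp_exp hKD h H hN hgen y (half_pos hδ0)
  -- the roots of unity
  set Q₀ := Nat.sqrt ((4 * m - 1) / 3) with hQ₀
  have hQ0m : 3 * Q₀ ^ 2 < 4 * m := by
    have h1 : Q₀ * Q₀ ≤ (4 * m - 1) / 3 := Nat.sqrt_le _
    have h2 : (4 * m - 1) / 3 * 3 ≤ 4 * m - 1 := Nat.div_mul_le_self _ _
    have h3 : Q₀ ^ 2 = Q₀ * Q₀ := sq Q₀
    have h4 := H.hm
    rw [h3]
    omega
  obtain ⟨KV, hKV, hvd⟩ := hVD m (Eset Q₀) (card_lt hm hQ0m) (fun ε hε => Eset_norm hε)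
  obtain ⟨T₂, hT₂⟩ := ev_small (KV * K) (2 * Real.pi * N * γ) (by positivity)
  refine ⟨max (max T₁ T₂) (max 1 (1 / (δ / 2))), fun t ht _ ω₁ hω₁ hF₁ => ?_⟩
  have htT₁ : T₁ ≤ t.im := (le_max_left _ _).trans ((le_max_left _ _).trans ht)
  have htT₂ : T₂ ≤ t.im := (le_max_right _ _).trans ((le_max_left _ _).trans ht)
  have ht1 : 1 ≤ t.im := (le_max_left _ _).trans ((le_max_right _ _).trans ht)
  have htδ : 1 / (δ / 2) ≤ t.im := (le_max_right _ _).trans ((le_max_right _ _).trans ht)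
  have ht0 : 0 < t.im := by linarith
  have hNt : 0 < (N : ℝ) * t.im := by positivity
  have hp := pt_UP X y hN ht0
  set p := pt X N y t with hpdef
  have h0 : φ C p ≠ 0 :=
    leading_ne_zero h H.tf H.fd H.hC H.hne hp (pt_not_mir hN hgen y ht0)
  -- the highest zero
  set Z : Set ℝ := {r | ∃ ω : ℂ, F (ω, p) = 0 ∧ r = Y813.RL.ht G (ω, p) ∧ δ < r} with hZ
  have hZH : Z ⊆ Hx := by
    rintro r ⟨ω, hF, rfl, hr⟩
    obtain ⟨b, m', n, μ, hm', _, _, h8, h11, h16, h22⟩ := hwall t ht1 htδ ω (by linarith) hF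
    rw [abs_le] at h16
    exact ⟨(m', (n, μ)), ⟨⟨by omega, h8⟩, ⟨h16, h11⟩⟩, h22.symm⟩
  obtain ⟨hs, ⟨ωs, hFs, hhs, hsδ⟩, hsmax⟩ := Set.exists_max_image Z id (hHfin.subset hZH)
    ⟨_, ω₁, hF₁, rfl, hω₁⟩
  simp only [id] at hsmax
  obtain ⟨b₀, m₀, n₀, μ₀, hm₀, he₀, hb₀, hm₀', hbd₀, hn₀, hh₀⟩ :=
    hwall t ht1 htδ ωs (by rw [← hhs]; linarith) hFs
  have hm₀R : (m₀ : ℝ) ≠ 0 := by exact_mod_cast hm₀.ne'
  have hm₀C : (m₀ : ℂ) ≠ 0 := by exact_mod_cast hm₀.ne'
  set L₀ : ℂ := (n₀ * p.1 + dt μ₀ p.2) / m₀ with hL₀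
  set a : ℂ := ee (-L₀) with ha
  -- all zeros above the level are at the same height and proportional
  have hsame : ∀ ω : ℂ, F (ω, p) = 0 → hs - γ ≤ Y813.RL.ht G (ω, p) →
      ∃ ε ∈ Eset Q₀, ee ω = a * ε := by
    intro ω hF0 hω
    obtain ⟨b, m', n, μ, hm', he, hb, hm'3, hbd, hn, hh⟩ := hwall t ht1 htδ ω (by linarith) hF0
    have hm'R : (m' : ℝ) ≠ 0 := by exact_mod_cast hm'.ne'
    have hm'C : (m' : ℂ) ≠ 0 := by exact_mod_cast hm'.ne'
    have hle : Y813.RL.ht G (ω, p) ≤ hs := by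
      by_cases hc : δ < Y813.RL.ht G (ω, p)
      · exact hsmax _ ⟨ω, hF0, rfl, hc⟩
      · linarith
    have hmemω : Y813.RL.ht G (ω, p) ∈ Hx := by
      have hn' := abs_le.1 hn
      exact ⟨(m', (n, μ)), ⟨⟨by omega, hm'3⟩, ⟨hn', hbd⟩⟩, hh.symm⟩
    have hmems : hs ∈ Hx := hZH ⟨ωs, hFs, hhs, hsδ⟩
    have heq : Y813.RL.ht G (ω, p) = hs :=
      hgap hs hmems _ hmemω (by linarith [min_le_left γ₀ (δ / 4)]) hle
    -- proportionality
    have hprop : dt (m₀ • μ - m' • μ₀) x = ((m' * n₀ - m₀ * n : ℤ) : ℝ) := by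
      have e1 : dt (m₀ • μ - m' • μ₀) x = m₀ * dt μ x - m' * dt μ₀ x := by
        simp only [dt, Pi.sub_apply, Pi.smul_apply, smul_eq_mul, Finset.mul_sum,
          ← Finset.sum_sub_distrib]
        refine Finset.sum_congr rfl fun i _ => ?_
        push_cast
        ring
      rw [e1]
      have e2 : ((n : ℝ) + dt μ x) / m' = ((n₀ : ℝ) + dt μ₀ x) / m₀ := by
        rw [heq, hhs, hh₀] at hh
        have e3 : ∀ u v : ℝ, -u / v = -(u / v) := fun u v => neg_div v u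
        rw [e3, e3] at hh
        linarith
      rw [div_eq_div_iff hm'R hm₀R] at e2
      push_cast
      linarith
    have hzero : m₀ • μ - m' • μ₀ = 0 := by
      by_contra hne
      refine hg _ hne (fun i => ?_) _ hprop
      have b1 := hQ₁ μ hbd i
      have b2 := hQ₁ μ₀ hbd₀ i
      have b3 : |(m₀ • μ - m' • μ₀) i| ≤ 2 * (3 * m) * Q₁ := by
        simp only [Pi.sub_apply, Pi.smul_apply, smul_eq_mul]
        refine (abs_sub _ _).trans ?_
        rw [abs_mul, abs_mul, abs_of_pos hm₀, abs_of_pos hm']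
        have b4 : (0 : ℤ) ≤ Q₁ := by positivity
        nlinarith [mul_le_mul hm₀' b1 (abs_nonneg _) (by positivity : (0 : ℤ) ≤ 3 * m),
          mul_le_mul hm'3 b2 (abs_nonneg _) (by positivity : (0 : ℤ) ≤ 3 * m)]
      refine b3.trans ?_
      exact_mod_cast le_max_right _ _
    have hn2 : m' * n₀ = m₀ * n := by
      rw [hzero] at hprop
      have e5 : dt (0 : Fin 20 → ℤ) x = 0 := by simp [dt]
      rw [e5] at hprop
      have : m' * n₀ - m₀ * n = 0 := by exact_mod_cast hprop.symm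
      linarith
    have hL : (n * p.1 + dt μ p.2) / m' = L₀ := by
      rw [hL₀, div_eq_div_iff hm'C hm₀C]
      have e6 : (m₀ : ℂ) * dt μ p.2 = m' * dt μ₀ p.2 := by
        have e7 : m₀ • μ = m' • μ₀ := sub_eq_zero.1 hzero
        simp only [dt, Finset.mul_sum]
        refine Finset.sum_congr rfl fun i _ => ?_
        have e8 := congrFun e7 i
        simp only [Pi.smul_apply, smul_eq_mul] at e8
        have e9 : (m₀ : ℂ) * (μ i : ℂ) = m' * (μ₀ i : ℂ) := by exact_mod_cast e8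
        linear_combination (p.2 i) * e9
      have e10 : (m' : ℂ) * n₀ = m₀ * n := by exact_mod_cast hn2
      linear_combination e6 - p.1 * e10
    have hω2 : ω = ((-b : ℤ) : ℂ) / m' + (-L₀) := by
      rw [← hL]
      unfold WEq at he
      push_cast at he ⊢
      field_simp
      linear_combination he
    refine ⟨ee (((-b : ℤ) : ℂ) / m'), Eset_mem hm' ?_, ?_⟩
    · -- the order is small
      have h5 : (m' : ℝ) ^ 2 * δ < 1 := by
        have hpos : (0 : ℝ) < (m' : ℝ) ^ 2 := by positivity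
        have : (m' : ℝ) ^ 2 * δ < (m' : ℝ) ^ 2 * Y813.RL.ht G (ω, p) := by
          rw [heq]
          exact mul_lt_mul_of_pos_left hsδ hpos
        linarith
      have h6 : 3 * (m' : ℝ) ^ 2 < 4 * m := by
        have e : (m' : ℝ) ^ 2 * δ = (m' : ℝ) ^ 2 * 3 / (4 * m) := by
          rw [hδ]; ring
        rw [e, div_lt_one (by positivity)] at h5
        linarith
      have h7 : 3 * m' ^ 2 < 4 * m := by exact_mod_cast h6
      obtain ⟨j, rfl⟩ : ∃ j : ℕ, m' = j := ⟨m'.toNat, by omega⟩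
      have h8 : 3 * j ^ 2 < 4 * m := by exact_mod_cast h7
      have h9 : j ≤ Q₀ := by
        rw [hQ₀, Nat.le_sqrt, Nat.le_div_iff_mul_le (by norm_num)]
        have : j * j * 3 = 3 * j ^ 2 := by ring
        omega
      exact_mod_cast h9
    · rw [hω2, ee_add, ha, mul_comm]
  -- apply the disc lemma
  have him_s : ωs.im = N * t.im * (hs + q / 2) := by
    have := pt_ht (G := G) X y hN ht0 ωs
    rw [← hhs] at this
    rw [this]
    field_simp
    ring
  obtain ⟨εs, hεs, hees⟩ := hsame ωs hFs (by rw [← hhs]; linarith)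
  have hanorm : ‖a‖ = Real.exp (-(2 * Real.pi * (N * t.im * (hs + q / 2)))) := by
    have e := congrArg norm hees
    rw [norm_mul, Eset_norm hεs, mul_one, ee_norm, him_s] at e
    exact e.symm
  set R := Real.exp (-(2 * Real.pi * (N * t.im * ((hs - γ) + q / 2)))) with hR
  have hR0 : 0 < R := Real.exp_pos _
  have hRC : (R : ℂ) ≠ 0 := by exact_mod_cast hR0.ne'
  have hbh : bh G p = N * t.im * (q / 2) := pt_bh X y hN ht0
  set R' := Real.exp (-(2 * Real.pi * bh G p)) with hR'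
  have hRR : R < R' := by
    rw [hR, hR', Real.exp_lt_exp, hbh]
    have h1 : 0 < 2 * Real.pi * (N * t.im * (hs - γ)) := by
      have : 0 < hs - γ := by linarith
      positivity
    nlinarith
  have hball : ∀ s ∈ Metric.ball (0 : ℂ) (R' / R), (R : ℂ) * s ∈ Metric.ball (0 : ℂ) R' := by
    intro s hs'
    rw [Metric.mem_ball, dist_zero_right] at hs' ⊢
    rw [norm_mul, Complex.norm_real, Real.norm_of_nonneg hR0.le]
    rw [lt_div_iff₀ hR0] at hs'
    linarith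
  have hsub : Metric.closedBall (0 : ℂ) 1 ⊆ Metric.ball (0 : ℂ) (R' / R) := by
    refine Metric.closedBall_subset_ball ?_
    rwa [one_lt_div hR0]
  have hlin : DifferentiableOn ℂ (fun s : ℂ => (R : ℂ) * s) (Metric.ball (0 : ℂ) (R' / R)) := by
    fun_prop
  have hg_an : AnalyticOnNhd ℂ (fun s => gp φ C m p ((R : ℂ) * s)) (Metric.closedBall 0 1) :=
    (((H.gp_diff hp).comp hlin hball).analyticOnNhd Metric.isOpen_ball).mono hsub
  have hh_an : AnalyticOnNhd ℂ (fun s => (R : ℂ) ^ m * (Hs φ C m p ((R : ℂ) * s) / φ C p))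
      (Metric.closedBall 0 1) := by
    refine (DifferentiableOn.analyticOnNhd (s := Metric.ball (0 : ℂ) (R' / R)) ?_
      Metric.isOpen_ball).mono hsub
    exact (((H.Hs_diff hp).comp hlin hball).div_const _).const_mul _
  have hbd' : ∀ s ∈ Metric.closedBall (0 : ℂ) 1, ‖gp φ C m p ((R : ℂ) * s)‖ ≤
      Real.exp (K * t.im) := by
    intro s hs'
    rw [Metric.mem_closedBall, dist_zero_right] at hs'
    apply hgp t htT₁
    rw [norm_mul, Complex.norm_real, Real.norm_of_nonneg hR0.le]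
    calc R * ‖s‖ ≤ R * 1 := by gcongr
      _ ≤ _ := by
        rw [mul_one, hR, Real.exp_le_exp]
        have h1 : N * t.im * (δ / 2 + q / 2) ≤ N * t.im * (hs - γ + q / 2) := by
          refine mul_le_mul_of_nonneg_left ?_ hNt.le
          linarith
        nlinarith [Real.pi_pos]
  have hzer : ∀ s ∈ Metric.closedBall (0 : ℂ) 1, gp φ C m p ((R : ℂ) * s) = 0 →
      ∃ ε ∈ Eset Q₀, s = (a / R) * ε := by
    intro s hs' hg0
    rw [Metric.mem_closedBall, dist_zero_right] at hs'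
    have hs0 : (R : ℂ) * s ≠ 0 := by
      intro h1
      rw [h1] at hg0
      simp [gp, H.hm.ne'] at hg0
    obtain ⟨ω, hω, him⟩ := exists_ee hs0
    have hvω : N * t.im * ((hs - γ) + q / 2) ≤ ω.im := by
      rw [him, le_div_iff₀ (by positivity)]
      have h1 : ‖(R : ℂ) * s‖ ≤ R := by
        rw [norm_mul, Complex.norm_real, Real.norm_of_nonneg hR0.le]
        calc R * ‖s‖ ≤ R * 1 := by gcongr
          _ = R := mul_one R
      have := Real.log_le_log (norm_pos_iff.2 hs0) h1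
      rw [hR, Real.log_exp] at this
      linarith
    have hbω : bh G p < ω.im := by
      rw [hbh]
      have h1 : 0 < N * t.im * (hs - γ) := by
        have : 0 < hs - γ := by linarith
        positivity
      nlinarith
    rw [← hω, H.gp_eq hp h0 hbω] at hg0
    have hF0 : F (ω, p) = 0 := by
      rcases div_eq_zero_iff.1 hg0 with h1 | h1
      · rcases mul_eq_zero.1 h1 with h2 | h2
        · exact h2
        · exact absurd h2 (ee_ne _)
      · exact absurd h1 h0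
    obtain ⟨ε, hε, he⟩ := hsame ω hF0 (by
      rw [pt_ht X y hN ht0, ← hx, ← hq, le_sub_iff_add_le, le_div_iff₀ hNt]
      linarith)
    refine ⟨ε, hε, ?_⟩
    rw [hω] at he
    field_simp
    linear_combination he
  have haR : ‖a / (R : ℂ)‖ = Real.exp (-(2 * Real.pi * N * γ * t.im)) := by
    rw [norm_div, hanorm, Complex.norm_real, Real.norm_of_nonneg hR0.le, hR, ← Real.exp_sub]
    congr 1
    ring
  have hfin := hvd (fun s => gp φ C m p ((R : ℂ) * s))
    (fun s => (R : ℂ) ^ m * (Hs φ C m p ((R : ℂ) * s) / φ C p)) (a / R) (K * t.im)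
    (by rw [haR]; exact Real.exp_pos _) (by rw [haR]; exact (hT₂ t.im htT₂).2) hg_an hh_an
    (fun s _ => by simp only [gp]; ring) hbd' hzer
    ⟨ee ωs / R, by
      rw [Metric.mem_closedBall, dist_zero_right, norm_div, Complex.norm_real,
        Real.norm_of_nonneg hR0.le, div_le_one hR0, ee_norm, him_s, hR, Real.exp_le_exp]
      have : 0 < N * t.im * γ := by positivity
      nlinarith [Real.pi_pos], by
      rw [mul_div_cancel₀ _ hRC, H.gp_eq hp h0 (by
        rw [hbh, him_s]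
        have : 0 < N * t.im * hs := by
          have : 0 < hs := by linarith
          positivity
        nlinarith), hFs, zero_mul, zero_div]⟩
  rw [haR] at hfin
  have := (hT₂ t.im htT₂).1
  have e : KV * (K * t.im) * Real.exp (-(2 * Real.pi * N * γ * t.im)) =
      KV * K * t.im * Real.exp (-(2 * Real.pi * N * γ * t.im)) := by ring
  rw [e] at hfin
  linarith

end

end Pool.Agent.V11282.RL
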