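import Pool.Agent.V11282.RL.Coef
import Pool.Agent.Y813.RL.Tube5

set_option autoImplicit false

/-!
# Zero free regions; the case of index one
-/

namespace Pool.Agent.V11282.RL

open Pool.Agent.Y813.RL hiding ee_add ee_int ee_zero
open Complex Set Topology MeasureTheory
open Pool.Agent.Y683.RL (ee_add ee_int ee_norm ee_zero ee_ne ee_neg_mul HP fco)

noncomputable section

variable {G : Matrix (Fin 20) (Fin 20) ℤ} {k : ℤ} {F : TP → ℂ}
  {φ : ℕ → ℂ × (Fin 20 → ℂ) → ℂ} {C m : ℕ}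

/-- the wall through a zero high up on a generic slice -/
theorem zero_data (h : PosSymm G) (hF : TubeForm G k F) {N : ℕ} (hN : 0 < N)
    {X : Fin 20 → ℤ} (hgen : ∀ μ : Fin 20 → ℤ, 0 < bd G μ μ → bd G μ μ ≤ 2 →
      ∀ l : ℤ, dt μ (xr X N) ≠ l) (y : Fin 20 → ℝ) {η : ℝ} (hη : 0 < η) {t : ℂ}
    (ht1 : 1 ≤ t.im) (ht2 : 1 / η ≤ t.im) {ω : ℂ} (hht : η < Y813.RL.ht G (ω, pt X N y t))
    (h0 : F (ω, pt X N y t) = 0) :
    ∃ (b m' n : ℤ) (μ : Fin 20 → ℤ), 0 < m' ∧ WallData G 0 b m' n μ ∧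
      WEq G 0 b m' n μ (ω, pt X N y t) ∧
      nu G 0 b m' n μ = (m' : ℝ) ^ 2 * Y813.RL.ht G (ω, pt X N y t) +
        bf G (lam G μ + (m' : ℝ) • xr X N) (lam G μ + (m' : ℝ) • xr X N) / 2 ∧
      (m' : ℝ) * Y813.RL.ht G (ω, pt X N y t) =
        -(n + dt μ (xr X N)) - m' * (bf G (xr X N) (xr X N) / 2) := by
  have ht0 : 0 < t.im := by linarith
  have hN' : (1 : ℝ) ≤ N := by exact_mod_cast hN
  have hp := pt_UP X y hN ht0
  have hNt : 0 < (N : ℝ) * t.im := by positivity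
  have hHd : (ω, pt X N y t) ∈ Hd G := by
    refine ⟨hp, ?_⟩
    rw [pt_bh X y hN ht0]
    rw [pt_ht X y hN ht0, lt_sub_iff_add_lt, lt_div_iff₀ hNt] at hht
    show _ < ω.im
    nlinarith
  have hY : 1 < (ω, pt X N y t).2.1.im ^ 2 * Y813.RL.ht G (ω, pt X N y t) := by
    show 1 < (pt X N y t).1.im ^ 2 * _
    rw [pt_im]
    have h1 : 1 ≤ t.im * η := by
      rw [div_le_iff₀ hη] at ht2
      exact ht2
    have h2 : t.im ≤ N * t.im := by nlinarith
    have h3 : t.im * t.im ≤ (N * t.im) ^ 2 := by nlinarith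
    calc (1 : ℝ) ≤ t.im * η := h1
      _ ≤ (t.im * t.im) * η := by nlinarith
      _ ≤ (N * t.im) ^ 2 * η := by gcongr
      _ < _ := by
        have : 0 < (N * t.im) ^ 2 := by positivity
        nlinarith
  obtain ⟨b, m', n, μ, hw, he⟩ := zero_wall h hF hHd h0 hY
  have hm0 : m' ≠ 0 := by
    rintro rfl
    have h4 := nu_le_one hw
    unfold nu at h4
    apply pt_not_mir hN hgen y ht0
    refine ⟨b, n, μ, ?_, ?_, ?_⟩
    · have := h4.1
      push_cast at this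
      linarith
    · have := h4.2
      push_cast at this
      linarith
    · unfold WEq at he
      push_cast at he
      linear_combination he
  have key : ∀ (b m' n : ℤ) (μ : Fin 20 → ℤ), 0 < m' → WallData G 0 b m' n μ →
      WEq G 0 b m' n μ (ω, pt X N y t) →
      ∃ (b m' n : ℤ) (μ : Fin 20 → ℤ), 0 < m' ∧ WallData G 0 b m' n μ ∧
      WEq G 0 b m' n μ (ω, pt X N y t) ∧
      nu G 0 b m' n μ = (m' : ℝ) ^ 2 * Y813.RL.ht G (ω, pt X N y t) +
        bf G (lam G μ + (m' : ℝ) • xr X N) (lam G μ + (m' : ℝ) • xr X N) / 2 ∧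
      (m' : ℝ) * Y813.RL.ht G (ω, pt X N y t) =
        -(n + dt μ (xr X N)) - m' * (bf G (xr X N) (xr X N) / 2) := by
    intro b m' n μ hm hw he
    have h3 := height_id h (W := (ω, pt X N y t)) hp he
    simp only [pt_xp X y hN ht0] at h3
    refine ⟨b, m', n, μ, hm, hw, he, h3, ?_⟩
    have h4 := WEq_im h he
    rw [kf_Pw h] at h4
    simp only [Int.cast_zero, zero_mul, imW] at h4
    rw [pt_imv X y hN, pt_im, dt_smul] at h4
    rw [pt_ht X y hN ht0]
    have h5 : ω.im = (-(n + dt μ (xr X N)) * (N * t.im)) / m' := by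
      have hm' : (m' : ℝ) ≠ 0 := by exact_mod_cast hm.ne'
      rw [eq_div_iff hm']
      linarith
    have hm' : (m' : ℝ) ≠ 0 := by exact_mod_cast hm.ne'
    rw [h5]
    field_simp
  rcases lt_or_gt_of_ne hm0 with h1 | h1
  · exact key (-b) (-m') (-n) (-μ) (by omega) (WallData_neg hw) (WEq_neg he)
  · exact key b m' n μ h1 hw he

/-- zero free regions from the absence of walls -/
theorem zf_of_free (h : PosSymm G) (hF : TubeForm G k F) {N : ℕ} (hN : 0 < N)
    {X : Fin 20 → ℤ} (hgen : ∀ μ : Fin 20 → ℤ, 0 < bd G μ μ → bd G μ μ ≤ 2 →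
      ∀ l : ℤ, dt μ (xr X N) ≠ l) (y : Fin 20 → ℝ) {η : ℝ} (hη : 0 < η)
    (hfree : ∀ (b m' n : ℤ) (μ : Fin 20 → ℤ), 0 < m' → WallData G 0 b m' n μ →
      nu G 0 b m' n μ - bf G (lam G μ + (m' : ℝ) • xr X N) (lam G μ + (m' : ℝ) • xr X N) / 2 ≤
        η * (m' : ℝ) ^ 2) :
    ∃ T : ℝ, ∀ t : ℂ, T ≤ t.im → 0 < t.im → ∀ ω : ℂ, η < Y813.RL.ht G (ω, pt X N y t) →
      F (ω, pt X N y t) ≠ 0 := by
  refine ⟨max 1 (1 / η), fun t ht _ ω hω h0 => ?_⟩
  obtain ⟨b, m', n, μ, hm, hw, _, h3, _⟩ := zero_data h hF hN hgen y hη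
    ((le_max_left _ _).trans ht) ((le_max_right _ _).trans ht) hω h0
  have h4 := hfree b m' n μ hm hw
  rw [h3] at h4
  have h5 : (0 : ℝ) < (m' : ℝ) ^ 2 := by
    have : (0 : ℝ) < m' := by exact_mod_cast hm
    positivity
  nlinarith

/-- vanishing of coefficients from a zero free region on a generic slice -/
theorem coef_of_zf (hBC : JobBC) (hKD : JobKD) (h : PosSymm G) (H : CM G k F φ C m)
    {A : Matrix (Fin 20) (Fin 20) ℤ} {c : ℂ → (Fin 20 → ℂ) → ℂ} (hc : JacobiZero A c)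
    (hcq : ∀ τ z, 0 < τ.im → φ (C + m) (τ, z) = φ C (τ, z) * c τ z) {N : ℕ} (hN : 0 < N)
    {X : Fin 20 → ℤ} (hgen : ∀ μ : Fin 20 → ℤ, 0 < bd G μ μ → bd G μ μ ≤ 2 →
      ∀ l : ℤ, dt μ (xr X N) ≠ l) {η : ℝ} (hη : 0 < η)
    (hZ : ∀ y : Fin 20 → ℝ, ∃ T : ℝ, ∀ t : ℂ, T ≤ t.im → 0 < t.im → ∀ ω : ℂ,
      η < Y813.RL.ht G (ω, pt X N y t) → F (ω, pt X N y t) ≠ 0)
    (μ : Fin 20 → ℤ) (κ : ℤ)
    (hneg : κ + dt μ (xr X N) + m * (η + bf G (xr X N) (xr X N) / 2) < 0) :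
    fco 0 (fc c μ) κ = 0 := by
  refine fc_coeff_zero hc hN X (E := m * (η + bf G (xr X N) (xr X N) / 2)) (fun y => ?_) μ κ hneg
  obtain ⟨K, T, hT, hb⟩ := c_growth hBC hKD h H hcq hN hgen y hη (hZ y)
  refine ⟨K, T, hT, fun t ht => (hb t ht).trans (le_of_eq ?_)⟩
  congr 3
  ring

theorem quad_id (h : PosSymm G) (μ : Fin 20 → ℤ) (x : Fin 20 → ℝ) :
    bf G (x + lam G μ) (x + lam G μ) = bf G x x + 2 * dt μ x + bd G μ μ := by
  rw [bf_add_left, bf_add_right, bf_add_right, bf_comm h.symm x (lam G μ), bf_lam h,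
    bf_lam_lam h]
  ring

theorem bf_cont_self : Continuous fun x : Fin 20 → ℝ => bf G x x :=
  bf_contR G continuous_id continuous_id

section one

variable {c : ℂ → (Fin 20 → ℂ) → ℂ}

theorem coef_one (hBC : JobBC) (hKD : JobKD) (h : PosSymm G) (H : CM G k F φ C 1)
    (hc : JacobiZero G c)
    (hcq : ∀ τ z, 0 < τ.im → φ (C + 1) (τ, z) = φ C (τ, z) * c τ z)
    (μ : Fin 20 → ℤ) (κ : ℤ) (hκ : (κ : ℝ) - bd G μ μ / 2 < -1) : fco 0 (fc c μ) κ = 0 := by
  obtain ⟨Q, hQ⟩ := short_bound h 2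
  have hO : IsOpen {x : Fin 20 → ℝ | κ + dt μ x + (1 + bf G x x / 2) < 0} := by
    refine isOpen_lt ?_ continuous_const
    have h1 := dt_continuous μ
    have h2 := bf_cont_self (G := G)
    fun_prop
  obtain ⟨X, N, hN, hX, hg⟩ := gen Q hO ⟨-lam G μ, by
    show κ + dt μ (-lam G μ) + (1 + bf G (-lam G μ) (-lam G μ) / 2) < 0
    have e1 : dt μ (-lam G μ) = -bd G μ μ := by
      have : dt μ (lam G μ) = bd G μ μ := rfl
      rw [← this]
      simp [dt]
    rw [bf_neg_left, bf_neg_right, neg_neg, bf_lam_lam h, e1]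
    linarith⟩
  have hgen : ∀ μ : Fin 20 → ℤ, 0 < bd G μ μ → bd G μ μ ≤ 2 → ∀ l : ℤ, dt μ (xr X N) ≠ l := by
    intro ν h1 h2 l
    refine hg ν ?_ (hQ ν h2) l
    rintro rfl
    rw [bd_zero] at h1
    exact lt_irrefl _ h1
  refine coef_of_zf hBC hKD h H hc hcq hN hgen one_pos (fun y => ?_) μ κ ?_
  · refine zf_of_free h H.tf hN hgen y one_pos fun b m' n ν hm hw => ?_
    have h1 := (nu_le_one hw).2
    have h2 := h.nonneg (lam G ν + (m' : ℝ) • xr X N)
    have h3 : (1 : ℝ) ≤ m' := by exact_mod_cast hm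
    nlinarith
  · have h1 : κ + dt μ (xr X N) + (1 + bf G (xr X N) (xr X N) / 2) < 0 := hX
    push_cast
    linarith

theorem coef_half (hBC : JobBC) (hKD : JobKD) (h : PosSymm G) (hev : ∀ i, Even (G i i))
    (H : CM G k F φ C 1) (hc : JacobiZero G c)
    (hcq : ∀ τ z, 0 < τ.im → φ (C + 1) (τ, z) = φ C (τ, z) * c τ z)
    (μ : Fin 20 → ℤ) (hμ : ¬ ∃ v : Fin 20 → ℤ, μ = G.mulVec v) (κ : ℤ)
    (hκ : (κ : ℝ) - bd G μ μ / 2 < -(1 / 2)) : fco 0 (fc c μ) κ = 0 := by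
  by_cases hκ1 : (κ : ℝ) - bd G μ μ / 2 < -1
  · exact coef_one hBC hKD h H hc hcq μ κ hκ1
  push Not at hκ1
  set e : ℝ := (κ : ℝ) - bd G μ μ / 2 with he
  obtain ⟨ε, hε⟩ : ∃ ε : ℝ, ε = (-e - 1 / 2) / 2 := ⟨_, rfl⟩
  have hε0 : 0 < ε := by rw [hε]; linarith
  have hε1 : ε ≤ 1 / 4 := by rw [hε]; linarith
  obtain ⟨Q, hQ⟩ := short_bound h 2
  have hO : IsOpen {x : Fin 20 → ℝ | bf G (x + lam G μ) (x + lam G μ) / 2 < ε ^ 2} := by
    refine isOpen_lt ?_ continuous_const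
    have h2 := (bf_cont_self (G := G)).comp (continuous_id.add (continuous_const (y := lam G μ)))
    exact h2.div_const 2
  obtain ⟨X, N, hN, hX, hg⟩ := gen Q hO ⟨-lam G μ, by
    show bf G (-lam G μ + lam G μ) (-lam G μ + lam G μ) / 2 < ε ^ 2
    rw [neg_add_cancel, bf_zero_left, zero_div]
    positivity⟩
  have hX' : bf G (xr X N + lam G μ) (xr X N + lam G μ) / 2 < ε ^ 2 := hX
  have hgen : ∀ μ : Fin 20 → ℤ, 0 < bd G μ μ → bd G μ μ ≤ 2 → ∀ l : ℤ, dt μ (xr X N) ≠ l := by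
    intro ν h1 h2 l
    refine hg ν ?_ (hQ ν h2) l
    rintro rfl
    rw [bd_zero] at h1
    exact lt_irrefl _ h1
  -- lattice points stay away
  have hfar : ∀ v : Fin 20 → ℤ, 1 / 2 - ε ≤ bf G (vr v + xr X N) (vr v + xr X N) / 2 := by
    intro v
    obtain ⟨a, ha⟩ : ∃ a : Fin 20 → ℝ, a = vr v - lam G μ := ⟨_, rfl⟩
    obtain ⟨b, hb⟩ : ∃ b : Fin 20 → ℝ, b = xr X N + lam G μ := ⟨_, rfl⟩
    have hbb : bf G b b / 2 < ε ^ 2 := by rw [hb]; exact hX'
    have hab : vr v + xr X N = a + b := by rw [ha, hb]; abel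
    -- integrality
    obtain ⟨N', hN'⟩ := even_bf h.symm hev v
    have h1 : bf G a a = 2 * N' - 2 * ((dotProduct μ v : ℤ) : ℝ) + bd G μ μ := by
      rw [ha, bf_sub_left, bf_sub_right, bf_sub_right, bf_comm h.symm (vr v) (lam G μ), bf_lam h,
        bf_lam_lam h, dt_vr, bf_vr, hN']
      push_cast
      ring
    have h2 : bf G a a / 2 = ((N' - dotProduct μ v + κ : ℤ) : ℝ) - e := by
      rw [h1, he]
      push_cast
      ring
    have h3 : 0 < bf G a a := by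
      apply h.pos
      intro h0
      apply hμ
      refine ⟨v, vr_inj ?_⟩
      rw [vr_mulVec]
      have : vr v = lam G μ := sub_eq_zero.1 (ha ▸ h0)
      rw [this]
      exact (mul_inv_vec h (vr μ)).symm
    have h4 : -1 < N' - dotProduct μ v + κ := by
      have : (-1 : ℝ) < ((N' - dotProduct μ v + κ : ℤ) : ℝ) := by linarith
      exact_mod_cast this
    have h5 : (0 : ℝ) ≤ ((N' - dotProduct μ v + κ : ℤ) : ℝ) := by
      have : 0 ≤ N' - dotProduct μ v + κ := by omega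
      exact_mod_cast this
    have h6 : 1 / 2 + 2 * ε ≤ bf G a a / 2 := by
      rw [h2, hε]
      linarith
    have h7 := h.nonneg (ε • a + b)
    rw [bf_add_left, bf_add_right, bf_add_right, bf_smul_left, bf_smul_left, bf_smul_right,
      bf_smul_right, bf_comm h.symm b a] at h7
    have h8 : bf G (a + b) (a + b) = bf G a a + 2 * bf G a b + bf G b b := by
      rw [bf_add_left, bf_add_right, bf_add_right, bf_comm h.symm b a]
      ring
    rw [hab, h8]
    have h9 := h.nonneg b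
    -- 2 a·b ≥ -ε|a|² - |b|²/ε
    have h10 : -(ε * bf G a a) - bf G b b / ε ≤ 2 * bf G a b := by
      have : 0 ≤ (ε * (ε * bf G a a) + ε * bf G a b + (ε * bf G a b + bf G b b)) / ε := by
        positivity
      have e2 : (ε * (ε * bf G a a) + ε * bf G a b + (ε * bf G a b + bf G b b)) / ε =
          ε * bf G a a + 2 * bf G a b + bf G b b / ε := by
        field_simp
        ring
      rw [e2] at this
      linarith
    have h11 : bf G b b / ε < 2 * ε := by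
      rw [div_lt_iff₀ hε0]
      nlinarith
    nlinarith
  refine coef_of_zf hBC hKD h H hc hcq hN hgen (η := 1 / 2 + ε) (by positivity) (fun y => ?_) μ κ ?_
  · refine zf_of_free h H.tf hN hgen y (by positivity) fun b m' n ν hm hw => ?_
    have h2 := h.nonneg (lam G ν + (m' : ℝ) • xr X N)
    have h3 : (1 : ℝ) ≤ m' := by exact_mod_cast hm
    rcases hw with ⟨hw1, v, rfl⟩ | ⟨_, hw2⟩
    · have hnu : nu G 0 b m' n (G.mulVec v) = 1 := hw1
      rw [hnu]
      by_cases hm1 : m' = 1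
      · subst hm1
        have h4 := hfar v
        have e3 : lam G (G.mulVec v) + ((1 : ℤ) : ℝ) • xr X N = vr v + xr X N := by
          rw [lam_mulVec h]
          simp only [Int.cast_one, one_smul]
          rfl
        rw [e3]
        push_cast
        linarith
      · have h5 : (2 : ℝ) ≤ m' := by
          have : 2 ≤ m' := by omega
          exact_mod_cast this
        nlinarith
    · have h4 : nu G 0 b m' n ν ≤ 1 / 2 := hw2
      nlinarith
  · have h1 := quad_id h μ (xr X N)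
    push_cast
    have h2 : ε ^ 2 < ε := by nlinarith
    have h3 : e = -(1 / 2) - 2 * ε := by rw [hε]; ring
    nlinarith

end one

end

end Pool.Agent.V11282.RL
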